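import Pool.Agent.H71.Haar.Parts

/-! Haar coefficients, the key identity on pick-free intervals, cotype and democracy. -/

open MeasureTheory Set
open scoped ENNReal

set_option linter.unusedSectionVars false

namespace Pool.Agent.H71.Haar

section
variable {p : ℝ} [Fact (1 ≤ ENNReal.ofReal p)]

lemma haarFun_node (p : ℝ) (m : ℕ) (l : Fin (2 ^ m)) (x : ℝ) :
    haarFun p (.node m l) x = (rr p ^ m)⁻¹ *
      ((dyadic (m + 1) (2 * l)).indicator (fun _ => 1) x
        - (dyadic (m + 1) (2 * l + 1)).indicator (fun _ => 1) x) := by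
  simp only [haarFun, amp_eq]

lemma coe_haar (i : HaarIndex) : (haar p i : ℝ → ℝ) =ᵐ[unitMeasure] haarFun p i :=
  (haarFun_memLp p i).coeFn_toLp

/-- a Haar function vanishes outside its interval -/
lemma haarFun_zero_off (m : ℕ) (l : Fin (2 ^ m)) (x : ℝ) (hx : x ∉ dyadic m l) :
    haarFun p (.node m l) x = 0 := by
  have hs := dyadic_split m l
  have h1 : x ∉ dyadic (m + 1) (2 * (l:ℕ)) := fun h => hx (by rw [hs]; exact Or.inl h)
  have h2 : x ∉ dyadic (m + 1) (2 * (l:ℕ) + 1) := fun h => hx (by rw [hs]; exact Or.inr h)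
  rw [haarFun_node]
  simp [Set.indicator, h1, h2]

lemma haarFun_zero_of_desc (n k : ℕ) (m : ℕ) (l : Fin (2 ^ m)) (h : desc n k (m, l)) (x : ℝ)
    (hx : x ∉ dyadic n k) : haarFun p (.node m l) x = 0 := by
  apply haarFun_zero_off
  intro hx'
  apply hx
  have := mem_parent h.1 hx'
  rwa [h.2] at this

lemma haarFun_zero_of_not_desc (n k : ℕ) (m : ℕ) (l : Fin (2 ^ m)) (hmn : n ≤ m)
    (h : ¬ desc n k (m, l)) (x : ℝ) (hx : x ∈ dyadic n k) : haarFun p (.node m l) x = 0 := by
  apply haarFun_zero_off
  intro hx'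
  apply h
  refine ⟨hmn, ?_⟩
  exact dyadic_unique (mem_parent hmn hx') hx

lemma haarFun_const (n k : ℕ) (m : ℕ) (l : Fin (2 ^ m)) (hmn : m < n) :
    ∃ c, ∀ x ∈ dyadic n k, haarFun p (.node m l) x = c := by
  refine ⟨(rr p ^ m)⁻¹ * ((if k / 2 ^ (n - (m + 1)) = 2 * l then 1 else 0)
    - (if k / 2 ^ (n - (m + 1)) = 2 * l + 1 then 1 else 0)), ?_⟩
  intro x hx
  have h1 := mem_parent (show m + 1 ≤ n by omega) hx
  rw [haarFun_node]
  have h2 : ∀ j, x ∈ dyadic (m + 1) j ↔ k / 2 ^ (n - (m + 1)) = j := by
    intro j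
    constructor
    · intro h; exact dyadic_unique h1 h
    · intro h; rw [← h]; exact h1
  simp only [Set.indicator, h2]

/-- the identity behind the displacement estimate -/
def HID (f g h : LpUnit p) (n k : ℕ) : Prop :=
  (∫ x in dyadic n k, (U p (f x) - U p (g x)) * h x ∂unitMeasure) * (1 / 2) ^ n
    = (∫ x in dyadic n k, h x ∂unitMeasure) * (VV f n k - VV g n k)

lemma int_Udiff_mul (hp : 2 < p) (f g h : LpUnit p) :
    Integrable (fun x => (U p (f x) - U p (g x)) * h x) unitMeasure := by
  have e : (fun x => (U p (f x) - U p (g x)) * h x)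
      = fun x => U p (f x) * h x - U p (g x) * h x := by
    ext x; ring
  rw [e]
  exact (int_U_mul hp f h).sub (int_U_mul hp g h)

lemma HID_zero (f g : LpUnit p) (n k : ℕ) : HID f g (0 : LpUnit p) n k := by
  unfold HID
  have h1 : ∫ x in dyadic n k, (U p (f x) - U p (g x)) * (0 : LpUnit p) x ∂unitMeasure = 0 := by
    rw [integral_eq_zero_of_ae]
    filter_upwards [ae_restrict_of_ae (Lp.coeFn_zero ℝ (ENNReal.ofReal p) unitMeasure)] with x hx
    rw [hx]; simp
  have h2 : ∫ x in dyadic n k, (0 : LpUnit p) x ∂unitMeasure = 0 := by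
    rw [integral_eq_zero_of_ae]
    filter_upwards [ae_restrict_of_ae (Lp.coeFn_zero ℝ (ENNReal.ofReal p) unitMeasure)] with x hx
    rw [hx]
  rw [h1, h2]; ring

lemma HID_add (hp : 2 < p) (f g h h' : LpUnit p) (n k : ℕ) (H : HID f g h n k)
    (H' : HID f g h' n k) : HID f g (h + h') n k := by
  unfold HID at *
  have h1 : ∫ x in dyadic n k, (U p (f x) - U p (g x)) * (h + h' : LpUnit p) x ∂unitMeasure
      = ∫ x in dyadic n k, (U p (f x) - U p (g x)) * h x ∂unitMeasure
        + ∫ x in dyadic n k, (U p (f x) - U p (g x)) * h' x ∂unitMeasure := by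
    rw [← integral_add (int_Udiff_mul hp f g h).integrableOn
      (int_Udiff_mul hp f g h').integrableOn]
    apply integral_congr_ae
    filter_upwards [ae_restrict_of_ae (Lp.coeFn_add h h')] with x hx
    rw [hx, Pi.add_apply]; ring
  have h2 : ∫ x in dyadic n k, (h + h' : LpUnit p) x ∂unitMeasure
      = ∫ x in dyadic n k, h x ∂unitMeasure + ∫ x in dyadic n k, h' x ∂unitMeasure := by
    rw [← integral_add (int_self hp h).integrableOn (int_self hp h').integrableOn]
    apply integral_congr_ae
    filter_upwards [ae_restrict_of_ae (Lp.coeFn_add h h')] with x hx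
    rw [hx, Pi.add_apply]
  rw [h1, h2, add_mul, add_mul, H, H']

lemma HID_smul (f g h : LpUnit p) (n k : ℕ) (c : ℝ) (H : HID f g h n k) :
    HID f g (c • h) n k := by
  unfold HID at *
  have h1 : ∫ x in dyadic n k, (U p (f x) - U p (g x)) * (c • h : LpUnit p) x ∂unitMeasure
      = c * ∫ x in dyadic n k, (U p (f x) - U p (g x)) * h x ∂unitMeasure := by
    rw [← integral_const_mul]
    apply integral_congr_ae
    filter_upwards [ae_restrict_of_ae (Lp.coeFn_smul c h)] with x hx
    rw [hx, Pi.smul_apply, smul_eq_mul]; ring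
  have h2 : ∫ x in dyadic n k, (c • h : LpUnit p) x ∂unitMeasure
      = c * ∫ x in dyadic n k, h x ∂unitMeasure := by
    rw [← integral_const_mul]
    apply integral_congr_ae
    filter_upwards [ae_restrict_of_ae (Lp.coeFn_smul c h)] with x hx
    rw [hx, Pi.smul_apply, smul_eq_mul]
  rw [h1, h2, mul_assoc, H]; ring

/-- integral of a Haar function over a larger interval vanishes -/
lemma int_haar_node (n : ℕ) (k : Fin (2 ^ n)) :
    ∫ x, haar p (.node n k) x ∂unitMeasure = 0 := by
  have h := int_mul_haar (p := p) (g := fun _ => (1:ℝ)) (integrable_const _) n k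
  simp only [one_mul] at h
  rw [h, setIntegral_const, setIntegral_const, measure_dyadic, measure_dyadic]
  · simp
  · have := k.2
    rw [pow_succ]; omega
  · have := k.2
    rw [pow_succ]; omega

lemma AA_haar_desc (n k m : ℕ) (l : Fin (2 ^ m)) (h : desc n k (m, l)) :
    AA (haar p (.node m l)) n k = 0 := by
  rw [← int_haar_node (p := p) m l]
  unfold AA
  apply setIntegral_eq_integral_of_ae_compl_eq_zero
  filter_upwards [coe_haar (p := p) (.node m l)] with x hx hx'
  rw [hx]
  exact haarFun_zero_of_desc n k m l h x hx'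

lemma AA_of_const (f : LpUnit p) {n k : ℕ} (hk : k < 2 ^ n) {i : HaarIndex} {c : ℝ}
    (hf : f = haar p i) (hc : ∀ x ∈ dyadic n k, haarFun p i x = c) :
    AA f n k = c * (1 / 2) ^ n := by
  subst hf
  unfold AA
  have : ∫ x in dyadic n k, haar p i x ∂unitMeasure = ∫ x in dyadic n k, c ∂unitMeasure := by
    apply setIntegral_congr_ae (measurableSet_dyadic _ _)
    filter_upwards [coe_haar (p := p) i] with x hx hx'
    rw [hx, hc x hx']
  rw [this, setIntegral_const, measure_dyadic hk, smul_eq_mul, mul_comm]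

lemma HID_haar_const (f g : LpUnit p) {n k : ℕ} (hk : k < 2 ^ n) (i : HaarIndex)
    {c : ℝ} (hc : ∀ x ∈ dyadic n k, haarFun p i x = c) (hp : 2 < p) :
    HID f g (haar p i) n k := by
  unfold HID
  have h1 := AA_of_const (haar p i) hk rfl hc
  unfold AA at h1
  rw [h1]
  have h2 : ∫ x in dyadic n k, (U p (f x) - U p (g x)) * haar p i x ∂unitMeasure
      = ∫ x in dyadic n k, c * (U p (f x) - U p (g x)) ∂unitMeasure := by
    apply setIntegral_congr_ae (measurableSet_dyadic _ _)
    filter_upwards [coe_haar (p := p) i] with x hx hx'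
    rw [hx, hc x hx', mul_comm]
  rw [h2, integral_const_mul, integral_sub (int_U hp f).integrableOn (int_U hp g).integrableOn]
  unfold VV
  ring

lemma HID_haar_desc (f g : LpUnit p) {n k : ℕ} (hp : 2 < p) (m : ℕ) (l : Fin (2 ^ m))
    (hd : desc n k (m, l)) (hf : pair f (haar p (.node m l)) = 0)
    (hg : pair g (haar p (.node m l)) = 0) : HID f g (haar p (.node m l)) n k := by
  unfold HID
  have h1 := AA_haar_desc (p := p) n k m l hd
  unfold AA at h1
  rw [h1]
  have h2 : ∫ x in dyadic n k, (U p (f x) - U p (g x)) * haar p (.node m l) x ∂unitMeasure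
      = ∫ x, (U p (f x) - U p (g x)) * haar p (.node m l) x ∂unitMeasure := by
    apply setIntegral_eq_integral_of_ae_compl_eq_zero
    filter_upwards [coe_haar (p := p) (.node m l)] with x hx hx'
    rw [hx, haarFun_zero_of_desc n k m l hd x hx', mul_zero]
  have h3 : ∫ x, (U p (f x) - U p (g x)) * haar p (.node m l) x ∂unitMeasure
      = pair f (haar p (.node m l)) - pair g (haar p (.node m l)) := by
    unfold pair
    rw [← integral_sub (int_U_mul hp _ _) (int_U_mul hp _ _)]
    congr 1; ext x; ring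
  rw [h2, h3, hf, hg]
  ring

lemma HID_haar (f g : LpUnit p) {n k : ℕ} (hp : 2 < p) (hk : k < 2 ^ n) (i : HaarIndex)
    (h : ∀ (m : ℕ) (l : Fin (2 ^ m)), i = .node m l → desc n k (m, l) →
      pair f (haar p i) = 0 ∧ pair g (haar p i) = 0) : HID f g (haar p i) n k := by
  cases i with
  | one => exact HID_haar_const f g hk .one (c := 1) (fun x _ => rfl) hp
  | node m l =>
    by_cases hd : desc n k (m, l)
    · obtain ⟨h1, h2⟩ := h m l rfl hd
      exact HID_haar_desc f g hp m l hd h1 h2
    · rcases Nat.lt_or_ge m n with hmn | hmn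
      · obtain ⟨c, hc⟩ := haarFun_const (p := p) n k m l hmn
        exact HID_haar_const f g hk _ hc hp
      · exact HID_haar_const f g hk _ (c := 0)
          (fun x hx => haarFun_zero_of_not_desc n k m l hmn hd x hx) hp

lemma HID_span (f g : LpUnit p) {n k : ℕ} (hp : 2 < p) (hk : k < 2 ^ n) (s : Set HaarIndex)
    (hs : ∀ i ∈ s, ∀ (m : ℕ) (l : Fin (2 ^ m)), i = .node m l → desc n k (m, l) →
      pair f (haar p i) = 0 ∧ pair g (haar p i) = 0)
    (h : LpUnit p) (hh : h ∈ Submodule.span ℝ (haar p '' s)) : HID f g h n k := by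
  induction hh using Submodule.span_induction with
  | mem x hx =>
    obtain ⟨i, hi, rfl⟩ := hx
    exact HID_haar f g hp hk i (hs i hi)
  | zero => exact HID_zero f g n k
  | add x y _ _ hx hy => exact HID_add hp f g x y n k hx hy
  | smul c x _ hx => exact HID_smul f g x n k c hx

/-- identity in the form used by `displacement` -/
lemma HID_diff (f g : LpUnit p) {n k : ℕ} (h : HID f g (f - g) n k) :
    (∫ x in dyadic n k, (U p (f x) - U p (g x)) * (f x - g x) ∂unitMeasure) * (1 / 2) ^ n
      = (∫ x in dyadic n k, (f x - g x) ∂unitMeasure) * (VV f n k - VV g n k) := by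
  unfold HID at h
  have h1 : ∫ x in dyadic n k, (U p (f x) - U p (g x)) * (f - g : LpUnit p) x ∂unitMeasure
      = ∫ x in dyadic n k, (U p (f x) - U p (g x)) * (f x - g x) ∂unitMeasure := by
    apply integral_congr_ae
    filter_upwards [ae_restrict_of_ae (Lp.coeFn_sub f g)] with x hx
    rw [hx, Pi.sub_apply]
  have h2 : ∫ x in dyadic n k, (f - g : LpUnit p) x ∂unitMeasure
      = ∫ x in dyadic n k, (f x - g x) ∂unitMeasure := by
    apply integral_congr_ae
    filter_upwards [ae_restrict_of_ae (Lp.coeFn_sub f g)] with x hx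
    rw [hx, Pi.sub_apply]
  rw [← h1, ← h2]
  exact h

/-! ### Coefficients -/

/-- coefficient attached to a pair -/
noncomputable def cq (f : LpUnit p) (q : ℕ × ℕ) : ℝ :=
  2 ^ q.1 * rr p ^ q.1 * (AA f (q.1 + 1) (2 * q.2) - AA f (q.1 + 1) (2 * q.2 + 1))

/-- Haar coefficient functional -/
noncomputable def cf (f : LpUnit p) : HaarIndex → ℝ
  | .one => AA f 0 0
  | .node n k => cq f (n, k)

lemma AA_add (hp : 2 < p) (f g : LpUnit p) (n k : ℕ) : AA (f + g) n k = AA f n k + AA g n k := by
  unfold AA
  rw [← integral_add (int_self hp f).integrableOn (int_self hp g).integrableOn]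
  apply integral_congr_ae
  filter_upwards [ae_restrict_of_ae (Lp.coeFn_add f g)] with x hx
  rw [hx, Pi.add_apply]

lemma AA_smul (f : LpUnit p) (c : ℝ) (n k : ℕ) : AA (c • f) n k = c * AA f n k := by
  unfold AA
  rw [← integral_const_mul]
  apply integral_congr_ae
  filter_upwards [ae_restrict_of_ae (Lp.coeFn_smul c f)] with x hx
  rw [hx, Pi.smul_apply, smul_eq_mul]

lemma cf_add (hp : 2 < p) (f g : LpUnit p) (i : HaarIndex) : cf (f + g) i = cf f i + cf g i := by
  cases i with
  | one => simp only [cf, AA_add hp]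
  | node n k => simp only [cf, cq, AA_add hp]; ring

lemma cf_smul (f : LpUnit p) (c : ℝ) (i : HaarIndex) : cf (c • f) i = c * cf f i := by
  cases i with
  | one => simp only [cf, AA_smul]
  | node n k => simp only [cf, cq, AA_smul]; ring

lemma cf_sub (hp : 2 < p) (f g : LpUnit p) (i : HaarIndex) : cf (f - g) i = cf f i - cf g i := by
  have : f - g = f + (-1 : ℝ) • g := by rw [neg_one_smul, sub_eq_add_neg]
  rw [this, cf_add hp, cf_smul]; ring

lemma AA_haar_one {n k : ℕ} (hk : k < 2 ^ n) : AA (haar p .one) n k = (1 / 2) ^ n := by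
  have := AA_of_const (haar p .one) hk rfl (c := 1) (fun x _ => rfl)
  rw [this, one_mul]

lemma AA_haar_ge (n k m : ℕ) (hk : k < 2 ^ n) (l : Fin (2 ^ m)) (h : n ≤ m) :
    AA (haar p (.node m l)) n k = 0 := by
  by_cases hd : desc n k (m, l)
  · exact AA_haar_desc n k m l hd
  · rw [AA_of_const (haar p (.node m l)) hk rfl (c := 0)
      (fun x hx => haarFun_zero_of_not_desc n k m l h hd x hx)]
    ring

/-- biorthogonality, off-diagonal -/
lemma cf_haar_ne (i j : HaarIndex) (hij : i ≠ j) : cf (haar p j) i = 0 := by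
  cases i with
  | one =>
    cases j with
    | one => exact absurd rfl hij
    | node m l =>
      simp only [cf]
      exact AA_haar_ge 0 0 m (by norm_num) l (Nat.zero_le _)
  | node n k =>
    have hk1 : 2 * (k:ℕ) < 2 ^ (n + 1) := by have := k.2; rw [pow_succ]; omega
    have hk2 : 2 * (k:ℕ) + 1 < 2 ^ (n + 1) := by have := k.2; rw [pow_succ]; omega
    simp only [cf, cq]
    cases j with
    | one => rw [AA_haar_one hk1, AA_haar_one hk2]; ring
    | node m l =>
      rcases lt_trichotomy m n with h | h | h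
      · obtain ⟨c, hc⟩ := haarFun_const (p := p) n k m l h
        have hs := dyadic_split n k
        rw [AA_of_const (haar p (.node m l)) hk1 rfl (c := c)
            (fun x hx => hc x (by rw [hs]; exact Or.inl hx)),
          AA_of_const (haar p (.node m l)) hk2 rfl (c := c)
            (fun x hx => hc x (by rw [hs]; exact Or.inr hx))]
        ring
      · subst h
        have hkl : ((l:ℕ)) ≠ (k:ℕ) := by
          intro h; apply hij; congr 1; exact Fin.ext h.symm
        have hnd : ¬ desc m k (m, l) := by rw [desc_same_level]; exact hkl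
        have hs := dyadic_split m k
        rw [AA_of_const (haar p (.node m l)) hk1 rfl (c := 0)
            (fun x hx => haarFun_zero_of_not_desc m k m l le_rfl hnd x
              (by rw [hs]; exact Or.inl hx)),
          AA_of_const (haar p (.node m l)) hk2 rfl (c := 0)
            (fun x hx => haarFun_zero_of_not_desc m k m l le_rfl hnd x
              (by rw [hs]; exact Or.inr hx))]
        ring
      · rw [AA_haar_ge (n + 1) _ m hk1 l h, AA_haar_ge (n + 1) _ m hk2 l h]
        ring

/-- biorthogonality, diagonal -/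
lemma cf_haar_self (i : HaarIndex) : cf (haar p i) i = 1 := by
  cases i with
  | one => simp only [cf]; rw [AA_haar_one (by norm_num)]; norm_num
  | node n k =>
    have hk1 : 2 * (k:ℕ) < 2 ^ (n + 1) := by have := k.2; rw [pow_succ]; omega
    have hk2 : 2 * (k:ℕ) + 1 < 2 ^ (n + 1) := by have := k.2; rw [pow_succ]; omega
    simp only [cf, cq]
    have hd := dyadic_disj (n := n + 1) (show 2 * (k:ℕ) ≠ 2 * k + 1 by omega)
    have h1 : ∀ x ∈ dyadic (n + 1) (2 * (k:ℕ)), haarFun p (.node n k) x = (rr p ^ n)⁻¹ := by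
      intro x hx
      have hx' : x ∉ dyadic (n + 1) (2 * (k:ℕ) + 1) := Set.disjoint_left.mp hd hx
      rw [haarFun_node]
      simp [Set.indicator, hx, hx']
    have h2 : ∀ x ∈ dyadic (n + 1) (2 * (k:ℕ) + 1), haarFun p (.node n k) x = -(rr p ^ n)⁻¹ := by
      intro x hx
      have hx' : x ∉ dyadic (n + 1) (2 * (k:ℕ)) := Set.disjoint_right.mp hd hx
      rw [haarFun_node]
      simp [Set.indicator, hx, hx']
    rw [AA_of_const (haar p (.node n k)) hk1 rfl h1, AA_of_const (haar p (.node n k)) hk2 rfl h2]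
    have hr := rr_pow_pos p n
    have h3 : (2:ℝ) ^ n * (1 / 2) ^ (n + 1) = 1 / 2 := by
      rw [pow_succ, ← mul_assoc, ← mul_pow]; norm_num
    calc (2:ℝ) ^ n * rr p ^ n * ((rr p ^ n)⁻¹ * (1 / 2) ^ (n + 1) - -(rr p ^ n)⁻¹ * (1 / 2) ^ (n + 1))
        = 2 * ((2:ℝ) ^ n * (1 / 2) ^ (n + 1)) * (rr p ^ n * (rr p ^ n)⁻¹) := by ring
      _ = 1 := by rw [h3, mul_inv_cancel₀ hr.ne']; norm_num

/-- elements of the span of Haar functions indexed by `s` have no other coefficients -/
lemma cf_span (hp : 2 < p) (s : Set HaarIndex) (i : HaarIndex) (hi : i ∉ s) (h : LpUnit p)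
    (hh : h ∈ Submodule.span ℝ (haar p '' s)) : cf h i = 0 := by
  induction hh using Submodule.span_induction with
  | mem x hx =>
    obtain ⟨j, hj, rfl⟩ := hx
    exact cf_haar_ne i j (fun h => hi (h ▸ hj))
  | zero =>
    have := cf_smul (0 : LpUnit p) 0 i
    simpa using this
  | add x y _ _ hx hy => rw [cf_add hp, hx, hy, add_zero]
  | smul c x _ hx => rw [cf_smul, hx, mul_zero]

lemma cf_sum_smul (hp : 2 < p) (s : Finset HaarIndex) (a : HaarIndex → ℝ) (i : HaarIndex) :
    cf (∑ j ∈ s, a j • haar p j) i = if i ∈ s then a i else 0 := by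
  classical
  induction s using Finset.induction_on with
  | empty =>
    have := cf_smul (0 : LpUnit p) 0 i
    simpa using this
  | insert b s hb ih =>
    rw [Finset.sum_insert hb, cf_add hp, cf_smul, ih]
    by_cases h : i = b
    · subst h
      rw [cf_haar_self]
      simp [hb]
    · rw [cf_haar_ne i b h]
      simp [h]

/-! ### Cotype -/

lemma jensen_aux (hp : 2 < p) (f : LpUnit p) {n k : ℕ} (hk : k < 2 ^ n) :
    (1 / 2) ^ n * |2 ^ n * AA f n k| ^ p ≤ ∫ x in dyadic n k, |f x| ^ p ∂unitMeasure := by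
  set v := 2 ^ n * AA f n k with hv
  have h1 : ∫ x in dyadic n k, (|v| ^ p + p * U p v * (f x - v)) ∂unitMeasure
      ≤ ∫ x in dyadic n k, |f x| ^ p ∂unitMeasure := by
    apply setIntegral_mono
    · exact ((integrable_const _).add
        (((int_self hp f).sub (integrable_const _)).const_mul _)).integrableOn
    · exact (int_rpow hp f).integrableOn
    · intro x; exact grad_ineq hp _ _
  have h2 : ∫ x in dyadic n k, (|v| ^ p + p * U p v * (f x - v)) ∂unitMeasure
      = (1 / 2) ^ n * |v| ^ p := by
    have e : ∀ x, |v| ^ p + p * U p v * (f x - v)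
        = (|v| ^ p - p * U p v * v) + p * U p v * f x := fun x => by ring
    simp only [e]
    rw [integral_add (integrable_const _).integrableOn
      ((int_self hp f).const_mul _).integrableOn,
      integral_const_mul, setIntegral_const, measure_dyadic hk, smul_eq_mul]
    have h3 : (1 / 2 : ℝ) ^ n * v = AA f n k := by
      rw [hv, ← mul_assoc, ← mul_pow]; norm_num
    have h4 : ∫ x in dyadic n k, f x ∂unitMeasure = AA f n k := rfl
    rw [h4, ← h3]
    ring
  rw [h2] at h1
  exact h1

lemma cotype_node (hp : 2 < p) (f : LpUnit p) (P : Finset (ℕ × ℕ)) (N : ℕ)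
    (hN : ∀ q ∈ P, q.1 < N) : ∀ d n k, n + d = N → k < 2 ^ n →
    (1 / 2) ^ n * |2 ^ n * AA f n k| ^ p + ∑ q ∈ P.filter (desc n k), |cq f q| ^ p
      ≤ ∫ x in dyadic n k, |f x| ^ p ∂unitMeasure := by
  intro d
  induction d with
  | zero =>
    intro n k hn hk
    have h0 := cnt_zero_of_level P N hN n k (by omega)
    have h1 : P.filter (desc n k) = ∅ := Finset.card_eq_zero.mp h0
    rw [h1, Finset.sum_empty, add_zero]
    exact jensen_aux hp f hk
  | succ d ih =>
    intro n k hn hk
    have hk1 : 2 * k < 2 ^ (n + 1) := by rw [pow_succ]; omega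
    have hk2 : 2 * k + 1 < 2 ^ (n + 1) := by rw [pow_succ]; omega
    have h1 := ih (n + 1) (2 * k) (by omega) hk1
    have h2 := ih (n + 1) (2 * k + 1) (by omega) hk2
    rw [int_split (int_rpow hp f) n k, sum_desc P n k]
    have h3 : (if (n, k) ∈ P then |cq f (n, k)| ^ p else 0) ≤ |cq f (n, k)| ^ p := by
      split_ifs
      · exact le_rfl
      · positivity
    have h4 : (1 / 2 : ℝ) ^ n * |2 ^ n * AA f n k| ^ p + |cq f (n, k)| ^ p
        ≤ (1 / 2) ^ (n + 1) * |2 ^ (n + 1) * AA f (n + 1) (2 * k)| ^ p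
          + (1 / 2) ^ (n + 1) * |2 ^ (n + 1) * AA f (n + 1) (2 * k + 1)| ^ p := by
      set a := AA f (n + 1) (2 * k) with ha
      set b := AA f (n + 1) (2 * k + 1) with hb
      have h5 := clarkson_ineq hp (2 ^ n * (a + b)) (2 ^ n * (a - b))
      have e1 : (2:ℝ) ^ n * (a + b) + 2 ^ n * (a - b) = 2 ^ (n + 1) * a := by rw [pow_succ]; ring
      have e2 : (2:ℝ) ^ n * (a + b) - 2 ^ n * (a - b) = 2 ^ (n + 1) * b := by rw [pow_succ]; ring
      rw [e1, e2] at h5
      have e3 : cq f (n, k) = rr p ^ n * (2 ^ n * (a - b)) := by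
        unfold cq; simp only; rw [← ha, ← hb]; ring
      have e4 : |cq f (n, k)| ^ p = (1 / 2) ^ n * |2 ^ n * (a - b)| ^ p := by
        rw [e3, abs_mul, Real.mul_rpow (abs_nonneg _) (abs_nonneg _),
          abs_of_pos (rr_pow_pos p n), rr_pow_rpow hp]
      rw [e4, AA_split hp f n k, ← ha, ← hb]
      have h6 : (0:ℝ) ≤ (1 / 2) ^ (n + 1) := by positivity
      have h7 := mul_le_mul_of_nonneg_left h5 h6
      have e5 : (1 / 2 : ℝ) ^ (n + 1) * (2 * (|2 ^ n * (a + b)| ^ p + |2 ^ n * (a - b)| ^ p))
          = (1 / 2) ^ n * |2 ^ n * (a + b)| ^ p + (1 / 2) ^ n * |2 ^ n * (a - b)| ^ p := by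
        rw [pow_succ]; ring
      rw [e5] at h7
      linarith
    linarith

/-- index to pair -/
def toPair : HaarIndex → ℕ × ℕ
  | .one => (0, 0)
  | .node n k => (n, k)

lemma toPair_node_inj {n m : ℕ} {k : Fin (2 ^ n)} {l : Fin (2 ^ m)}
    (h : toPair (.node n k) = toPair (.node m l)) :
    (HaarIndex.node n k) = .node m l := by
  simp only [toPair, Prod.mk.injEq] at h
  obtain ⟨h1, h2⟩ := h
  subst h1
  congr 1
  exact Fin.ext h2

/-- cotype `p` inequality with constant one -/
lemma cotype (hp : 2 < p) (f : LpUnit p) (s : Finset HaarIndex) :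
    ∑ i ∈ s, |cf f i| ^ p ≤ ‖f‖ ^ p := by
  classical
  set s' := s.filter (fun i => i ≠ .one) with hs'
  set P := s'.image toPair with hP
  have hinj : Set.InjOn toPair (s' : Set HaarIndex) := by
    intro i hi j hj h
    simp only [hs', Finset.coe_filter, Set.mem_ofPred_eq] at hi hj
    cases i with
    | one => exact absurd rfl hi.2
    | node n k =>
      cases j with
      | one => exact absurd rfl hj.2
      | node m l => exact toPair_node_inj h
  have h1 : ∑ q ∈ P, |cq f q| ^ p = ∑ i ∈ s', |cf f i| ^ p := by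
    rw [hP, Finset.sum_image hinj]
    apply Finset.sum_congr rfl
    intro i hi
    simp only [hs', Finset.mem_filter] at hi
    cases i with
    | one => exact absurd rfl hi.2
    | node n k => rfl
  have hPlt : ∀ q ∈ P, q.2 < 2 ^ q.1 := by
    intro q hq
    rw [hP, Finset.mem_image] at hq
    obtain ⟨i, hi, rfl⟩ := hq
    cases i with
    | one => simp [toPair]
    | node n k => exact k.2
  obtain ⟨N, hN⟩ : ∃ N, ∀ q ∈ P, q.1 < N := by
    refine ⟨P.sup (fun q => q.1) + 1, fun q hq => ?_⟩
    exact Nat.lt_succ_of_le (Finset.le_sup (f := fun q : ℕ × ℕ => q.1) hq)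
  have h2 := cotype_node hp f P N hN N 0 0 (by omega) (by norm_num)
  have hfil : P.filter (desc 0 0) = P := by
    rw [Finset.filter_eq_self]
    intro q hq
    exact desc_root (hPlt q hq)
  rw [hfil, h1, int_root, ← norm_rpow hp] at h2
  simp only [pow_zero, one_mul] at h2
  have h3 : ∑ i ∈ s, |cf f i| ^ p ≤ |AA f 0 0| ^ p + ∑ i ∈ s', |cf f i| ^ p := by
    rw [← Finset.sum_filter_add_sum_filter_not s (fun i => i ≠ .one)]
    rw [add_comm]
    apply add_le_add _ le_rfl
    calc ∑ i ∈ s.filter (fun i => ¬ i ≠ .one), |cf f i| ^ p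
        ≤ ∑ i ∈ ({.one} : Finset HaarIndex), |cf f i| ^ p := by
          apply Finset.sum_le_sum_of_subset_of_nonneg
          · intro i hi
            simp only [Finset.mem_filter, not_not] at hi
            rw [hi.2]; simp
          · intro i _ _; positivity
      _ = |AA f 0 0| ^ p := by simp [cf]
  linarith

/-! ### Democracy -/

/-- constant in the democracy estimate -/
noncomputable def Kd (p : ℝ) : ℝ := (rr p)⁻¹ / ((rr p)⁻¹ - 1)

lemma rinv_gt_one {p : ℝ} (hp : 2 < p) : 1 < (rr p)⁻¹ :=
  (one_lt_inv₀ (rr_pos p)).mpr (rr_lt_one hp)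

lemma Kd_gt {p : ℝ} (hp : 2 < p) : 1 ≤ Kd p := by
  have := rinv_gt_one hp
  unfold Kd
  rw [le_div_iff₀ (by linarith)]
  linarith

lemma geo_sum_rpow (hp : 2 < p) (P : Finset (ℕ × ℕ)) (x : ℝ) :
    (∑ q ∈ P, (rr p ^ q.1)⁻¹ * (dyadic q.1 q.2).indicator (fun _ => 1) x) ^ p
      ≤ Kd p ^ p * ∑ q ∈ P, 2 ^ q.1 * (dyadic q.1 q.2).indicator (fun _ => (1:ℝ)) x := by
  classical
  have hr := rr_pos p
  set T := P.filter (fun q => x ∈ dyadic q.1 q.2) with hT
  have h1 : ∑ q ∈ P, (rr p ^ q.1)⁻¹ * (dyadic q.1 q.2).indicator (fun _ => 1) x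
      = ∑ q ∈ T, (rr p ^ q.1)⁻¹ := by
    rw [hT, Finset.sum_filter]
    apply Finset.sum_congr rfl
    intro q _
    by_cases hx : x ∈ dyadic q.1 q.2 <;> simp [Set.indicator, hx]
  have h2 : ∑ q ∈ P, 2 ^ q.1 * (dyadic q.1 q.2).indicator (fun _ => (1:ℝ)) x
      = ∑ q ∈ T, (2:ℝ) ^ q.1 := by
    rw [hT, Finset.sum_filter]
    apply Finset.sum_congr rfl
    intro q _
    by_cases hx : x ∈ dyadic q.1 q.2 <;> simp [Set.indicator, hx]
  rw [h1, h2]
  rcases T.eq_empty_or_nonempty with hTe | hTn
  · rw [hTe]; simp [Real.zero_rpow (by linarith : p ≠ 0)]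
  · have hinj : Set.InjOn (fun q : ℕ × ℕ => q.1) T := by
      intro q hq q' hq' h
      simp only [hT, Finset.coe_filter, Set.mem_ofPred_eq] at hq hq'
      simp only at h
      have := dyadic_unique (h ▸ hq.2) hq'.2
      exact Prod.ext h this
    have h3 : ∑ q ∈ T, (rr p ^ q.1)⁻¹ = ∑ n ∈ T.image (fun q => q.1), ((rr p)⁻¹) ^ n := by
      rw [Finset.sum_image hinj]
      apply Finset.sum_congr rfl
      intro q _
      rw [inv_pow]
    obtain ⟨q0, hq0, hmax⟩ := Finset.exists_max_image T (fun q => q.1) hTn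
    have h4 : ∑ q ∈ T, (rr p ^ q.1)⁻¹ ≤ Kd p * (rr p ^ q0.1)⁻¹ := by
      rw [h3]
      unfold Kd
      apply geom_dom (rinv_gt_one hp) _ (by positivity)
      intro n hn
      rw [Finset.mem_image] at hn
      obtain ⟨q, hq, rfl⟩ := hn
      rw [← inv_pow]
      exact pow_le_pow_right₀ (rinv_gt_one hp).le (hmax q hq)
    have h5 : 0 ≤ ∑ q ∈ T, (rr p ^ q.1)⁻¹ := Finset.sum_nonneg (fun q _ => by positivity)
    have hK := Kd_gt hp
    calc (∑ q ∈ T, (rr p ^ q.1)⁻¹) ^ p ≤ (Kd p * (rr p ^ q0.1)⁻¹) ^ p :=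
          Real.rpow_le_rpow h5 h4 (by linarith)
      _ = Kd p ^ p * 2 ^ q0.1 := by
          rw [Real.mul_rpow (by linarith) (by positivity), Real.inv_rpow (by positivity),
            rr_pow_rpow hp]
          simp
      _ ≤ Kd p ^ p * ∑ q ∈ T, (2:ℝ) ^ q.1 := by
          apply mul_le_mul_of_nonneg_left _ (by positivity)
          exact Finset.single_le_sum (f := fun q : ℕ × ℕ => (2:ℝ) ^ q.1)
            (fun q _ => by positivity) hq0

lemma abs_haarFun_node (n : ℕ) (k : Fin (2 ^ n)) (x : ℝ) :
    |haarFun p (.node n k) x| = (rr p ^ n)⁻¹ * (dyadic n k).indicator (fun _ => 1) x := by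
  rw [haarFun_node]
  have h := haar_sq (p := p) n k x
  have hr := rr_pow_pos p n
  by_cases h3 : x ∈ dyadic n k
  · simp only [Set.indicator, h3, if_true, mul_one] at h ⊢
    rw [← sq_abs] at h
    exact (pow_left_inj₀ (abs_nonneg _) (by positivity) (by norm_num)).mp h
  · have h4 := haarFun_zero_off (p := p) n k x h3
    rw [haarFun_node] at h4
    rw [h4]
    simp [Set.indicator, h3]

lemma democracy (hp : 2 < p) (s : Finset HaarIndex) (a : HaarIndex → ℝ) {α : ℝ} (hα : 0 ≤ α)
    (ha : ∀ i ∈ s, |a i| ≤ α) :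
    ‖∑ i ∈ s, a i • haar p i‖ ^ p ≤ (2 * Kd p * α) ^ p * s.card := by
  classical
  have hK := Kd_gt hp
  set s' := s.filter (fun i => i ≠ .one) with hs'
  set P := s'.image toPair with hP
  have hinj : Set.InjOn toPair (s' : Set HaarIndex) := by
    intro i hi j hj h
    simp only [hs', Finset.coe_filter, Set.mem_ofPred_eq] at hi hj
    cases i with
    | one => exact absurd rfl hi.2
    | node n k =>
      cases j with
      | one => exact absurd rfl hj.2
      | node m l => exact toPair_node_inj h
  have hPlt : ∀ q ∈ P, q.2 < 2 ^ q.1 := by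
    intro q hq
    rw [hP, Finset.mem_image] at hq
    obtain ⟨i, hi, rfl⟩ := hq
    cases i with
    | one => simp [toPair]
    | node n k => exact k.2
  set δ : ℝ := if HaarIndex.one ∈ s then 1 else 0 with hδ
  have hδ0 : 0 ≤ δ := by rw [hδ]; split_ifs <;> norm_num
  have hδp : δ ^ p = δ := by
    rw [hδ]; split_ifs
    · exact Real.one_rpow _
    · exact Real.zero_rpow (by linarith)
  have hcard : (s.card : ℝ) = δ + P.card := by
    have h1 : s.card = (s.filter (fun i => i ≠ .one)).card
        + (s.filter (fun i => ¬ i ≠ .one)).card :=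
      (Finset.card_filter_add_card_filter_not _).symm
    have h2 : P.card = s'.card := Finset.card_image_of_injOn hinj
    have h3 : ((s.filter (fun i => ¬ i ≠ .one)).card : ℝ) = δ := by
      rw [hδ]
      split_ifs with h
      · have : s.filter (fun i => ¬ i ≠ .one) = {.one} := by
          ext i
          simp only [Finset.mem_filter, not_not, Finset.mem_singleton]
          constructor
          · exact fun h => h.2
          · intro hi; exact ⟨hi ▸ h, hi⟩
        rw [this]; simp
      · have : s.filter (fun i => ¬ i ≠ .one) = ∅ := by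
          rw [Finset.filter_eq_empty_iff]
          intro i hi hi'
          simp only [not_not] at hi'
          exact h (hi' ▸ hi)
        rw [this]; simp
    rw [h1, h2]
    push_cast
    rw [h3]; ring
  -- pointwise bound
  have hpt : ∀ x, |∑ i ∈ s, a i * haarFun p i x| ≤ α * (δ + ∑ q ∈ P, (rr p ^ q.1)⁻¹ *
      (dyadic q.1 q.2).indicator (fun _ => 1) x) := by
    intro x
    have h1 : ∑ q ∈ P, (rr p ^ q.1)⁻¹ * (dyadic q.1 q.2).indicator (fun _ => 1) x
        = ∑ i ∈ s', |haarFun p i x| := by
      rw [hP, Finset.sum_image hinj]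
      apply Finset.sum_congr rfl
      intro i hi
      simp only [hs', Finset.mem_filter] at hi
      cases i with
      | one => exact absurd rfl hi.2
      | node n k => rw [abs_haarFun_node]; rfl
    calc |∑ i ∈ s, a i * haarFun p i x| ≤ ∑ i ∈ s, |a i * haarFun p i x| :=
          Finset.abs_sum_le_sum_abs _ _
      _ ≤ ∑ i ∈ s, α * |haarFun p i x| := by
          apply Finset.sum_le_sum
          intro i hi
          rw [abs_mul]
          exact mul_le_mul_of_nonneg_right (ha i hi) (abs_nonneg _)
      _ = α * ∑ i ∈ s, |haarFun p i x| := by rw [Finset.mul_sum]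
      _ = α * (δ + ∑ q ∈ P, (rr p ^ q.1)⁻¹ *
          (dyadic q.1 q.2).indicator (fun _ => 1) x) := by
          congr 1
          rw [h1, ← Finset.sum_filter_add_sum_filter_not s (fun i => i ≠ .one), add_comm]
          congr 1
          rw [hδ]
          split_ifs with h
          · have : s.filter (fun i => ¬ i ≠ .one) = {.one} := by
              ext i
              simp only [Finset.mem_filter, not_not, Finset.mem_singleton]
              constructor
              · exact fun h => h.2
              · intro hi; exact ⟨hi ▸ h, hi⟩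
            rw [this]; simp [haarFun]
          · have : s.filter (fun i => ¬ i ≠ .one) = ∅ := by
              rw [Finset.filter_eq_empty_iff]
              intro i hi hi'
              simp only [not_not] at hi'
              exact h (hi' ▸ hi)
            rw [this]; simp
  have hpt2 : ∀ x, |∑ i ∈ s, a i * haarFun p i x| ^ p ≤ (2 * Kd p * α) ^ p *
      (δ + ∑ q ∈ P, 2 ^ q.1 * (dyadic q.1 q.2).indicator (fun _ => (1:ℝ)) x) := by
    intro x
    set S1 := ∑ q ∈ P, (rr p ^ q.1)⁻¹ * (dyadic q.1 q.2).indicator (fun _ => (1:ℝ)) x with hS1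
    set S2 := ∑ q ∈ P, 2 ^ q.1 * (dyadic q.1 q.2).indicator (fun _ => (1:ℝ)) x with hS2
    have hS10 : 0 ≤ S1 := by
      apply Finset.sum_nonneg
      intro q _
      have : 0 ≤ (dyadic q.1 q.2).indicator (fun _ => (1:ℝ)) x :=
        Set.indicator_nonneg (fun _ _ => zero_le_one) x
      have := rr_pow_pos p q.1
      positivity
    have h1 := geo_sum_rpow hp P x
    rw [← hS1, ← hS2] at h1
    have h2 := hpt x
    have hKp : 1 ≤ Kd p ^ p := Real.one_le_rpow hK (by linarith)
    calc |∑ i ∈ s, a i * haarFun p i x| ^ p ≤ (α * (δ + S1)) ^ p :=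
          Real.rpow_le_rpow (abs_nonneg _) h2 (by linarith)
      _ = α ^ p * (δ + S1) ^ p := Real.mul_rpow hα (by positivity)
      _ ≤ α ^ p * (2 ^ p * (δ ^ p + S1 ^ p)) :=
          mul_le_mul_of_nonneg_left (rpow_add_le_aux (by linarith) hδ0 hS10) (by positivity)
      _ ≤ α ^ p * (2 ^ p * (Kd p ^ p * δ + Kd p ^ p * S2)) := by
          apply mul_le_mul_of_nonneg_left _ (by positivity)
          apply mul_le_mul_of_nonneg_left _ (by positivity)
          apply add_le_add _ h1
          rw [hδp]
          nlinarith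
      _ = (2 * Kd p * α) ^ p * (δ + S2) := by
          rw [Real.mul_rpow (by positivity) hα, Real.mul_rpow (by norm_num) (by linarith)]
          ring
  have hint : ∀ q : ℕ × ℕ, Integrable (fun x => (2:ℝ) ^ q.1 *
      (dyadic q.1 q.2).indicator (fun _ => (1:ℝ)) x) unitMeasure := by
    intro q
    exact (((integrable_const (1:ℝ)).indicator (measurableSet_dyadic _ _))).const_mul _
  rw [norm_rpow hp]
  calc ∫ x, |(∑ i ∈ s, a i • haar p i : LpUnit p) x| ^ p ∂unitMeasure
      ≤ ∫ x, (2 * Kd p * α) ^ p *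
        (δ + ∑ q ∈ P, 2 ^ q.1 * (dyadic q.1 q.2).indicator (fun _ => (1:ℝ)) x) ∂unitMeasure := by
        apply integral_mono_ae (int_rpow hp _)
        · exact ((integrable_const _).add (integrable_finsetSum _ (fun q _ => hint q))).const_mul _
        · have hall : ∀ᵐ x ∂unitMeasure, ∀ i ∈ s, (a i • haar p i : LpUnit p) x
              = a i * haarFun p i x := by
            rw [Finset.eventually_all]
            intro i _
            filter_upwards [Lp.coeFn_smul (a i) (haar p i), coe_haar (p := p) i] with x h1 h2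
            rw [h1, Pi.smul_apply, h2, smul_eq_mul]
          filter_upwards [Lp.coeFn_finsetSum s (fun i => a i • haar p i), hall] with x h1 h2
          rw [h1, Finset.sum_apply, Finset.sum_congr rfl h2]
          exact hpt2 x
    _ = (2 * Kd p * α) ^ p * (δ + P.card) := by
        rw [integral_const_mul, integral_add (integrable_const _)
          (integrable_finsetSum _ (fun q _ => hint q)), integral_finsetSum _ (fun q _ => hint q)]
        congr 1
        congr 1
        · rw [← int_root, setIntegral_const, measure_dyadic (by norm_num)]; simp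
        · rw [Finset.card_eq_sum_ones]
          push_cast
          apply Finset.sum_congr rfl
          intro q hq
          rw [integral_const_mul, integral_indicator (measurableSet_dyadic _ _),
            setIntegral_const, measure_dyadic (hPlt q hq), smul_eq_mul, mul_one, ← mul_pow]
          norm_num
    _ = (2 * Kd p * α) ^ p * s.card := by rw [hcard]

end

end Pool.Agent.H71.Haar
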