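import Mathlib

/-! Combinatorics of the dyadic tree. -/

namespace Pool.Agent.H71.Haar

/-- `q` is a descendant of (or equal to) the node `(n,i)`. -/
def desc (n i : ℕ) (q : ℕ × ℕ) : Prop := n ≤ q.1 ∧ q.2 / 2 ^ (q.1 - n) = i

instance (n i : ℕ) (q : ℕ × ℕ) : Decidable (desc n i q) := by unfold desc; infer_instance

lemma desc_self (n i : ℕ) : desc n i (n, i) := by simp [desc]

lemma desc_root {n i : ℕ} (hi : i < 2 ^ n) : desc 0 0 (n, i) := by
  refine ⟨Nat.zero_le _, ?_⟩
  simp only [Nat.sub_zero]
  exact Nat.div_eq_of_lt hi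

lemma desc_child_iff (n i : ℕ) (q : ℕ × ℕ) (h : n < q.1) :
    desc n i q ↔ (desc (n + 1) (2 * i) q ∨ desc (n + 1) (2 * i + 1) q) := by
  obtain ⟨m, l⟩ := q
  simp only at h
  unfold desc
  simp only
  obtain ⟨e, rfl⟩ : ∃ e, m = n + 1 + e := ⟨m - (n + 1), by omega⟩
  have e1 : n + 1 + e - n = e + 1 := by omega
  have e2 : n + 1 + e - (n + 1) = e := by omega
  rw [e1, e2, pow_succ, ← Nat.div_div_eq_div_mul]
  constructor
  · rintro ⟨_, h2⟩
    rcases Nat.mod_two_eq_zero_or_one (l / 2 ^ e) with h3 | h3
    · left; exact ⟨by omega, by omega⟩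
    · right; exact ⟨by omega, by omega⟩
  · rintro (⟨_, h2⟩ | ⟨_, h2⟩)
    · exact ⟨by omega, by omega⟩
    · exact ⟨by omega, by omega⟩

lemma desc_not_both (n i : ℕ) (q : ℕ × ℕ) (h1 : desc (n + 1) (2 * i) q)
    (h2 : desc (n + 1) (2 * i + 1) q) : False := by
  unfold desc at h1 h2
  omega

lemma not_desc_child_self (n i j : ℕ) (l : ℕ) : ¬ desc (n + 1) j (n, l) := by
  unfold desc
  simp

lemma desc_same_level (n i l : ℕ) : desc n i (n, l) ↔ l = i := by
  unfold desc
  simp

/-- pointwise decomposition -/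
lemma ite_desc (n i : ℕ) (q : ℕ × ℕ) (F : ℕ × ℕ → ℝ) :
    (if desc n i q then F q else 0) = (if q = (n, i) then F q else 0)
      + (if desc (n + 1) (2 * i) q then F q else 0)
      + (if desc (n + 1) (2 * i + 1) q then F q else 0) := by
  obtain ⟨m, l⟩ := q
  rcases lt_trichotomy n m with h | h | h
  · have h0 : ((m, l) : ℕ × ℕ) ≠ (n, i) := by
      intro h'; simp only [Prod.mk.injEq] at h'; omega
    have h1 := desc_child_iff n i (m, l) h
    by_cases h2 : desc (n + 1) (2 * i) (m, l)
    · have h3 : ¬ desc (n + 1) (2 * i + 1) (m, l) := fun h3 => desc_not_both n i _ h2 h3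
      have h4 : desc n i (m, l) := h1.mpr (Or.inl h2)
      simp [h0, h2, h3, h4]
    · by_cases h3 : desc (n + 1) (2 * i + 1) (m, l)
      · have h4 : desc n i (m, l) := h1.mpr (Or.inr h3)
        simp [h0, h2, h3, h4]
      · have h4 : ¬ desc n i (m, l) := by
          rw [h1]; rintro (h | h) <;> contradiction
        simp [h0, h2, h3, h4]
  · subst h
    have h2 := not_desc_child_self n i (2 * i) l
    have h3 := not_desc_child_self n i (2 * i + 1) l
    by_cases h4 : l = i
    · subst h4
      simp [desc_self, h2, h3]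
    · have h5 : ¬ desc n i (n, l) := by rw [desc_same_level]; exact h4
      have h6 : ((n, l) : ℕ × ℕ) ≠ (n, i) := by
        intro h'; simp only [Prod.mk.injEq] at h'; omega
      simp [h2, h3, h5, h6]
  · have h0 : ((m, l) : ℕ × ℕ) ≠ (n, i) := by
      intro h'; simp only [Prod.mk.injEq] at h'; omega
    have h1 : ¬ desc n i (m, l) := by unfold desc; simp only; omega
    have h2 : ¬ desc (n + 1) (2 * i) (m, l) := by unfold desc; simp only; omega
    have h3 : ¬ desc (n + 1) (2 * i + 1) (m, l) := by unfold desc; simp only; omega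
    simp [h0, h1, h2, h3]

section
variable (P : Finset (ℕ × ℕ))

/-- number of picks below `(n,i)` -/
def cnt (n i : ℕ) : ℕ := (P.filter (desc n i)).card

lemma sum_desc (n i : ℕ) (F : ℕ × ℕ → ℝ) :
    ∑ q ∈ P.filter (desc n i), F q = (if (n, i) ∈ P then F (n, i) else 0)
      + ∑ q ∈ P.filter (desc (n + 1) (2 * i)), F q
      + ∑ q ∈ P.filter (desc (n + 1) (2 * i + 1)), F q := by
  rw [Finset.sum_filter, Finset.sum_filter, Finset.sum_filter,
    Finset.sum_congr rfl (fun q _ => ite_desc n i q F), Finset.sum_add_distrib,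
    Finset.sum_add_distrib]
  congr 2
  rw [Finset.sum_ite_eq']

lemma cnt_split (n i : ℕ) :
    (cnt P n i : ℝ) = (if (n, i) ∈ P then 1 else 0) + cnt P (n + 1) (2 * i)
      + cnt P (n + 1) (2 * i + 1) := by
  have := sum_desc P n i (fun _ => (1:ℝ))
  simpa [cnt] using this

/-- weights of the tree generated by the picks -/
noncomputable def yy (θ : ℝ) : ℕ → ℕ → ℕ → ℝ
  | 0, _, _ => 1
  | d + 1, n, i => if cnt P n i = 0 then 1
      else θ * (yy θ d (n + 1) (2 * i) + yy θ d (n + 1) (2 * i + 1))

lemma yy_of_cnt_zero (θ : ℝ) (d n i : ℕ) (h : cnt P n i = 0) : yy P θ d n i = 1 := by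
  cases d with
  | zero => rfl
  | succ d => simp [yy, h]

lemma yy_pos {θ : ℝ} (hθ : 0 < θ) (d n i : ℕ) : 0 < yy P θ d n i := by
  induction d generalizing n i with
  | zero => simp [yy]
  | succ d ih =>
    unfold yy
    split_ifs
    · exact one_pos
    · have h1 := ih (n + 1) (2 * i)
      have h2 := ih (n + 1) (2 * i + 1)
      positivity

lemma cnt_zero_of_level (N : ℕ) (hN : ∀ q ∈ P, q.1 < N) (n i : ℕ) (h : N ≤ n) :
    cnt P n i = 0 := by
  unfold cnt
  rw [Finset.card_eq_zero, Finset.filter_eq_empty_iff]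
  intro q hq hd
  have := hN q hq
  have := hd.1
  omega

lemma yy_bound {θ : ℝ} (w : ℕ → ℕ → ℝ) (K : ℝ)
    (hw : ∀ n i, w n i ≤ w (n + 1) (2 * i) + w (n + 1) (2 * i + 1))
    (N : ℕ) (hN : ∀ q ∈ P, q.1 < N)
    (h0 : ∀ n i, i < 2 ^ n → cnt P n i = 0 → w n i ≤ K * θ ^ n) :
    ∀ d n i, n + d = N → i < 2 ^ n → w n i ≤ K * θ ^ n * yy P θ d n i := by
  intro d
  induction d with
  | zero =>
    intro n i hn hi
    have := h0 n i hi (cnt_zero_of_level P N hN n i (by omega))
    simpa [yy] using this
  | succ d ih =>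
    intro n i hn hi
    by_cases hc : cnt P n i = 0
    · rw [yy_of_cnt_zero P θ _ n i hc, mul_one]
      exact h0 n i hi hc
    · have h1 := ih (n + 1) (2 * i) (by omega) (by rw [pow_succ]; omega)
      have h2 := ih (n + 1) (2 * i + 1) (by omega) (by rw [pow_succ]; omega)
      have h3 := hw n i
      unfold yy
      simp only [hc, if_false]
      rw [pow_succ] at h1 h2
      calc w n i ≤ _ := h3
        _ ≤ K * (θ ^ n * θ) * yy P θ d (n + 1) (2 * i)
            + K * (θ ^ n * θ) * yy P θ d (n + 1) (2 * i + 1) := add_le_add h1 h2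
        _ = _ := by ring

/-- Main counting estimate for the weights. -/
lemma yy_sum {θ : ℝ} (hθ : 0 < θ) (hθ1 : θ < 1) (N : ℕ) (hN : ∀ q ∈ P, q.1 < N) :
    ∀ d n i, n + d = N → cnt P n i ≠ 0 →
      ∑ q ∈ P.filter (desc n i), yy P θ (N - q.1) q.1 q.2
        + (θ / (1 - θ)) * max (yy P θ d n i) (θ / (1 - θ))
        ≤ ((θ / (1 - θ)) + 1) * ((θ / (1 - θ)) + 2) * cnt P n i := by
  intro d
  induction d with
  | zero =>
    intro n i hn hc
    exact absurd (cnt_zero_of_level P N hN n i (by omega)) hc
  | succ d ih =>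
    intro n i hn hc
    have hθ' : 0 < 1 - θ := by linarith
    set A := θ / (1 - θ) with hA
    have hA0 : 0 < A := div_pos hθ hθ'
    have hA1 : A * (1 - θ) = θ := by rw [hA]; field_simp
    have hA2 : (A + 1) * θ = A := by linarith
    rw [sum_desc P n i, cnt_split P n i]
    have hNd : N - n = d + 1 := by omega
    simp only [hNd]
    have hYdef : yy P θ (d + 1) n i
        = θ * (yy P θ d (n + 1) (2 * i) + yy P θ d (n + 1) (2 * i + 1)) := by
      conv_lhs => unfold yy
      simp [hc]
    set Y := yy P θ (d + 1) n i with hY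
    set yl := yy P θ d (n + 1) (2 * i) with hyl
    set yr := yy P θ d (n + 1) (2 * i + 1) with hyr
    have hylpos : 0 < yl := yy_pos P hθ _ _ _
    have hyrpos : 0 < yr := yy_pos P hθ _ _ _
    have hYpos : 0 < Y := yy_pos P hθ _ _ _
    have hcs := cnt_split P n i
    have key : ∀ B : ℝ, 0 ≤ B → Y ≤ θ * (B + 1) → A ≤ B →
        Y + A * max Y A ≤ A * B + (A + 1) * (A + 2) ∧ max Y A ≤ B := by
      intro B hB h1 h2
      have h3 : θ * (B + 1) ≤ B := by nlinarith
      refine ⟨?_, max_le (by linarith) h2⟩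
      rcases le_total Y A with h | h
      · rw [max_eq_right h]
        nlinarith
      · rw [max_eq_left h]
        have : (A + 1) * Y ≤ (A + 1) * (θ * (B + 1)) := mul_le_mul_of_nonneg_left h1 (by linarith)
        have e : (A + 1) * (θ * (B + 1)) = A * (B + 1) := by rw [← mul_assoc, hA2]
        nlinarith
    have key2 : ∀ B : ℝ, 0 ≤ B → Y ≤ θ * B → A ≤ B →
        Y + A * max Y A ≤ A * B + (A + 1) * (A + 2) ∧ max Y A ≤ B := by
      intro B hB h1 h2
      exact key B hB (by nlinarith) h2
    by_cases hl : cnt P (n + 1) (2 * i) = 0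
    · have hl1 : yl = 1 := yy_of_cnt_zero P θ _ _ _ hl
      have hl2 : P.filter (desc (n + 1) (2 * i)) = ∅ := Finset.card_eq_zero.mp hl
      by_cases hr : cnt P (n + 1) (2 * i + 1) = 0
      · have hr1 : yr = 1 := yy_of_cnt_zero P θ _ _ _ hr
        have hr2 : P.filter (desc (n + 1) (2 * i + 1)) = ∅ := Finset.card_eq_zero.mp hr
        rw [hl, hr] at hcs
        by_cases hp : (n, i) ∈ P
        · simp only [hp, if_true, hl2, hr2, hl, hr, Finset.sum_empty]
          rw [hl1, hr1] at hYdef
          have hY2 : Y ≤ 2 := by rw [hYdef]; linarith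
          have hmax : max Y A ≤ 2 + A := max_le (by linarith) (by linarith)
          have := mul_le_mul_of_nonneg_left hmax hA0.le
          push_cast
          nlinarith
        · simp only [hp, if_false] at hcs
          push_cast at hcs
          exfalso
          apply hc
          have : (cnt P n i : ℝ) = 0 := by linarith
          exact_mod_cast this
      · have ihr := ih (n + 1) (2 * i + 1) (by omega) hr
        have hMr : A ≤ max yr A := le_max_right _ _
        have hYM : Y ≤ θ * (max yr A + 1) := by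
          rw [hYdef, hl1]
          have : yr ≤ max yr A := le_max_left _ _
          nlinarith
        obtain ⟨k1, k2⟩ := key (max yr A) (by positivity) hYM hMr
        simp only [hl2, hl, Finset.sum_empty]
        by_cases hp : (n, i) ∈ P
        · simp only [hp, if_true]
          push_cast
          nlinarith
        · simp only [hp, if_false]
          push_cast
          have := mul_le_mul_of_nonneg_left k2 hA0.le
          nlinarith
    · have ihl := ih (n + 1) (2 * i) (by omega) hl
      by_cases hr : cnt P (n + 1) (2 * i + 1) = 0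
      · have hr1 : yr = 1 := yy_of_cnt_zero P θ _ _ _ hr
        have hr2 : P.filter (desc (n + 1) (2 * i + 1)) = ∅ := Finset.card_eq_zero.mp hr
        have hMl : A ≤ max yl A := le_max_right _ _
        have hYM : Y ≤ θ * (max yl A + 1) := by
          rw [hYdef, hr1]
          have : yl ≤ max yl A := le_max_left _ _
          nlinarith
        obtain ⟨k1, k2⟩ := key (max yl A) (by positivity) hYM hMl
        simp only [hr2, hr, Finset.sum_empty]
        by_cases hp : (n, i) ∈ P
        · simp only [hp, if_true]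
          push_cast
          nlinarith
        · simp only [hp, if_false]
          push_cast
          have := mul_le_mul_of_nonneg_left k2 hA0.le
          nlinarith
      · have ihr := ih (n + 1) (2 * i + 1) (by omega) hr
        have hMl : A ≤ max yl A := le_max_right _ _
        have hMr : A ≤ max yr A := le_max_right _ _
        have hYM : Y ≤ θ * (max yl A + max yr A) := by
          rw [hYdef]
          have h1 : yl ≤ max yl A := le_max_left _ _
          have h2 : yr ≤ max yr A := le_max_left _ _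
          nlinarith
        obtain ⟨k1, k2⟩ := key2 (max yl A + max yr A) (by positivity) hYM (by linarith)
        by_cases hp : (n, i) ∈ P
        · simp only [hp, if_true]
          nlinarith
        · simp only [hp, if_false]
          have := mul_le_mul_of_nonneg_left k2 hA0.le
          nlinarith

/-- constant in the counting estimate -/
noncomputable def Ctree (θ : ℝ) : ℝ := ((θ / (1 - θ)) + 1) * ((θ / (1 - θ)) + 2)

lemma Ctree_pos {θ : ℝ} (hθ : 0 < θ) (hθ1 : θ < 1) : 0 < Ctree θ := by
  unfold Ctree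
  have : 0 < θ / (1 - θ) := div_pos hθ (by linarith)
  positivity

lemma yy_total {θ : ℝ} (hθ : 0 < θ) (hθ1 : θ < 1) (N : ℕ) (hN : ∀ q ∈ P, q.1 < N)
    (hP : ∀ q ∈ P, q.2 < 2 ^ q.1) :
    ∑ q ∈ P, yy P θ (N - q.1) q.1 q.2 ≤ Ctree θ * P.card := by
  have hfil : P.filter (desc 0 0) = P := by
    rw [Finset.filter_eq_self]
    intro q hq
    exact desc_root (hP q hq)
  by_cases hc : cnt P 0 0 = 0
  · unfold cnt at hc
    rw [hfil, Finset.card_eq_zero] at hc
    subst hc
    simp
  · have h := yy_sum P hθ hθ1 N hN N 0 0 (by omega) hc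
    have hcard : (cnt P 0 0 : ℝ) = P.card := by unfold cnt; rw [hfil]
    rw [hfil, hcard] at h
    have hA0 : 0 < θ / (1 - θ) := div_pos hθ (by linarith)
    have : 0 ≤ (θ / (1 - θ)) * max (yy P θ N 0 0) (θ / (1 - θ)) := by positivity
    unfold Ctree
    linarith

end

/-- geometric domination -/
lemma geom_dom {b : ℝ} (hb : 1 < b) (s : Finset ℕ) {y : ℝ} (hy : 0 ≤ y)
    (h : ∀ n ∈ s, b ^ n ≤ y) : ∑ n ∈ s, b ^ n ≤ b / (b - 1) * y := by
  have hb1 : 0 < b - 1 := by linarith
  rcases s.eq_empty_or_nonempty with rfl | hne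
  · simp; positivity
  · set m := s.max' hne with hm
    have hms : m ∈ s := Finset.max'_mem s hne
    have h1 : s ⊆ Finset.range (m + 1) := by
      intro n hn
      rw [Finset.mem_range]
      exact Nat.lt_succ_of_le (Finset.le_max' s n hn)
    calc ∑ n ∈ s, b ^ n ≤ ∑ n ∈ Finset.range (m + 1), b ^ n :=
          Finset.sum_le_sum_of_subset_of_nonneg h1 (fun _ _ _ => by positivity)
      _ = (b ^ (m + 1) - 1) / (b - 1) := geom_sum_eq (by linarith) _
      _ ≤ b ^ (m + 1) / (b - 1) := by
          apply div_le_div_of_nonneg_right _ hb1.le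
          linarith
      _ = b / (b - 1) * b ^ m := by rw [pow_succ]; ring
      _ ≤ b / (b - 1) * y := mul_le_mul_of_nonneg_left (h m hms) (by positivity)

end Pool.Agent.H71.Haar
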