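import Pool.Agent.H71.Haar.Coef

/-! The core counting lemma for the WCGA. -/

open MeasureTheory Set
open scoped ENNReal

set_option linter.unusedSectionVars false

namespace Pool.Agent.H71.Haar

section
variable {p : ℝ} [Fact (1 ≤ ENNReal.ofReal p)]

lemma WW_le (hp : 2 < p) (f g : LpUnit p) (n k : ℕ) :
    WW f n k ≤ 2 ^ (p - 2) * (WW g n k + DW f g n k) := by
  unfold WW DW
  rw [← integral_add (int_pm2 hp g).integrableOn (int_diff_pm2 hp f g).integrableOn,
    ← integral_const_mul]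
  apply setIntegral_mono (int_pm2 hp f).integrableOn
  · exact (((int_pm2 hp g).add (int_diff_pm2 hp f g)).const_mul _).integrableOn
  · intro x
    have h1 : |f x| ≤ |g x| + |f x - g x| := by
      calc |f x| = |g x + (f x - g x)| := by ring_nf
        _ ≤ _ := abs_add_le _ _
    calc |f x| ^ (p - 2) ≤ (|g x| + |f x - g x|) ^ (p - 2) :=
          Real.rpow_le_rpow (abs_nonneg _) h1 (by linarith)
      _ ≤ 2 ^ (p - 2) * (|g x| ^ (p - 2) + |f x - g x| ^ (p - 2)) :=
          rpow_add_le_aux (by linarith) (abs_nonneg _) (abs_nonneg _)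

lemma DW_nonneg (f g : LpUnit p) (n k : ℕ) : 0 ≤ DW f g n k :=
  integral_nonneg (fun x => by positivity)

lemma WW_nonneg (f : LpUnit p) (n k : ℕ) : 0 ≤ WW f n k :=
  integral_nonneg (fun x => by positivity)

/-- displacement constant -/
noncomputable def Kp' (p : ℝ) : ℝ := 1 + 2 ^ p * 6 ^ 2

lemma sum_half_le (A : Finset ℕ) : ∑ a ∈ A, (1 / 2 : ℝ) ^ a ≤ 2 := by
  calc ∑ a ∈ A, (1 / 2 : ℝ) ^ a ≤ ∑' a : ℕ, (1 / 2 : ℝ) ^ a :=
        summable_geometric_two.sum_le_tsum _ (fun _ _ => by positivity)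
    _ = 2 := tsum_geometric_two

lemma sum_Ico_telescope (F : ℕ → ℝ) {k0 k1 : ℕ} (h : k0 ≤ k1) :
    ∑ k ∈ Finset.Ico k0 k1, (F k - F (k + 1)) = F k0 - F k1 := by
  induction k1, h using Nat.le_induction with
  | base => simp
  | succ n hn ih => rw [Finset.sum_Ico_succ_top hn, ih]; ring

/-- The core lemma: number of steps with large signals. -/
theorem core (hp : 2 < p) {t : ℝ} (ht0 : 0 < t) (ht1 : t ≤ 1) :
    ∃ C : ℝ, 0 < C ∧ ∀ (f : ℕ → LpUnit p) (φ : ℕ → HaarIndex) (σ : ℕ → ℝ) (k0 k1 : ℕ) (σ0 : ℝ),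
      k0 ≤ k1 → 0 < σ0 →
      (∀ k, k0 ≤ k → k < k1 → σ0 ≤ σ k) →
      (∀ k, k0 ≤ k → k < k1 → ∀ i, |pair (f k) (haar p i)| ≤ (σ k) ^ (p - 1)) →
      (∀ k, k0 ≤ k → k < k1 → t * (σ k) ^ (p - 1) ≤ |pair (f k) (haar p (φ k))|) →
      (∀ k, k0 ≤ k → k < k1 → ∀ c : ℝ, ‖f (k + 1)‖ ^ p ≤ ‖f k - c • haar p (φ k)‖ ^ p) →
      (∀ k, k0 ≤ k → k < k1 → ∀ j < k, pair (f k) (haar p (φ j)) = 0) →
      (∀ k k', k0 ≤ k → k < k1 → k0 ≤ k' → k' < k1 →
        f k - f k' ∈ Submodule.span ℝ (haar p '' {i | ∃ j < k1, φ j = i})) →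
      ((k1 - k0 : ℕ) : ℝ) * σ0 ^ p ≤ 2 * σ0 ^ p + C * ‖f k0‖ ^ p := by
  classical
  set θ := rr p ^ 2 with hθdef
  have hr := rr_pos p
  have hθ0 : 0 < θ := by positivity
  have hθ1 : θ < 1 := by
    have := rr_lt_one hp
    rw [hθdef]; nlinarith
  have hCt := Ctree_pos hθ0 hθ1
  have hKw := Kw_pos hp
  have hCsm := Csm_pos hp
  set D1 : ℝ := 2 ^ (p - 2) with hD1
  have hD1pos : 1 ≤ D1 := Real.one_le_rpow (by norm_num) (by linarith)
  set K' : ℝ := Kp' p with hK'
  have hK'pos : 1 ≤ K' := by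
    rw [hK', Kp']
    have : (0:ℝ) < 2 ^ p := by positivity
    linarith
  set M : ℝ := 2 * K' * D1 ^ 2 with hM
  have hMpos : 0 < M := by positivity
  set W : ℝ := 4 * D1 + 4 * M * Ctree θ + 1 with hW
  have hWpos : 1 ≤ W := by
    have : 0 < 4 * M * Ctree θ := by positivity
    rw [hW]; linarith
  have hW1 : 4 * D1 ≤ W := by
    have : 0 < 4 * M * Ctree θ := by positivity
    rw [hW]; linarith
  have hW2 : 4 * (M * Ctree θ) ≤ W := by
    rw [hW]; linarith
  refine ⟨4 * Csm p * W / t ^ 2 + 4 * Kw p, by positivity, ?_⟩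
  intro f φ σ k0 k1 σ0 hk01 hσ0 hσ hS hpick hdec horth hspan
  set T := Finset.Ico k0 k1 with hT
  have hTcard : T.card = k1 - k0 := by simp [hT]
  have hmemT : ∀ k, k ∈ T ↔ k0 ≤ k ∧ k < k1 := by intro k; simp [hT]
  have hσ0p : 0 < σ0 ^ p := Real.rpow_pos_of_pos hσ0 _
  -- injectivity of the choices
  have hne : ∀ j k, j < k → k0 ≤ k → k < k1 → φ j ≠ φ k := by
    intro j k hjk hk hk' h
    have h1 := horth k hk hk' j hjk
    have h2 := hpick k hk hk'
    rw [← h, h1, abs_zero] at h2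
    have h3 : 0 < (σ k) ^ (p - 1) := Real.rpow_pos_of_pos (lt_of_lt_of_le hσ0 (hσ k hk hk')) _
    nlinarith
  have hinj : ∀ j ∈ T, ∀ k ∈ T, φ j = φ k → j = k := by
    intro j hj k hk h
    rw [hmemT] at hj hk
    rcases lt_trichotomy j k with h1 | h1 | h1
    · exact absurd h (hne j k h1 hk.1 hk.2)
    · exact h1
    · exact absurd h.symm (hne k j h1 hj.1 hj.2)
  -- the picks as nodes
  set T' := T.filter (fun k => φ k ≠ .one) with hT'
  set P := T'.image (fun k => toPair (φ k)) with hP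
  have hinj' : Set.InjOn (fun k => toPair (φ k)) (T' : Set ℕ) := by
    intro j hj k hk h
    simp only [hT', Finset.coe_filter, Set.mem_ofPred_eq] at hj hk
    apply hinj j hj.1 k hk.1
    have hj2 := hj.2
    have hk2 := hk.2
    simp only at h
    revert h hj2 hk2
    cases φ j with
    | one => intro _ h; exact absurd rfl h
    | node n a =>
      cases φ k with
      | one => intro _ _ h; exact absurd rfl h
      | node m b => intro h _ _; exact toPair_node_inj h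
  have hPlt : ∀ q ∈ P, q.2 < 2 ^ q.1 := by
    intro q hq
    rw [hP, Finset.mem_image] at hq
    obtain ⟨k, hk, rfl⟩ := hq
    cases φ k with
    | one => simp [toPair]
    | node n k => exact k.2
  obtain ⟨N, hN⟩ : ∃ N, ∀ q ∈ P, q.1 < N := by
    refine ⟨P.sup (fun q => q.1) + 1, fun q hq => ?_⟩
    exact Nat.lt_succ_of_le (Finset.le_sup (f := fun q : ℕ × ℕ => q.1) hq)
  have hPcard : (P.card : ℝ) ≤ T.card := by
    have h1 : P.card ≤ T'.card := Finset.card_image_le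
    have h2 : T'.card ≤ T.card := Finset.card_filter_le _ _
    exact_mod_cast h1.trans h2
  -- norms decrease
  have hmono : ∀ k ∈ T, ‖f (k + 1)‖ ^ p ≤ ‖f k‖ ^ p := by
    intro k hk
    rw [hmemT] at hk
    have := hdec k hk.1 hk.2 0
    simpa using this
  have hmono' : ∀ k, k0 ≤ k → k ≤ k1 → ‖f k‖ ^ p ≤ ‖f k0‖ ^ p := by
    intro k hk
    induction k, hk using Nat.le_induction with
    | base => intro _; exact le_rfl
    | succ n hn ih =>
      intro h
      exact (hmono n ((hmemT n).mpr ⟨hn, by omega⟩)).trans (ih (by omega))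
  -- classes
  have hcl : ∀ k, ∃ a : ℕ, k ∈ T → 2 ^ a * σ0 ≤ σ k ∧ σ k < 2 ^ (a + 1) * σ0 := by
    intro k
    by_cases hk : k ∈ T
    · have hk' := (hmemT k).mp hk
      have h1 : 1 ≤ σ k / σ0 := by rw [one_le_div hσ0]; exact hσ k hk'.1 hk'.2
      obtain ⟨a, ha1, ha2⟩ := exists_nat_pow_near h1 (by norm_num : (1:ℝ) < 2)
      refine ⟨a, fun _ => ⟨?_, ?_⟩⟩
      · rwa [le_div_iff₀ hσ0] at ha1
      · rwa [div_lt_iff₀ hσ0] at ha2
    · exact ⟨0, fun h => absurd h hk⟩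
  choose cl hcl using hcl
  set A := T.image cl with hA
  -- reference times
  have href : ∀ a : ℕ, ∃ κ : ℕ, a ∈ A → κ ∈ T ∧ cl κ = a := by
    intro a
    by_cases ha : a ∈ A
    · rw [hA, Finset.mem_image] at ha
      obtain ⟨κ, h1, h2⟩ := ha
      exact ⟨κ, fun _ => ⟨h1, h2⟩⟩
    · exact ⟨0, fun h => absurd h ha⟩
  choose κ hκ using href
  -- displacement estimate on pick-free intervals
  have hdisp : ∀ (a : ℕ) (k k' : ℕ), k ∈ T → k' ∈ T → cl k = a → cl k' = a →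
      ∀ n i, i < 2 ^ n → cnt P n i = 0 →
        DW (f k) (f k') n i ≤ (K' * (2 ^ (a + 1) * σ0) ^ (p - 2)) * θ ^ n := by
    intro a k k' hk hk' hka hka' n i hi hc
    have hkT := (hmemT k).mp hk
    have hkT' := (hmemT k').mp hk'
    have hck := hcl k hk
    have hck' := hcl k' hk'
    rw [hka] at hck
    rw [hka'] at hck'
    set σs := 2 ^ (a + 1) * σ0 with hσs
    have hσs0 : 0 < σs := by positivity
    have hV1 := VV_bound hp (f k) (S := σs ^ (p - 1)) (fun j => (hS k hkT.1 hkT.2 j).trans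
      (Real.rpow_le_rpow (le_trans hσ0.le (hσ k hkT.1 hkT.2)) hck.2.le (by linarith))) n i hi
    have hV2 := VV_bound hp (f k') (S := σs ^ (p - 1)) (fun j => (hS k' hkT'.1 hkT'.2 j).trans
      (Real.rpow_le_rpow (le_trans hσ0.le (hσ k' hkT'.1 hkT'.2)) hck'.2.le (by linarith))) n i hi
    have hV : |VV (f k) n i - VV (f k') n i| ≤ 6 * σs ^ (p - 1) * rr p ^ n := by
      refine (abs_sub _ _).trans ?_
      linarith
    have hH : HID (f k) (f k') (f k - f k') n i := by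
      apply HID_span (f k) (f k') hp hi {i | ∃ j < k1, φ j = i} _ _
        (hspan k k' hkT.1 hkT.2 hkT'.1 hkT'.2)
      rintro _ ⟨j, hj, rfl⟩ m l hjl hd
      have hjk0 : j < k0 := by
        by_contra hcon
        push Not at hcon
        have hjT : j ∈ T := (hmemT j).mpr ⟨hcon, hj⟩
        have hjT' : j ∈ T' := by
          rw [hT', Finset.mem_filter]
          refine ⟨hjT, ?_⟩
          rw [hjl]; simp
        have hqP : ((m, (l : ℕ)) : ℕ × ℕ) ∈ P := by
          rw [hP, Finset.mem_image]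
          exact ⟨j, hjT', by rw [hjl]; rfl⟩
        unfold cnt at hc
        rw [Finset.card_eq_zero, Finset.filter_eq_empty_iff] at hc
        exact hc hqP hd
      exact ⟨horth k hkT.1 hkT.2 j (by omega), horth k' hkT'.1 hkT'.2 j (by omega)⟩
    have hE := displacement hp (f k) (f k') hi hσs0 (by norm_num : (1:ℝ) ≤ 6) hV
      (HID_diff (f k) (f k') hH)
    have hD := displacement_weight hp (f k) (f k') hi hσs0 hE
    rw [hK']
    unfold Kp'
    exact hD
  -- the bad sets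
  set G := T.filter (fun k => wsq (f k) (haar p (φ k)) ≤ W * 2 ^ (cl k) * (σ k) ^ (p - 2)) with hG
  set One := T.filter (fun k => φ k = .one) with hOne
  set B1 : ℕ → Finset ℕ := fun a => T'.filter (fun k => cl k = a ∧
    2 * (2 ^ a * σ0) ^ (p - 2) * (rr p ^ (toPair (φ k)).1) ^ 2
      ≤ WW (f (κ a)) (toPair (φ k)).1 (toPair (φ k)).2) with hB1
  set B2 : ℕ → Finset ℕ := fun a => T'.filter (fun k => cl k = a ∧
    W * 2 ^ a ≤ M * yy P θ (N - (toPair (φ k)).1) (toPair (φ k)).1 (toPair (φ k)).2) with hB2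
  -- covering
  have hcover : T ⊆ One ∪ G ∪ A.biUnion (fun a => B1 a ∪ B2 a) := by
    intro k hk
    have hkT := (hmemT k).mp hk
    rw [Finset.mem_union, Finset.mem_union]
    by_cases h1 : φ k = .one
    · left; left; rw [hOne, Finset.mem_filter]; exact ⟨hk, h1⟩
    by_cases h2 : wsq (f k) (haar p (φ k)) ≤ W * 2 ^ (cl k) * (σ k) ^ (p - 2)
    · left; right; rw [hG, Finset.mem_filter]; exact ⟨hk, h2⟩
    right
    rw [Finset.mem_biUnion]
    set a := cl k with ha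
    have haA : a ∈ A := by rw [hA, Finset.mem_image]; exact ⟨k, hk, rfl⟩
    obtain ⟨hκT, hκa⟩ := hκ a haA
    refine ⟨a, haA, ?_⟩
    rw [Finset.mem_union]
    by_contra hcon
    push Not at hcon
    obtain ⟨hc1, hc2⟩ := hcon
    have hkT' : k ∈ T' := by rw [hT', Finset.mem_filter]; exact ⟨hk, h1⟩
    simp only [hB1, hB2, Finset.mem_filter, not_and, not_le] at hc1 hc2
    have hc1' := hc1 hkT' rfl
    have hc2' := hc2 hkT' rfl
    push Not at h2
    -- extract the node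
    obtain ⟨n, i, hφ⟩ : ∃ (n : ℕ) (i : Fin (2 ^ n)), φ k = .node n i := by
      revert h1
      cases φ k with
      | one => intro h; exact absurd rfl h
      | node n i => intro _; exact ⟨n, i, rfl⟩
    rw [hφ] at hc1' hc2' h2
    simp only [toPair] at hc1' hc2'
    rw [wsq_node] at h2
    have hrn := rr_pow_pos p n
    have hck := hcl k hk
    rw [← ha] at hck
    have hσk : 0 < σ k := lt_of_lt_of_le hσ0 (hσ k hkT.1 hkT.2)
    have hθn : θ ^ n = (rr p ^ n) ^ 2 := by rw [hθdef, ← pow_mul, ← pow_mul, mul_comm]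
    have hs0 : 0 < (σ k) ^ (p - 2) := Real.rpow_pos_of_pos hσk _
    -- WW bound
    have h3 := WW_le hp (f k) (f (κ a)) n i
    have h4 : DW (f k) (f (κ a)) n i
        ≤ (K' * (2 ^ (a + 1) * σ0) ^ (p - 2)) * θ ^ n * yy P θ (N - n) n i := by
      have hnN : n < N := by
        apply hN (n, (i:ℕ))
        rw [hP, Finset.mem_image]
        exact ⟨k, hkT', by rw [hφ]; rfl⟩
      apply yy_bound P (fun n i => DW (f k) (f (κ a)) n i) (K' * (2 ^ (a + 1) * σ0) ^ (p - 2))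
        (fun n i => (DW_split hp (f k) (f (κ a)) n i).le) N hN
        (fun n i hi hc => hdisp a k (κ a) hk hκT rfl hκa n i hi hc) (N - n) n i (by omega) i.2
    have h5 : (2 ^ (a + 1) * σ0) ^ (p - 2) ≤ D1 * (σ k) ^ (p - 2) := by
      have : 2 ^ (a + 1) * σ0 ≤ 2 * σ k := by rw [pow_succ]; linarith [hck.1]
      calc (2 ^ (a + 1) * σ0) ^ (p - 2) ≤ (2 * σ k) ^ (p - 2) :=
            Real.rpow_le_rpow (by positivity) this (by linarith)
        _ = D1 * (σ k) ^ (p - 2) := by rw [Real.mul_rpow (by norm_num) hσk.le]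
    have h6 : (2 ^ a * σ0) ^ (p - 2) ≤ (σ k) ^ (p - 2) :=
      Real.rpow_le_rpow (by positivity) hck.1 (by linarith)
    have hy := yy_pos P hθ0 (N - n) n (i:ℕ)
    set Y := yy P θ (N - n) n (i:ℕ) with hY
    -- combine
    have h7 : W * 2 ^ a * (σ k) ^ (p - 2) * θ ^ n < WW (f k) n i := by
      rw [hθn]
      rw [inv_pow, ← div_eq_inv_mul, lt_div_iff₀ (by positivity)] at h2
      exact h2
    have hθnpos : 0 < θ ^ n := by positivity
    have h8 : WW (f (κ a)) n i ≤ 2 * (σ k) ^ (p - 2) * θ ^ n := by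
      rw [hθn]
      have := mul_le_mul_of_nonneg_right (mul_le_mul_of_nonneg_left h6 (by norm_num : (0:ℝ) ≤ 2))
        (by positivity : 0 ≤ (rr p ^ n) ^ 2)
      linarith
    have h9 : DW (f k) (f (κ a)) n i ≤ K' * (D1 * (σ k) ^ (p - 2)) * θ ^ n * Y := by
      refine h4.trans ?_
      apply mul_le_mul_of_nonneg_right _ hy.le
      apply mul_le_mul_of_nonneg_right _ hθnpos.le
      exact mul_le_mul_of_nonneg_left h5 (by linarith)
    have h10 : W * 2 ^ a * ((σ k) ^ (p - 2) * θ ^ n)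
        < D1 * (2 + K' * D1 * Y) * ((σ k) ^ (p - 2) * θ ^ n) := by
      have h11 : 2 ^ (p - 2) * (WW (f (κ a)) n i + DW (f k) (f (κ a)) n i)
          ≤ D1 * (2 * (σ k) ^ (p - 2) * θ ^ n + K' * (D1 * (σ k) ^ (p - 2)) * θ ^ n * Y) :=
        mul_le_mul_of_nonneg_left (add_le_add h8 h9) (by linarith)
      calc W * 2 ^ a * ((σ k) ^ (p - 2) * θ ^ n) = W * 2 ^ a * (σ k) ^ (p - 2) * θ ^ n := by ring
        _ < _ := h7
        _ ≤ _ := h3
        _ ≤ _ := h11
        _ = _ := by ring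
    have h12 : W * 2 ^ a < D1 * (2 + K' * D1 * Y) := lt_of_mul_lt_mul_right h10 (by positivity)
    have h2a : (1:ℝ) ≤ 2 ^ a := one_le_pow₀ (by norm_num)
    have h13 : W ≤ W * 2 ^ a := by nlinarith
    -- W 2^a < 2 D1 + K' D1^2 Y ≤ W 2^a / 2 + K' D1^2 Y
    rw [hM] at hc2'
    have e1 : D1 * (2 + K' * D1 * Y) = 2 * D1 + K' * D1 ^ 2 * Y := by ring
    have e2 : 2 * K' * D1 ^ 2 * Y = 2 * (K' * D1 ^ 2 * Y) := by ring
    rw [e1] at h12
    rw [e2] at hc2'
    linarith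
  -- cardinalities
  have hOnecard : (One.card : ℝ) ≤ 1 := by
    have : One.card ≤ 1 := by
      rw [Finset.card_le_one]
      intro j hj k hk
      rw [hOne, Finset.mem_filter] at hj hk
      exact hinj j hj.1 k hk.1 (by rw [hj.2, hk.2])
    exact_mod_cast this
  have hGcard : (G.card : ℝ) * (t ^ 2 * σ0 ^ p / (2 * Csm p * W)) ≤ ‖f k0‖ ^ p := by
    have h1 : ∀ k ∈ G, t ^ 2 * σ0 ^ p / (2 * Csm p * W) ≤ ‖f k‖ ^ p - ‖f (k + 1)‖ ^ p := by
      intro k hk
      rw [hG, Finset.mem_filter] at hk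
      obtain ⟨hkT, hkw⟩ := hk
      have hkT2 := (hmemT k).mp hkT
      have hck := hcl k hkT
      have hσk : 0 < σ k := lt_of_lt_of_le hσ0 (hσ k hkT2.1 hkT2.2)
      have h2a : (1:ℝ) ≤ 2 ^ (cl k) := one_le_pow₀ (by norm_num)
      obtain ⟨c, hc⟩ := progress hp (f k) (haar p (φ k)) (norm_haar hp _) ht0 ht1 hσk
        (A := W * 2 ^ (cl k)) (by nlinarith) (hpick k hkT2.1 hkT2.2) hkw
      have h3 := hdec k hkT2.1 hkT2.2 c
      have h4 : t ^ 2 * σ0 ^ p / (2 * Csm p * W) ≤ t ^ 2 * σ k ^ p / (2 * Csm p * (W * 2 ^ (cl k))) := by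
        have h5 : 2 ^ (cl k) * σ0 ^ p ≤ σ k ^ p := by
          calc 2 ^ (cl k) * σ0 ^ p ≤ (2 ^ (cl k)) ^ p * σ0 ^ p := by
                apply mul_le_mul_of_nonneg_right _ hσ0p.le
                conv_lhs => rw [← Real.rpow_one ((2:ℝ) ^ (cl k))]
                exact Real.rpow_le_rpow_of_exponent_le h2a (by linarith)
            _ = (2 ^ (cl k) * σ0) ^ p := by rw [Real.mul_rpow (by positivity) hσ0.le]
            _ ≤ σ k ^ p := Real.rpow_le_rpow (by positivity) hck.1 (by linarith)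
        rw [div_le_div_iff₀ (by positivity) (by positivity)]
        have h6 : 0 ≤ t ^ 2 * (2 * Csm p * W) := by positivity
        have h7 := mul_le_mul_of_nonneg_left h5 h6
        linarith [h7]
      linarith
    calc (G.card : ℝ) * (t ^ 2 * σ0 ^ p / (2 * Csm p * W))
        = ∑ k ∈ G, t ^ 2 * σ0 ^ p / (2 * Csm p * W) := by rw [Finset.sum_const, nsmul_eq_mul]
      _ ≤ ∑ k ∈ G, (‖f k‖ ^ p - ‖f (k + 1)‖ ^ p) := Finset.sum_le_sum h1
      _ ≤ ∑ k ∈ T, (‖f k‖ ^ p - ‖f (k + 1)‖ ^ p) := by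
          apply Finset.sum_le_sum_of_subset_of_nonneg
          · rw [hG]; exact Finset.filter_subset _ _
          · intro k hk _
            have := hmono k hk
            linarith
      _ = ‖f k0‖ ^ p - ‖f k1‖ ^ p := sum_Ico_telescope (fun k => ‖f k‖ ^ p) hk01
      _ ≤ ‖f k0‖ ^ p := by
          have : 0 ≤ ‖f k1‖ ^ p := by positivity
          linarith
  have hB1card : ∀ a ∈ A, ((B1 a).card : ℝ) * σ0 ^ p ≤ (1 / 2) ^ a * (Kw p * ‖f k0‖ ^ p) := by
    intro a haA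
    obtain ⟨hκT, hκa⟩ := hκ a haA
    have hκT2 := (hmemT _).mp hκT
    set 𝒥 := (B1 a).image (fun k => toPair (φ k)) with h𝒥
    have hsub : B1 a ⊆ T' := by simp only [hB1]; exact Finset.filter_subset _ _
    have hc : 𝒥.card = (B1 a).card :=
      Finset.card_image_of_injOn (hinj'.mono (by exact_mod_cast hsub))
    have h1 := weak_count hp (f (κ a)) (σ := 2 ^ a * σ0) (by positivity) 𝒥
      (by
        intro q hq
        apply hPlt
        rw [h𝒥, Finset.mem_image] at hq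
        obtain ⟨k, hk, rfl⟩ := hq
        rw [hP, Finset.mem_image]
        exact ⟨k, hsub hk, rfl⟩)
      (by
        intro q hq
        rw [h𝒥, Finset.mem_image] at hq
        obtain ⟨k, hk, rfl⟩ := hq
        simp only [hB1, Finset.mem_filter] at hk
        exact hk.2.2)
    rw [hc, Real.mul_rpow (by positivity) hσ0.le] at h1
    have h2 : ‖f (κ a)‖ ^ p ≤ ‖f k0‖ ^ p := hmono' _ hκT2.1 hκT2.2.le
    have h3 : (2:ℝ) ^ a ≤ (2 ^ a) ^ p := by
      conv_lhs => rw [← Real.rpow_one ((2:ℝ) ^ a)]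
      exact Real.rpow_le_rpow_of_exponent_le (one_le_pow₀ (by norm_num)) (by linarith)
    have h4 : ((B1 a).card : ℝ) * (2 ^ a * σ0 ^ p) ≤ Kw p * ‖f k0‖ ^ p := by
      calc ((B1 a).card : ℝ) * (2 ^ a * σ0 ^ p) ≤ ((B1 a).card : ℝ) * ((2 ^ a) ^ p * σ0 ^ p) := by
            apply mul_le_mul_of_nonneg_left _ (by positivity)
            exact mul_le_mul_of_nonneg_right h3 hσ0p.le
        _ ≤ _ := h1
        _ ≤ _ := mul_le_mul_of_nonneg_left h2 hKw.le
    have h5 : (1 / 2 : ℝ) ^ a * 2 ^ a = 1 := by rw [← mul_pow]; norm_num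
    calc ((B1 a).card : ℝ) * σ0 ^ p = (1 / 2 : ℝ) ^ a * (((B1 a).card : ℝ) * (2 ^ a * σ0 ^ p)) := by
          calc ((B1 a).card : ℝ) * σ0 ^ p
              = ((1 / 2 : ℝ) ^ a * 2 ^ a) * (((B1 a).card : ℝ) * σ0 ^ p) := by rw [h5, one_mul]
            _ = _ := by ring
      _ ≤ _ := mul_le_mul_of_nonneg_left h4 (by positivity)
  have hB2card : ∀ a ∈ A, ((B2 a).card : ℝ) ≤ (1 / 2) ^ a * (T.card / 4) := by
    intro a haA
    have hsub : B2 a ⊆ T' := by simp only [hB2]; exact Finset.filter_subset _ _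
    have h1 : ((B2 a).card : ℝ) * (W * 2 ^ a) ≤ M * (Ctree θ * T.card) := by
      calc ((B2 a).card : ℝ) * (W * 2 ^ a) = ∑ k ∈ B2 a, W * 2 ^ a := by
            rw [Finset.sum_const, nsmul_eq_mul]
        _ ≤ ∑ k ∈ B2 a, M * yy P θ (N - (toPair (φ k)).1) (toPair (φ k)).1 (toPair (φ k)).2 := by
            apply Finset.sum_le_sum
            intro k hk
            simp only [hB2, Finset.mem_filter] at hk
            exact hk.2.2
        _ ≤ ∑ k ∈ T', M * yy P θ (N - (toPair (φ k)).1) (toPair (φ k)).1 (toPair (φ k)).2 := by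
            apply Finset.sum_le_sum_of_subset_of_nonneg hsub
            intro k _ _
            have := yy_pos P hθ0 (N - (toPair (φ k)).1) (toPair (φ k)).1 (toPair (φ k)).2
            positivity
        _ = M * ∑ q ∈ P, yy P θ (N - q.1) q.1 q.2 := by
            rw [hP, Finset.sum_image hinj', Finset.mul_sum]
        _ ≤ M * (Ctree θ * P.card) :=
            mul_le_mul_of_nonneg_left (yy_total P hθ0 hθ1 N hN hPlt) hMpos.le
        _ ≤ M * (Ctree θ * T.card) := by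
            apply mul_le_mul_of_nonneg_left _ hMpos.le
            exact mul_le_mul_of_nonneg_left hPcard hCt.le
    have hTc : (0:ℝ) ≤ T.card := by positivity
    have h2 : M * (Ctree θ * T.card) ≤ W * (T.card / 4) := by
      have := mul_le_mul_of_nonneg_right hW2 hTc
      have e1 : 4 * (M * Ctree θ) * (T.card : ℝ) = 4 * (M * (Ctree θ * T.card)) := by ring
      have e2 : W * ((T.card : ℝ) / 4) = W * T.card / 4 := by ring
      rw [e1] at this
      rw [e2]
      linarith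
    have h3 : ((B2 a).card : ℝ) * 2 ^ a ≤ T.card / 4 := by
      have h4 : W * (((B2 a).card : ℝ) * 2 ^ a) ≤ W * (T.card / 4) := by
        calc W * (((B2 a).card : ℝ) * 2 ^ a) = ((B2 a).card : ℝ) * (W * 2 ^ a) := by ring
          _ ≤ _ := h1
          _ ≤ _ := h2
      exact le_of_mul_le_mul_left h4 (by linarith)
    have h5 : (1 / 2 : ℝ) ^ a * 2 ^ a = 1 := by rw [← mul_pow]; norm_num
    calc ((B2 a).card : ℝ) = (1 / 2 : ℝ) ^ a * (((B2 a).card : ℝ) * 2 ^ a) := by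
          calc ((B2 a).card : ℝ) = ((1 / 2 : ℝ) ^ a * 2 ^ a) * ((B2 a).card : ℝ) := by
                rw [h5, one_mul]
            _ = _ := by ring
      _ ≤ _ := mul_le_mul_of_nonneg_left h3 (by positivity)
  -- total
  have hcardT : (T.card : ℝ) ≤ One.card + G.card + ∑ a ∈ A, (((B1 a).card : ℝ) + (B2 a).card) := by
    have h1 : T.card ≤ (One ∪ G ∪ A.biUnion (fun a => B1 a ∪ B2 a)).card :=
      Finset.card_le_card hcover
    have h2 : (One ∪ G ∪ A.biUnion (fun a => B1 a ∪ B2 a)).card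
        ≤ One.card + G.card + ∑ a ∈ A, ((B1 a).card + (B2 a).card) := by
      refine (Finset.card_union_le _ _).trans (add_le_add (Finset.card_union_le _ _) ?_)
      refine Finset.card_biUnion_le.trans (Finset.sum_le_sum (fun a _ => Finset.card_union_le _ _))
    exact_mod_cast h1.trans h2
  have hhalf := sum_half_le A
  have hB1sum : (∑ a ∈ A, ((B1 a).card : ℝ)) * σ0 ^ p ≤ 2 * (Kw p * ‖f k0‖ ^ p) := by
    rw [Finset.sum_mul]
    calc ∑ a ∈ A, ((B1 a).card : ℝ) * σ0 ^ p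
        ≤ ∑ a ∈ A, (1 / 2) ^ a * (Kw p * ‖f k0‖ ^ p) := Finset.sum_le_sum hB1card
      _ = (∑ a ∈ A, (1 / 2 : ℝ) ^ a) * (Kw p * ‖f k0‖ ^ p) := by rw [Finset.sum_mul]
      _ ≤ 2 * (Kw p * ‖f k0‖ ^ p) := mul_le_mul_of_nonneg_right hhalf (by positivity)
  have hB2sum : (∑ a ∈ A, ((B2 a).card : ℝ)) ≤ T.card / 2 := by
    calc ∑ a ∈ A, ((B2 a).card : ℝ) ≤ ∑ a ∈ A, (1 / 2) ^ a * ((T.card : ℝ) / 4) :=
          Finset.sum_le_sum hB2card
      _ = (∑ a ∈ A, (1 / 2 : ℝ) ^ a) * (T.card / 4) := by rw [Finset.sum_mul]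
      _ ≤ 2 * (T.card / 4) := mul_le_mul_of_nonneg_right hhalf (by positivity)
      _ = T.card / 2 := by ring
  have hGcard' : (G.card : ℝ) * σ0 ^ p ≤ (2 * Csm p * W / t ^ 2) * ‖f k0‖ ^ p := by
    have h1 : (G.card : ℝ) * σ0 ^ p
        = (2 * Csm p * W / t ^ 2) * ((G.card : ℝ) * (t ^ 2 * σ0 ^ p / (2 * Csm p * W))) := by
      field_simp
    rw [h1]
    exact mul_le_mul_of_nonneg_left hGcard (by positivity)
  rw [← hTcard]
  rw [Finset.sum_add_distrib] at hcardT
  have hfin := mul_le_mul_of_nonneg_right hcardT hσ0p.le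
  have hone := mul_le_mul_of_nonneg_right hOnecard hσ0p.le
  have hb2 := mul_le_mul_of_nonneg_right hB2sum hσ0p.le
  have e : (4 * Csm p * W / t ^ 2 + 4 * Kw p) * ‖f k0‖ ^ p
      = 2 * ((2 * Csm p * W / t ^ 2) * ‖f k0‖ ^ p) + 2 * (2 * (Kw p * ‖f k0‖ ^ p)) := by ring
  rw [e]
  have e2 : ((One.card : ℝ) + G.card + (∑ a ∈ A, ((B1 a).card : ℝ) + ∑ a ∈ A, ((B2 a).card : ℝ)))
      * σ0 ^ p = One.card * σ0 ^ p + G.card * σ0 ^ p + (∑ a ∈ A, ((B1 a).card : ℝ)) * σ0 ^ p
        + (∑ a ∈ A, ((B2 a).card : ℝ)) * σ0 ^ p := by ring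
  have e3 : (T.card : ℝ) / 2 * σ0 ^ p = (T.card * σ0 ^ p) / 2 := by ring
  rw [e2] at hfin
  rw [e3] at hb2
  linarith

end

end Pool.Agent.H71.Haar
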