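import Mathlib

/-!
# The Haar system in `L_p([0,1])` and the weak Chebyshev greedy algorithm: definitions
-/

open MeasureTheory

namespace Pool.Agent.H71.Haar

/-- Lebesgue measure on the unit interval `[0,1]`, as a measure on `ℝ`. -/
noncomputable def unitMeasure : Measure ℝ := volume.restrict (Set.Icc (0 : ℝ) 1)

instance instFiniteUnitMeasure : IsFiniteMeasure unitMeasure := by
  unfold unitMeasure
  infer_instance

/-- The real Banach space `L_p([0,1])`. -/
noncomputable abbrev LpUnit (p : ℝ) := Lp ℝ (ENNReal.ofReal p) unitMeasure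

/-- The dyadic interval `[k 2^{-n}, (k+1) 2^{-n})`. -/
def dyadic (n k : ℕ) : Set ℝ := Set.Ico ((k : ℝ) / 2 ^ n) (((k : ℝ) + 1) / 2 ^ n)

/-- Index set of the Haar system: `one` is the constant function `1`, and `node n k` (with
`0 ≤ k < 2^n`) is the dyadic interval `I = [k 2^{-n}, (k+1) 2^{-n})` of `[0,1]`. -/
inductive HaarIndex : Type
  | one : HaarIndex
  | node (n : ℕ) (k : Fin (2 ^ n)) : HaarIndex
  deriving DecidableEq

/-- The Haar functions, normalised in `L_p`: the constant `1`, and for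
`I = [k 2^{-n}, (k+1) 2^{-n})` the function `|I|^{-1/p} (1_{I^-} - 1_{I^+})`, where
`I^- = [2k 2^{-n-1}, (2k+1) 2^{-n-1})` and `I^+ = [(2k+1) 2^{-n-1}, (2k+2) 2^{-n-1})` are the left
and right halves of `I`, and `|I|^{-1/p} = (2^n)^{1/p}`. -/
noncomputable def haarFun (p : ℝ) : HaarIndex → ℝ → ℝ
  | .one, _ => 1
  | .node n k, x => ((2 : ℝ) ^ n) ^ (1 / p) *
      ((dyadic (n + 1) (2 * k)).indicator (fun _ => 1) x
        - (dyadic (n + 1) (2 * k + 1)).indicator (fun _ => 1) x)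

lemma measurableSet_dyadic (n k : ℕ) : MeasurableSet (dyadic n k) := measurableSet_Ico

lemma measurable_haarFun (p : ℝ) (i : HaarIndex) : Measurable (haarFun p i) := by
  cases i with
  | one => exact measurable_const
  | node n k =>
    exact measurable_const.mul
      ((measurable_const.indicator (measurableSet_dyadic _ _)).sub
        (measurable_const.indicator (measurableSet_dyadic _ _)))

lemma haarFun_memLp (p : ℝ) (i : HaarIndex) :
    MemLp (haarFun p i) (ENNReal.ofReal p) unitMeasure := by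
  cases i with
  | one =>
    refine MemLp.of_bound (measurable_haarFun p _).aestronglyMeasurable 1
      (Filter.Eventually.of_forall (fun x => ?_))
    simp [haarFun]
  | node n k =>
    refine MemLp.of_bound (measurable_haarFun p _).aestronglyMeasurable
      (((2 : ℝ) ^ n) ^ (1 / p) * (1 + 1)) (Filter.Eventually.of_forall (fun x => ?_))
    have h : 0 ≤ ((2 : ℝ) ^ n) ^ (1 / p) := by positivity
    simp only [haarFun, norm_mul, Real.norm_eq_abs, abs_of_nonneg h]
    apply mul_le_mul_of_nonneg_left _ h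
    refine (abs_sub _ _).trans (add_le_add ?_ ?_)
    · by_cases hx : x ∈ dyadic (n + 1) (2 * k) <;> simp [Set.indicator, hx]
    · by_cases hx : x ∈ dyadic (n + 1) (2 * k + 1) <;> simp [Set.indicator, hx]

/-- The Haar system `H_p` as elements of `L_p([0,1])`. -/
noncomputable def haar (p : ℝ) (i : HaarIndex) : LpUnit p := (haarFun_memLp p i).toLp

section Greedy

variable {X : Type*} [NormedAddCommGroup X] [NormedSpace ℝ X] {ι : Type*}

/-- Best `m`-term approximation error `σ_m(f, D)` of `f` with respect to a dictionary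
`D = {D i}`: the infimum of `‖f - ∑_{i ∈ Λ} c_i D_i‖` over index sets `Λ` with at most `m` elements
and real coefficients `c_i`. -/
noncomputable def sigma (D : ι → X) (m : ℕ) (f : X) : ℝ :=
  sInf {e : ℝ | ∃ (Λ : Finset ι) (c : ι → ℝ), Λ.card ≤ m ∧ e = ‖f - ∑ i ∈ Λ, c i • D i‖}

/-- `IsWCGA D t f φ r` says that `φ 0, φ 1, …` (indices of the chosen elements `φ_1, φ_2, …`) and
`r 0, r 1, …` (the residuals `f_0, f_1, …`) form an admissible run of the weak Chebyshev greedy
algorithm WCGA(`t`) on `f` with respect to the dictionary `D`: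
* `f_0 = f`;
* if `f_m ≠ 0`, then for a norming functional `F` of `f_m` (`‖F‖ = 1`, `F f_m = ‖f_m‖`) the chosen
  element satisfies `|F(φ_{m+1})| ≥ t sup_g |F(g)|`, and `f_{m+1} = f - G_{m+1}` with `G_{m+1}` a
  best approximant of `f` from `span{φ_1, …, φ_{m+1}}`;
* if `f_m = 0` then `f_{m+1} = 0`. -/
structure IsWCGA (D : ι → X) (t : ℝ) (f : X) (φ : ℕ → ι) (r : ℕ → X) : Prop where
  init : r 0 = f
  greedy : ∀ m, r m ≠ 0 → ∃ F : X →L[ℝ] ℝ, ‖F‖ = 1 ∧ F (r m) = ‖r m‖ ∧
    t * (⨆ i : ι, |F (D i)|) ≤ |F (D (φ m))|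
  mem_span : ∀ m, r m ≠ 0 → f - r (m + 1) ∈ Submodule.span ℝ {y | ∃ j ≤ m, y = D (φ j)}
  best : ∀ m, r m ≠ 0 → ∀ y ∈ Submodule.span ℝ {y | ∃ j ≤ m, y = D (φ j)},
    ‖r (m + 1)‖ ≤ ‖f - y‖
  stop : ∀ m, r m = 0 → r (m + 1) = 0

/-- The dictionary `D` is almost greedy with respect to the WCGA: for every weakness parameter
`t ∈ (0,1]` there are constants `C₁ ≥ 1`, `C₂ > 0` such that for every `f`, every `m ≥ 1` and every
admissible run of WCGA(`t`) on `f`, `‖f_{⌈C₁ m⌉}‖ ≤ C₂ σ_m(f, D)`. -/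
def AlmostGreedyWCGA (D : ι → X) : Prop :=
  ∀ t : ℝ, 0 < t → t ≤ 1 → ∃ C₁ C₂ : ℝ, 1 ≤ C₁ ∧ 0 < C₂ ∧
    ∀ (f : X) (m : ℕ), 1 ≤ m → ∀ (φ : ℕ → ι) (r : ℕ → X),
      IsWCGA D t f φ r → ‖r ⌈C₁ * m⌉₊‖ ≤ C₂ * sigma D m f

end Greedy

end Pool.Agent.H71.Haar
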