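import Pool.Agent.H71.Haar.Ineq

/-! Integral facts for real `L_p`, `p > 2`, on a finite measure space. -/

open MeasureTheory Set
open scoped ENNReal

namespace Pool.Agent.H71.Haar

section
variable {Ω : Type*} [MeasurableSpace Ω] {μ : Measure Ω} [IsFiniteMeasure μ] {p : ℝ}
  [Fact (1 ≤ ENNReal.ofReal p)]

lemma aem (f : Lp ℝ (ENNReal.ofReal p) μ) : AEMeasurable f μ :=
  (Lp.aestronglyMeasurable f).aemeasurable

lemma toReal_p (hp : 2 < p) : (ENNReal.ofReal p).toReal = p :=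
  ENNReal.toReal_ofReal (by linarith)

lemma ofReal_p_ne_zero (hp : 2 < p) : ENNReal.ofReal p ≠ 0 := by
  simp; linarith

lemma int_rpow (hp : 2 < p) (f : Lp ℝ (ENNReal.ofReal p) μ) :
    Integrable (fun x => |f x| ^ p) μ := by
  have := (Lp.memLp f).integrable_norm_rpow (ofReal_p_ne_zero hp) ENNReal.ofReal_ne_top
  rw [toReal_p hp] at this
  exact this

lemma norm_rpow (hp : 2 < p) (f : Lp ℝ (ENNReal.ofReal p) μ) :
    ‖f‖ ^ p = ∫ x, |f x| ^ p ∂μ := by
  rw [Lp.norm_def, MemLp.eLpNorm_eq_integral_rpow_norm (ofReal_p_ne_zero hp)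
    ENNReal.ofReal_ne_top (Lp.memLp f), toReal_p hp]
  have h0 : 0 ≤ ∫ x, |f x| ^ p ∂μ := integral_nonneg (fun x => Real.rpow_nonneg (abs_nonneg _) _)
  simp only [Real.norm_eq_abs]
  rw [ENNReal.toReal_ofReal (Real.rpow_nonneg h0 _), ← Real.rpow_mul h0,
    inv_mul_cancel₀ (by linarith), Real.rpow_one]

lemma bd1 (hp : 2 < p) (a b : ℝ) : |U p a * b| ≤ |a| ^ p + |b| ^ p := by
  rw [abs_mul, abs_U hp]
  have e : ∀ z : ℝ, |z| ^ (p - 1) * |z| = |z| ^ p := by
    intro z
    rw [← abs_U hp, ← abs_mul, U_mul_self hp, abs_of_nonneg (Real.rpow_nonneg (abs_nonneg _) _)]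
  have ha : 0 ≤ |a| ^ p := Real.rpow_nonneg (abs_nonneg _) _
  have hb : 0 ≤ |b| ^ p := Real.rpow_nonneg (abs_nonneg _) _
  rcases le_total |a| |b| with h | h
  · have : |a| ^ (p - 1) * |b| ≤ |b| ^ (p - 1) * |b| :=
      mul_le_mul_of_nonneg_right (Real.rpow_le_rpow (abs_nonneg _) h (by linarith)) (abs_nonneg _)
    rw [e] at this
    linarith
  · have : |a| ^ (p - 1) * |b| ≤ |a| ^ (p - 1) * |a| :=
      mul_le_mul_of_nonneg_left h (Real.rpow_nonneg (abs_nonneg _) _)
    rw [e] at this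
    linarith

lemma bd2 (hp : 2 < p) (a b : ℝ) : |a| ^ (p - 2) * b ^ 2 ≤ |a| ^ p + |b| ^ p := by
  have e : ∀ z : ℝ, |z| ^ (p - 2) * z ^ 2 = |z| ^ p := by
    intro z
    rw [← U_mul_self hp z, U]; ring
  have ha : 0 ≤ |a| ^ p := Real.rpow_nonneg (abs_nonneg _) _
  have hb : 0 ≤ |b| ^ p := Real.rpow_nonneg (abs_nonneg _) _
  rcases le_total |a| |b| with h | h
  · have : |a| ^ (p - 2) * b ^ 2 ≤ |b| ^ (p - 2) * b ^ 2 :=
      mul_le_mul_of_nonneg_right (Real.rpow_le_rpow (abs_nonneg _) h (by linarith)) (sq_nonneg _)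
    rw [e] at this
    linarith
  · have h' : b ^ 2 ≤ a ^ 2 := sq_le_sq.mpr h
    have : |a| ^ (p - 2) * b ^ 2 ≤ |a| ^ (p - 2) * a ^ 2 :=
      mul_le_mul_of_nonneg_left h' (Real.rpow_nonneg (abs_nonneg _) _)
    rw [e] at this
    linarith

lemma aem_U (f : Lp ℝ (ENNReal.ofReal p) μ) : AEMeasurable (fun x => U p (f x)) μ := by
  unfold U
  have := aem f
  fun_prop

lemma int_U_mul (hp : 2 < p) (f g : Lp ℝ (ENNReal.ofReal p) μ) :
    Integrable (fun x => U p (f x) * g x) μ := by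
  refine Integrable.mono' ((int_rpow hp f).add (int_rpow hp g)) ?_ ?_
  · exact ((aem_U f).mul (aem g)).aestronglyMeasurable
  · exact Filter.Eventually.of_forall (fun x => bd1 hp _ _)

lemma int_sq (hp : 2 < p) (f g : Lp ℝ (ENNReal.ofReal p) μ) :
    Integrable (fun x => |f x| ^ (p - 2) * (g x) ^ 2) μ := by
  refine Integrable.mono' ((int_rpow hp f).add (int_rpow hp g)) ?_ ?_
  · have h1 := aem f
    have h2 := aem g
    have : AEMeasurable (fun x => |f x| ^ (p - 2) * (g x) ^ 2) μ := by fun_prop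
    exact this.aestronglyMeasurable
  · refine Filter.Eventually.of_forall (fun x => ?_)
    rw [Real.norm_eq_abs, abs_of_nonneg (by positivity)]
    exact bd2 hp _ _

lemma int_pm2 (hp : 2 < p) (f : Lp ℝ (ENNReal.ofReal p) μ) :
    Integrable (fun x => |f x| ^ (p - 2)) μ := by
  refine Integrable.mono' ((integrable_const (1:ℝ)).add (int_rpow hp f)) ?_ ?_
  · have h1 := aem f
    have : AEMeasurable (fun x => |f x| ^ (p - 2)) μ := by fun_prop
    exact this.aestronglyMeasurable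
  · refine Filter.Eventually.of_forall (fun x => ?_)
    rw [Real.norm_eq_abs, abs_of_nonneg (by positivity)]
    have := bd2 hp (f x) 1
    simp at this
    simp only [Pi.add_apply]
    linarith

lemma int_U (hp : 2 < p) (f : Lp ℝ (ENNReal.ofReal p) μ) :
    Integrable (fun x => U p (f x)) μ := by
  refine Integrable.mono' ((integrable_const (1:ℝ)).add (int_rpow hp f)) ?_ ?_
  · exact (aem_U f).aestronglyMeasurable
  · refine Filter.Eventually.of_forall (fun x => ?_)
    rw [Real.norm_eq_abs]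
    have := bd1 hp (f x) 1
    simp only [mul_one, abs_one, Real.one_rpow] at this
    simp only [Pi.add_apply]
    linarith

lemma int_self (hp : 2 < p) (f : Lp ℝ (ENNReal.ofReal p) μ) : Integrable (fun x => f x) μ := by
  refine Integrable.mono' ((integrable_const (1:ℝ)).add (int_rpow hp f)) ?_ ?_
  · exact (aem f).aestronglyMeasurable
  · refine Filter.Eventually.of_forall (fun x => ?_)
    rw [Real.norm_eq_abs]
    have := bd1 hp 1 (f x)
    simp only [U, abs_one, Real.one_rpow, one_mul] at this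
    simp only [Pi.add_apply]
    linarith

/-- The pairing `∫ |f|^{p-2} f g`. -/
noncomputable def pair (f g : Lp ℝ (ENNReal.ofReal p) μ) : ℝ := ∫ x, U p (f x) * g x ∂μ

lemma pair_self (hp : 2 < p) (f : Lp ℝ (ENNReal.ofReal p) μ) : pair f f = ‖f‖ ^ p := by
  rw [norm_rpow hp, pair]
  exact integral_congr_ae (Filter.Eventually.of_forall (fun x => U_mul_self hp _))

lemma pair_add (hp : 2 < p) (f g h : Lp ℝ (ENNReal.ofReal p) μ) :
    pair f (g + h) = pair f g + pair f h := by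
  unfold pair
  rw [← integral_add (int_U_mul hp f g) (int_U_mul hp f h)]
  apply integral_congr_ae
  filter_upwards [Lp.coeFn_add g h] with x hx
  rw [hx, Pi.add_apply]
  ring

lemma pair_smul (f g : Lp ℝ (ENNReal.ofReal p) μ) (c : ℝ) :
    pair f (c • g) = c * pair f g := by
  unfold pair
  rw [← integral_const_mul]
  apply integral_congr_ae
  filter_upwards [Lp.coeFn_smul c g] with x hx
  rw [hx, Pi.smul_apply, smul_eq_mul]
  ring

lemma pair_sub (hp : 2 < p) (f g h : Lp ℝ (ENNReal.ofReal p) μ) :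
    pair f (g - h) = pair f g - pair f h := by
  have : g - h = g + (-1 : ℝ) • h := by rw [neg_one_smul, sub_eq_add_neg]
  rw [this, pair_add hp, pair_smul]
  ring

lemma pair_sum (hp : 2 < p) {ι : Type*} (s : Finset ι) (f : Lp ℝ (ENNReal.ofReal p) μ)
    (g : ι → Lp ℝ (ENNReal.ofReal p) μ) :
    pair f (∑ i ∈ s, g i) = ∑ i ∈ s, pair f (g i) := by
  classical
  induction s using Finset.induction_on with
  | empty =>
    have := pair_smul f (0 : Lp ℝ (ENNReal.ofReal p) μ) 0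
    simpa using this
  | insert a s ha ih => rw [Finset.sum_insert ha, Finset.sum_insert ha, pair_add hp, ih]

/-- Weighted square norm. -/
noncomputable def wsq (f g : Lp ℝ (ENNReal.ofReal p) μ) : ℝ :=
  ∫ x, |f x| ^ (p - 2) * (g x) ^ 2 ∂μ

lemma wsq_nonneg (f g : Lp ℝ (ENNReal.ofReal p) μ) : 0 ≤ wsq f g :=
  integral_nonneg (fun x => by positivity)

lemma smooth_norm (hp : 2 < p) (f g : Lp ℝ (ENNReal.ofReal p) μ) (c : ℝ) :
    ‖f - c • g‖ ^ p ≤ ‖f‖ ^ p - p * (c * pair f g)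
      + Csm p * (c ^ 2 * wsq f g + |c| ^ p * ‖g‖ ^ p) := by
  rw [norm_rpow hp (f - c • g), norm_rpow hp f, norm_rpow hp g]
  have h1 : ∫ x, |(f - c • g : Lp ℝ (ENNReal.ofReal p) μ) x| ^ p ∂μ
      ≤ ∫ x, (|f x| ^ p - p * c * (U p (f x) * g x)
        + Csm p * (c ^ 2 * (|f x| ^ (p - 2) * (g x) ^ 2) + |c| ^ p * |g x| ^ p)) ∂μ := by
    apply integral_mono_ae (int_rpow hp _)
    · apply Integrable.add
      · exact (int_rpow hp f).sub ((int_U_mul hp f g).const_mul _)
      · apply Integrable.const_mul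
        exact ((int_sq hp f g).const_mul _).add ((int_rpow hp g).const_mul _)
    · filter_upwards [Lp.coeFn_sub f (c • g), Lp.coeFn_smul c g] with x h1 h2
      rw [h1, Pi.sub_apply, h2, Pi.smul_apply, smul_eq_mul]
      refine (smooth_ineq hp (f x) (c * g x)).trans (le_of_eq ?_)
      rw [abs_mul, Real.mul_rpow (abs_nonneg _) (abs_nonneg _)]
      ring
  refine h1.trans (le_of_eq ?_)
  rw [integral_add, integral_sub, integral_const_mul, integral_const_mul, integral_add,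
    integral_const_mul, integral_const_mul]
  · unfold pair wsq
    ring
  · exact (int_sq hp f g).const_mul _
  · exact (int_rpow hp g).const_mul _
  · exact int_rpow hp f
  · exact (int_U_mul hp f g).const_mul _
  · exact (int_rpow hp f).sub ((int_U_mul hp f g).const_mul _)
  · apply Integrable.const_mul
    exact ((int_sq hp f g).const_mul _).add ((int_rpow hp g).const_mul _)

/-- If `c X ≤ K (c² + c^p)` for all small positive `c` then `X ≤ 0`. -/
lemma nonpos_of_small (hp : 2 < p) {X K : ℝ} (hK : 0 ≤ K)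
    (h : ∀ c : ℝ, 0 < c → c ≤ 1 → c * X ≤ K * (c ^ 2 + c ^ p)) : X ≤ 0 := by
  by_contra hX
  push Not at hX
  -- choose c = min 1 (X / (4K+4))
  set c := min 1 (X / (4 * K + 4)) with hc
  have hc0 : 0 < c := lt_min one_pos (div_pos hX (by linarith))
  have hc1 : c ≤ 1 := min_le_left _ _
  have hc2 : c ≤ X / (4 * K + 4) := min_le_right _ _
  have h1 := h c hc0 hc1
  have h2 : c ^ p ≤ c ^ 2 := by
    rw [← Real.rpow_natCast c 2]
    exact Real.rpow_le_rpow_of_exponent_ge hc0 hc1 (by push_cast; linarith)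
  rw [le_div_iff₀ (by linarith)] at hc2
  have h3 : K * (c ^ 2 + c ^ p) ≤ K * (2 * c ^ 2) := mul_le_mul_of_nonneg_left (by linarith) hK
  have h4 : c * X ≤ c * (2 * K * c) := by nlinarith
  have h5 : X ≤ 2 * K * c := le_of_mul_le_mul_left h4 hc0
  nlinarith

/-- Best approximation implies orthogonality. -/
lemma pair_eq_zero_of_best (hp : 2 < p) (f g : Lp ℝ (ENNReal.ofReal p) μ)
    (h : ∀ c : ℝ, ‖f‖ ≤ ‖f - c • g‖) : pair f g = 0 := by
  have key : ∀ c : ℝ, p * (c * pair f g) ≤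
      Csm p * (c ^ 2 * wsq f g + |c| ^ p * ‖g‖ ^ p) := by
    intro c
    have h1 := smooth_norm hp f g c
    have h2 : ‖f‖ ^ p ≤ ‖f - c • g‖ ^ p :=
      Real.rpow_le_rpow (norm_nonneg _) (h c) (by linarith)
    linarith
  set K := Csm p * (wsq f g + ‖g‖ ^ p) with hK
  have hw := wsq_nonneg f g
  have hg : 0 ≤ ‖g‖ ^ p := Real.rpow_nonneg (norm_nonneg _) _
  have hC := Csm_pos hp
  have hK0 : 0 ≤ K := by positivity
  have key2 : ∀ c : ℝ, 0 ≤ c → Csm p * (c ^ 2 * wsq f g + c ^ p * ‖g‖ ^ p)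
      ≤ K * (c ^ 2 + c ^ p) := by
    intro c hc
    have h1 : 0 ≤ c ^ p := Real.rpow_nonneg hc _
    have : K * (c ^ 2 + c ^ p) - Csm p * (c ^ 2 * wsq f g + c ^ p * ‖g‖ ^ p)
      = Csm p * (c ^ 2 * ‖g‖ ^ p + c ^ p * wsq f g) := by rw [hK]; ring
    have h2 : 0 ≤ Csm p * (c ^ 2 * ‖g‖ ^ p + c ^ p * wsq f g) := by positivity
    linarith
  have hpos : p * pair f g ≤ 0 := by
    apply nonpos_of_small hp hK0
    intro c hc _
    have h1 := key c
    rw [abs_of_pos hc] at h1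
    have h2 := key2 c hc.le
    linarith [mul_left_comm p c (pair f g)]
  have hneg : -(p * pair f g) ≤ 0 := by
    apply nonpos_of_small hp hK0
    intro c hc _
    have h1 := key (-c)
    rw [abs_neg, abs_of_pos hc, neg_sq] at h1
    have h2 := key2 c hc.le
    linarith [mul_left_comm p c (pair f g)]
  have h0 : p * pair f g = 0 := by linarith
  rcases mul_eq_zero.mp h0 with h | h
  · linarith
  · exact h

/-- The norming functional is given by the pairing. -/
lemma norming_repr (hp : 2 < p) (f : Lp ℝ (ENNReal.ofReal p) μ)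
    (F : Lp ℝ (ENNReal.ofReal p) μ →L[ℝ] ℝ) (hF : ‖F‖ = 1) (hFf : F f = ‖f‖)
    (g : Lp ℝ (ENNReal.ofReal p) μ) : ‖f‖ ^ (p - 1) * F g = pair f g := by
  have hle : ∀ h : Lp ℝ (ENNReal.ofReal p) μ, F h ≤ ‖h‖ := by
    intro h
    have := F.le_opNorm h
    rw [hF, one_mul] at this
    exact (le_abs_self _).trans this
  have hle' : ∀ h : Lp ℝ (ENNReal.ofReal p) μ, |F h| ≤ ‖h‖ := by
    intro h
    have := F.le_opNorm h
    rw [hF, one_mul] at this
    exact this
  -- for all c: ‖f‖^p - p c ‖f‖^(p-1) F g ≤ ‖f - c g‖^p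
  have key0 : ∀ c : ℝ, ‖f‖ ^ p - p * (c * (‖f‖ ^ (p - 1) * F g)) ≤ ‖f - c • g‖ ^ p := by
    intro c
    have h1 : ‖f‖ - c * F g ≤ ‖f - c • g‖ := by
      have := hle (f - c • g)
      simp only [map_sub, map_smul, smul_eq_mul, hFf] at this
      exact this
    have h2 := grad_ineq hp ‖f‖ (‖f - c • g‖)
    rw [U_of_nonneg hp (norm_nonneg _), abs_of_nonneg (norm_nonneg _),
      abs_of_nonneg (norm_nonneg _)] at h2
    have h3 : 0 ≤ p * ‖f‖ ^ (p - 1) :=
      mul_nonneg (by linarith) (Real.rpow_nonneg (norm_nonneg _) _)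
    have h4 := mul_le_mul_of_nonneg_left h1 h3
    nlinarith
  set Y := ‖f‖ ^ (p - 1) * F g - pair f g with hY
  have key : ∀ c : ℝ, -(p * (c * Y)) ≤
      Csm p * (c ^ 2 * wsq f g + |c| ^ p * ‖g‖ ^ p) := by
    intro c
    have h1 := smooth_norm hp f g c
    have h2 := key0 c
    rw [hY]
    have : -(p * (c * (‖f‖ ^ (p - 1) * F g - pair f g)))
      = -(p * (c * (‖f‖ ^ (p - 1) * F g))) + p * (c * pair f g) := by ring
    rw [this]
    linarith
  set K := Csm p * (wsq f g + ‖g‖ ^ p) with hK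
  have hw := wsq_nonneg f g
  have hg : 0 ≤ ‖g‖ ^ p := Real.rpow_nonneg (norm_nonneg _) _
  have hC := Csm_pos hp
  have hK0 : 0 ≤ K := by positivity
  have key2 : ∀ c : ℝ, 0 ≤ c → Csm p * (c ^ 2 * wsq f g + c ^ p * ‖g‖ ^ p)
      ≤ K * (c ^ 2 + c ^ p) := by
    intro c hc
    have h1 : 0 ≤ c ^ p := Real.rpow_nonneg hc _
    have : K * (c ^ 2 + c ^ p) - Csm p * (c ^ 2 * wsq f g + c ^ p * ‖g‖ ^ p)
      = Csm p * (c ^ 2 * ‖g‖ ^ p + c ^ p * wsq f g) := by rw [hK]; ring
    have h2 : 0 ≤ Csm p * (c ^ 2 * ‖g‖ ^ p + c ^ p * wsq f g) := by positivity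
    linarith
  have hneg : -(p * Y) ≤ 0 := by
    apply nonpos_of_small hp hK0
    intro c hc _
    have h1 := key c
    rw [abs_of_pos hc] at h1
    have h2 := key2 c hc.le
    linarith [mul_left_comm p c Y]
  have hpos : p * Y ≤ 0 := by
    apply nonpos_of_small hp hK0
    intro c hc _
    have h1 := key (-c)
    rw [abs_neg, abs_of_pos hc, neg_sq] at h1
    have h2 := key2 c hc.le
    linarith [mul_left_comm p c Y]
  have h0 : p * Y = 0 := by linarith
  rcases mul_eq_zero.mp h0 with h | h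
  · linarith
  · linarith

/-- Progress of one step. -/
lemma progress (hp : 2 < p) (f g : Lp ℝ (ENNReal.ofReal p) μ) (hg : ‖g‖ = 1)
    {t σ A : ℝ} (ht : 0 < t) (ht1 : t ≤ 1) (hσ : 0 < σ) (hA : 1 ≤ A)
    (hs : t * σ ^ (p - 1) ≤ |pair f g|) (hw : wsq f g ≤ A * σ ^ (p - 2)) :
    ∃ c : ℝ, ‖f - c • g‖ ^ p ≤ ‖f‖ ^ p - t ^ 2 * σ ^ p / (2 * Csm p * A) := by
  have hC := Csm_pos hp
  have hC1 : 1 ≤ Csm p := by
    unfold Csm
    have h1 : (1:ℝ) ≤ 4 ^ p := Real.one_le_rpow (by norm_num) (by linarith)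
    have h2 : 1 ≤ p * (p - 1) := by nlinarith
    nlinarith
  set δ := 1 / (2 * Csm p) with hδ
  have hδ0 : 0 < δ := by positivity
  have hδ1 : δ ≤ 1 := by
    rw [hδ, div_le_one (by positivity)]; linarith
  set c0 := δ * σ * t / A with hc0
  have hc0pos : 0 < c0 := by positivity
  set ε : ℝ := if 0 ≤ pair f g then 1 else -1 with hε
  have hεs : ε * pair f g = |pair f g| := by
    rw [hε]
    split_ifs with h
    · rw [one_mul, abs_of_nonneg h]
    · push Not at h
      rw [abs_of_neg h]; ring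
  have hεa : |ε| = 1 := by rw [hε]; split_ifs <;> simp
  have hε2 : ε ^ 2 = 1 := by rw [hε]; split_ifs <;> norm_num
  refine ⟨ε * c0, ?_⟩
  have h1 := smooth_norm hp f g (ε * c0)
  rw [hg, Real.one_rpow, mul_one, abs_mul, hεa, one_mul, abs_of_pos hc0pos, mul_pow, hε2, one_mul]
    at h1
  have e1 : p * (ε * c0 * pair f g) = p * c0 * |pair f g| := by rw [← hεs]; ring
  rw [e1] at h1
  have hp0 : 0 < p := by linarith
  have σ1 : σ ^ (p - 1) * σ = σ ^ p := by
    rw [← Real.rpow_add_one hσ.ne']; ring_nf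
  have σ2 : σ ^ (p - 2) * σ ^ 2 = σ ^ p := by
    rw [← Real.rpow_natCast σ 2, ← Real.rpow_add hσ]; norm_num
  have hσp : 0 < σ ^ p := Real.rpow_pos_of_pos hσ _
  -- first term
  have h2 : p * (δ * t ^ 2 * σ ^ p / A) ≤ p * c0 * |pair f g| := by
    have : p * c0 * (t * σ ^ (p - 1)) ≤ p * c0 * |pair f g| :=
      mul_le_mul_of_nonneg_left hs (by positivity)
    refine le_trans (le_of_eq ?_) this
    rw [hc0, ← σ1]; field_simp
  -- second term
  have h3 : c0 ^ 2 * wsq f g ≤ δ ^ 2 * t ^ 2 * σ ^ p / A := by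
    calc c0 ^ 2 * wsq f g ≤ c0 ^ 2 * (A * σ ^ (p - 2)) :=
          mul_le_mul_of_nonneg_left hw (by positivity)
      _ = δ ^ 2 * t ^ 2 * σ ^ p / A := by
          rw [hc0, ← σ2]; field_simp
  -- third term
  have h4 : c0 ^ p ≤ δ ^ 2 * t ^ 2 * σ ^ p / A := by
    have e2 : c0 = (δ * t / A) * σ := by rw [hc0]; ring
    rw [e2, Real.mul_rpow (by positivity) hσ.le]
    have hx0 : 0 < δ * t / A := by positivity
    have hx1 : δ * t / A ≤ 1 := by
      rw [div_le_one (by linarith)]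
      have : δ * t ≤ 1 := by nlinarith
      linarith
    have h5 : (δ * t / A) ^ p ≤ (δ * t / A) ^ (2:ℕ) := by
      rw [← Real.rpow_natCast]
      exact Real.rpow_le_rpow_of_exponent_ge hx0 hx1 (by push_cast; linarith)
    have h6 : (δ * t / A) ^ 2 ≤ δ ^ 2 * t ^ 2 / A := by
      rw [div_pow, mul_pow]
      apply div_le_div_of_nonneg_left (by positivity) (by linarith)
      nlinarith
    calc (δ * t / A) ^ p * σ ^ p ≤ (δ ^ 2 * t ^ 2 / A) * σ ^ p :=
          mul_le_mul_of_nonneg_right (h5.trans h6) hσp.le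
      _ = δ ^ 2 * t ^ 2 * σ ^ p / A := by ring
  have h7 : Csm p * (c0 ^ 2 * wsq f g + c0 ^ p) ≤ Csm p * (2 * (δ ^ 2 * t ^ 2 * σ ^ p / A)) :=
    mul_le_mul_of_nonneg_left (by linarith) hC.le
  have e3 : Csm p * (2 * (δ ^ 2 * t ^ 2 * σ ^ p / A)) = δ * t ^ 2 * σ ^ p / A := by
    rw [hδ]; field_simp
  have e4 : t ^ 2 * σ ^ p / (2 * Csm p * A) = δ * t ^ 2 * σ ^ p / A := by
    rw [hδ]; field_simp
  have h8 : 0 ≤ δ * t ^ 2 * σ ^ p / A := by positivity
  rw [e4]
  have h9 : p * (δ * t ^ 2 * σ ^ p / A) ≥ 2 * (δ * t ^ 2 * σ ^ p / A) :=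
    mul_le_mul_of_nonneg_right hp.le h8
  linarith

end

end Pool.Agent.H71.Haar
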