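import Pool.Agent.H71.Haar.Defs
import Pool.Agent.H71.Haar.LpLem

/-! Dyadic intervals, Haar functions and the basic integrals. -/

open MeasureTheory Set
open scoped ENNReal

set_option linter.unusedSectionVars false

namespace Pool.Agent.H71.Haar

lemma mem_dyadic_iff (n k : ℕ) (x : ℝ) : x ∈ dyadic n k ↔ 0 ≤ x ∧ ⌊x * 2 ^ n⌋₊ = k := by
  have h2 : (0:ℝ) < 2 ^ n := by positivity
  unfold dyadic
  rw [mem_Ico, div_le_iff₀ h2, lt_div_iff₀ h2]
  constructor
  · rintro ⟨h1, h3⟩
    have h0 : 0 ≤ x * 2 ^ n := le_trans (Nat.cast_nonneg k) h1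
    refine ⟨nonneg_of_mul_nonneg_left h0 h2, ?_⟩
    exact (Nat.floor_eq_iff h0).mpr ⟨h1, h3⟩
  · rintro ⟨h0, h1⟩
    exact (Nat.floor_eq_iff (by positivity)).mp h1

lemma floor_parent {n m : ℕ} (h : n ≤ m) (x : ℝ) :
    ⌊x * 2 ^ n⌋₊ = ⌊x * 2 ^ m⌋₊ / 2 ^ (m - n) := by
  have : x * 2 ^ n = (x * 2 ^ m) / ((2 ^ (m - n) : ℕ) : ℝ) := by
    push_cast
    rw [eq_div_iff (by positivity), mul_assoc, ← pow_add]
    congr 2
    omega
  rw [this, Nat.floor_div_natCast]

lemma mem_parent {n m l : ℕ} (h : n ≤ m) {x : ℝ} (hx : x ∈ dyadic m l) :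
    x ∈ dyadic n (l / 2 ^ (m - n)) := by
  rw [mem_dyadic_iff] at hx ⊢
  exact ⟨hx.1, by rw [floor_parent h, hx.2]⟩

lemma dyadic_unique {n k k' : ℕ} {x : ℝ} (h : x ∈ dyadic n k) (h' : x ∈ dyadic n k') :
    k = k' := by
  rw [mem_dyadic_iff] at h h'
  rw [← h.2, ← h'.2]

lemma dyadic_split (n k : ℕ) :
    dyadic n k = dyadic (n + 1) (2 * k) ∪ dyadic (n + 1) (2 * k + 1) := by
  ext x
  rw [mem_union, mem_dyadic_iff, mem_dyadic_iff, mem_dyadic_iff,
    floor_parent (Nat.le_succ n) x]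
  have : n.succ - n = 1 := by omega
  rw [this, pow_one]
  constructor
  · rintro ⟨h0, h1⟩
    rcases Nat.mod_two_eq_zero_or_one ⌊x * 2 ^ n.succ⌋₊ with h | h
    · left; exact ⟨h0, by simp only [Nat.succ_eq_add_one] at *; omega⟩
    · right; exact ⟨h0, by simp only [Nat.succ_eq_add_one] at *; omega⟩
  · rintro (⟨h0, h1⟩ | ⟨h0, h1⟩)
    · exact ⟨h0, by simp only [Nat.succ_eq_add_one] at *; omega⟩
    · exact ⟨h0, by simp only [Nat.succ_eq_add_one] at *; omega⟩

lemma dyadic_disj {n k k' : ℕ} (h : k ≠ k') : Disjoint (dyadic n k) (dyadic n k') := by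
  rw [Set.disjoint_left]
  intro x hx hx'
  exact h (dyadic_unique hx hx')

lemma dyadic_subset_unit {n k : ℕ} (hk : k < 2 ^ n) : dyadic n k ⊆ Icc 0 1 := by
  intro x hx
  unfold dyadic at hx
  have h2 : (0:ℝ) < 2 ^ n := by positivity
  have h1 : ((k:ℝ) + 1) ≤ 2 ^ n := by exact_mod_cast hk
  refine ⟨le_trans (by positivity) hx.1, hx.2.le.trans ?_⟩
  rw [div_le_one h2]
  exact h1

lemma measure_dyadic {n k : ℕ} (hk : k < 2 ^ n) :
    unitMeasure.real (dyadic n k) = (1 / 2) ^ n := by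
  unfold unitMeasure
  rw [measureReal_restrict_apply (measurableSet_dyadic n k),
    Set.inter_eq_left.mpr (dyadic_subset_unit hk)]
  unfold dyadic
  rw [Real.volume_real_Ico_of_le]
  · rw [← sub_div, add_sub_cancel_left, one_div, one_div, inv_pow]
  · gcongr
    linarith

lemma dyadic_zero : dyadic 0 0 = Ico 0 1 := by
  unfold dyadic
  norm_num

lemma restrict_root : unitMeasure.restrict (dyadic 0 0) = unitMeasure := by
  unfold unitMeasure
  rw [Measure.restrict_restrict (measurableSet_dyadic 0 0), dyadic_zero]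
  rw [show Ico (0:ℝ) 1 ∩ Icc 0 1 = Ico 0 1 from Set.inter_eq_left.mpr Ico_subset_Icc_self]
  exact Measure.restrict_congr_set Ico_ae_eq_Icc

lemma int_root (g : ℝ → ℝ) : ∫ x in dyadic 0 0, g x ∂unitMeasure = ∫ x, g x ∂unitMeasure := by
  rw [restrict_root]

lemma int_split {g : ℝ → ℝ} (hg : Integrable g unitMeasure) (n k : ℕ) :
    ∫ x in dyadic n k, g x ∂unitMeasure
      = ∫ x in dyadic (n + 1) (2 * k), g x ∂unitMeasure
        + ∫ x in dyadic (n + 1) (2 * k + 1), g x ∂unitMeasure := by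
  rw [dyadic_split n k, setIntegral_union (dyadic_disj (by omega)) (measurableSet_dyadic _ _)
    hg.integrableOn hg.integrableOn]

/-- `2^{-1/p}` -/
noncomputable def rr (p : ℝ) : ℝ := (2:ℝ) ^ (-(1 / p))

lemma rr_pos (p : ℝ) : 0 < rr p := by unfold rr; positivity

lemma rr_lt_one {p : ℝ} (hp : 2 < p) : rr p < 1 := by
  unfold rr
  apply Real.rpow_lt_one_of_one_lt_of_neg (by norm_num)
  have : 0 < 1 / p := by positivity
  linarith

lemma rr_rpow {p : ℝ} (hp : 2 < p) : rr p ^ p = 1 / 2 := by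
  unfold rr
  rw [← Real.rpow_mul (by norm_num)]
  have : -(1 / p) * p = -1 := by field_simp
  rw [this, Real.rpow_neg_one]
  norm_num

lemma rr_sq {p : ℝ} (hp : 2 < p) : 1 / 2 < rr p ^ 2 := by
  have h1 : rr p ^ p < rr p ^ (2:ℝ) :=
    Real.rpow_lt_rpow_of_exponent_gt (rr_pos p) (rr_lt_one hp) hp
  rw [rr_rpow hp] at h1
  exact_mod_cast h1

lemma rr_two_thirds {p : ℝ} (hp : 2 < p) : 2 / 3 ≤ rr p := by
  have h := rr_sq hp
  have h0 := rr_pos p
  nlinarith

lemma amp_eq (p : ℝ) (n : ℕ) : ((2:ℝ) ^ n) ^ (1 / p) = (rr p ^ n)⁻¹ := by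
  unfold rr
  rw [← Real.rpow_natCast, ← Real.rpow_natCast, ← Real.rpow_mul (by norm_num),
    ← Real.rpow_mul (by norm_num), ← Real.rpow_neg (by norm_num)]
  congr 1
  ring

lemma rr_pow_rpow {p : ℝ} (hp : 2 < p) (n : ℕ) : (rr p ^ n) ^ p = (1 / 2) ^ n := by
  rw [← Real.rpow_natCast, ← Real.rpow_mul (rr_pos p).le, mul_comm, Real.rpow_mul (rr_pos p).le,
    rr_rpow hp, Real.rpow_natCast]

section
variable {p : ℝ} [Fact (1 ≤ ENNReal.ofReal p)]

lemma coe_haar_one : (haar p .one : ℝ → ℝ) =ᵐ[unitMeasure] fun _ => 1 := by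
  refine (haarFun_memLp p .one).coeFn_toLp.trans ?_
  exact Filter.Eventually.of_forall (fun x => rfl)

lemma coe_haar_node (n : ℕ) (k : Fin (2 ^ n)) :
    (haar p (.node n k) : ℝ → ℝ) =ᵐ[unitMeasure] fun x => (rr p ^ n)⁻¹ *
      ((dyadic (n + 1) (2 * k)).indicator (fun _ => 1) x
        - (dyadic (n + 1) (2 * k + 1)).indicator (fun _ => 1) x) := by
  refine (haarFun_memLp p (.node n k)).coeFn_toLp.trans ?_
  refine Filter.Eventually.of_forall (fun x => ?_)
  simp only [haarFun, amp_eq]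

/-- integral of `U(f)` over a dyadic interval -/
noncomputable def VV (f : LpUnit p) (n k : ℕ) : ℝ := ∫ x in dyadic n k, U p (f x) ∂unitMeasure

/-- integral of `f` over a dyadic interval -/
noncomputable def AA (f : LpUnit p) (n k : ℕ) : ℝ := ∫ x in dyadic n k, f x ∂unitMeasure

/-- integral of `|f|^{p-2}` over a dyadic interval -/
noncomputable def WW (f : LpUnit p) (n k : ℕ) : ℝ :=
  ∫ x in dyadic n k, |f x| ^ (p - 2) ∂unitMeasure

lemma VV_split (hp : 2 < p) (f : LpUnit p) (n k : ℕ) :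
    VV f n k = VV f (n + 1) (2 * k) + VV f (n + 1) (2 * k + 1) :=
  int_split (int_U hp f) n k

lemma AA_split (hp : 2 < p) (f : LpUnit p) (n k : ℕ) :
    AA f n k = AA f (n + 1) (2 * k) + AA f (n + 1) (2 * k + 1) :=
  int_split (int_self hp f) n k

lemma WW_split (hp : 2 < p) (f : LpUnit p) (n k : ℕ) :
    WW f n k = WW f (n + 1) (2 * k) + WW f (n + 1) (2 * k + 1) :=
  int_split (int_pm2 hp f) n k

lemma pair_one (f : LpUnit p) : pair f (haar p .one) = VV f 0 0 := by
  unfold pair VV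
  rw [int_root]
  apply integral_congr_ae
  filter_upwards [coe_haar_one (p := p)] with x hx
  rw [hx, mul_one]

lemma int_mul_indicator {g : ℝ → ℝ} (n k : ℕ) :
    ∫ x, g x * (dyadic n k).indicator (fun _ => 1) x ∂unitMeasure
      = ∫ x in dyadic n k, g x ∂unitMeasure := by
  rw [← integral_indicator (measurableSet_dyadic n k)]
  congr 1
  ext x
  by_cases hx : x ∈ dyadic n k <;> simp [Set.indicator, hx]

lemma integrable_mul_indicator {g : ℝ → ℝ} (hg : Integrable g unitMeasure) (n k : ℕ) :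
    Integrable (fun x => g x * (dyadic n k).indicator (fun _ => 1) x) unitMeasure := by
  have : (fun x => g x * (dyadic n k).indicator (fun _ => (1:ℝ)) x)
      = (dyadic n k).indicator g := by
    ext x
    by_cases hx : x ∈ dyadic n k <;> simp [Set.indicator, hx]
  rw [this]
  exact hg.indicator (measurableSet_dyadic n k)

lemma int_mul_haar {g : ℝ → ℝ} (hg : Integrable g unitMeasure) (n : ℕ) (k : Fin (2 ^ n)) :
    ∫ x, g x * (haar p (.node n k)) x ∂unitMeasure = (rr p ^ n)⁻¹ *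
      (∫ x in dyadic (n + 1) (2 * k), g x ∂unitMeasure
        - ∫ x in dyadic (n + 1) (2 * k + 1), g x ∂unitMeasure) := by
  have h1 : ∫ x, g x * (haar p (.node n k)) x ∂unitMeasure
      = ∫ x, (rr p ^ n)⁻¹ * (g x * (dyadic (n + 1) (2 * k)).indicator (fun _ => 1) x
        - g x * (dyadic (n + 1) (2 * k + 1)).indicator (fun _ => 1) x) ∂unitMeasure := by
    apply integral_congr_ae
    filter_upwards [coe_haar_node (p := p) n k] with x hx
    rw [hx]
    ring
  rw [h1, integral_const_mul, integral_sub (integrable_mul_indicator hg _ _)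
    (integrable_mul_indicator hg _ _), int_mul_indicator, int_mul_indicator]

lemma pair_node (hp : 2 < p) (f : LpUnit p) (n : ℕ) (k : Fin (2 ^ n)) :
    pair f (haar p (.node n k))
      = (rr p ^ n)⁻¹ * (VV f (n + 1) (2 * k) - VV f (n + 1) (2 * k + 1)) :=
  int_mul_haar (int_U hp f) n k

/-- the square of a Haar function -/
lemma haar_sq (n : ℕ) (k : Fin (2 ^ n)) (x : ℝ) :
    ((rr p ^ n)⁻¹ * ((dyadic (n + 1) (2 * k)).indicator (fun _ => (1:ℝ)) x
        - (dyadic (n + 1) (2 * k + 1)).indicator (fun _ => 1) x)) ^ 2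
      = ((rr p ^ n)⁻¹) ^ 2 * (dyadic n k).indicator (fun _ => 1) x := by
  have hd : Disjoint (dyadic (n + 1) (2 * (k:ℕ))) (dyadic (n + 1) (2 * (k:ℕ) + 1)) :=
    dyadic_disj (by omega)
  have hs := dyadic_split n k
  rw [mul_pow]
  congr 1
  by_cases h1 : x ∈ dyadic (n + 1) (2 * (k:ℕ))
  · have h2 : x ∉ dyadic (n + 1) (2 * (k:ℕ) + 1) := Set.disjoint_left.mp hd h1
    have h3 : x ∈ dyadic n k := by rw [hs]; exact Or.inl h1
    simp [Set.indicator, h1, h2, h3]
  · by_cases h2 : x ∈ dyadic (n + 1) (2 * (k:ℕ) + 1)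
    · have h3 : x ∈ dyadic n k := by rw [hs]; exact Or.inr h2
      simp [Set.indicator, h1, h2, h3]
    · have h3 : x ∉ dyadic n k := by rw [hs]; rintro (h | h) <;> contradiction
      simp [Set.indicator, h1, h2, h3]

lemma haar_abs_rpow (hp : 2 < p) (n : ℕ) (k : Fin (2 ^ n)) (x : ℝ) :
    |(rr p ^ n)⁻¹ * ((dyadic (n + 1) (2 * k)).indicator (fun _ => (1:ℝ)) x
        - (dyadic (n + 1) (2 * k + 1)).indicator (fun _ => 1) x)| ^ p
      = 2 ^ n * (dyadic n k).indicator (fun _ => 1) x := by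
  have h := haar_sq (p := p) n k x
  set z := (rr p ^ n)⁻¹ * ((dyadic (n + 1) (2 * k)).indicator (fun _ => (1:ℝ)) x
        - (dyadic (n + 1) (2 * k + 1)).indicator (fun _ => 1) x) with hz
  have hr : 0 < rr p ^ n := pow_pos (rr_pos p) n
  by_cases h3 : x ∈ dyadic n k
  · simp only [Set.indicator, h3, if_true, mul_one] at h ⊢
    have h4 : |z| = (rr p ^ n)⁻¹ := by
      rw [← sq_abs] at h
      exact (pow_left_inj₀ (abs_nonneg _) (by positivity) (by norm_num)).mp h
    rw [h4, Real.inv_rpow hr.le, rr_pow_rpow hp]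
    simp
  · simp only [Set.indicator, h3, if_false, mul_zero] at h ⊢
    have h4 : z = 0 := by
      exact pow_eq_zero_iff (by norm_num) |>.mp h
    rw [h4, abs_zero, Real.zero_rpow (by linarith)]

lemma wsq_node (f : LpUnit p) (n : ℕ) (k : Fin (2 ^ n)) :
    wsq f (haar p (.node n k)) = ((rr p ^ n)⁻¹) ^ 2 * WW f n k := by
  unfold wsq WW
  have h1 : ∫ x, |f x| ^ (p - 2) * (haar p (.node n k) x) ^ 2 ∂unitMeasure
      = ∫ x, ((rr p ^ n)⁻¹) ^ 2 *
        (|f x| ^ (p - 2) * (dyadic n k).indicator (fun _ => 1) x) ∂unitMeasure := by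
    apply integral_congr_ae
    filter_upwards [coe_haar_node (p := p) n k] with x hx
    rw [hx, haar_sq]
    ring
  rw [h1, integral_const_mul, int_mul_indicator]

lemma norm_haar (hp : 2 < p) (i : HaarIndex) : ‖haar p i‖ = 1 := by
  have key : ‖haar p i‖ ^ p = 1 := by
    rw [norm_rpow hp]
    cases i with
    | one =>
      have : ∫ x, |haar p .one x| ^ p ∂unitMeasure = ∫ x, (1:ℝ) ∂unitMeasure := by
        apply integral_congr_ae
        filter_upwards [coe_haar_one (p := p)] with x hx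
        rw [hx]; simp
      rw [this]
      have h2 := int_root (fun _ => (1:ℝ))
      rw [← h2]
      rw [setIntegral_const, measure_dyadic (by norm_num)]
      simp
    | node n k =>
      have : ∫ x, |haar p (.node n k) x| ^ p ∂unitMeasure
          = ∫ x, (2:ℝ) ^ n * (dyadic n k).indicator (fun _ => (1:ℝ)) x ∂unitMeasure := by
        apply integral_congr_ae
        filter_upwards [coe_haar_node (p := p) n k] with x hx
        rw [hx]
        exact haar_abs_rpow hp n k x
      rw [this, integral_const_mul, integral_indicator (measurableSet_dyadic _ _),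
        setIntegral_const, measure_dyadic k.2]
      rw [smul_eq_mul, mul_one, ← mul_pow]
      norm_num
  have h0 : 0 ≤ ‖haar p i‖ := norm_nonneg _
  have := congrArg (fun z => z ^ (p⁻¹)) key
  simp only [← Real.rpow_mul h0, mul_inv_cancel₀ (by linarith : p ≠ 0), Real.rpow_one,
    Real.one_rpow] at this
  exact this

/-- T1: integrals of `U(f)` over dyadic intervals are controlled by the signals. -/
lemma VV_bound (hp : 2 < p) (f : LpUnit p) {S : ℝ}
    (hS : ∀ i, |pair f (haar p i)| ≤ S) :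
    ∀ (n k : ℕ), k < 2 ^ n → |VV f n k| ≤ 3 * S * rr p ^ n := by
  have hS0 : 0 ≤ S := (abs_nonneg _).trans (hS .one)
  intro n
  induction n with
  | zero =>
    intro k hk
    have hk0 : k = 0 := by simpa using hk
    subst hk0
    have := hS .one
    rw [pair_one] at this
    simp only [pow_zero, mul_one]
    linarith
  | succ n ih =>
    intro k hk
    have hj : k / 2 < 2 ^ n := by
      rw [pow_succ] at hk
      omega
    have h1 := ih (k / 2) hj
    have h2 := hS (.node n ⟨k / 2, hj⟩)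
    rw [pair_node hp] at h2
    simp only at h2
    have hr : 0 < rr p ^ n := pow_pos (rr_pos p) n
    rw [abs_mul, abs_of_pos (inv_pos.mpr hr), inv_mul_le_iff₀ hr] at h2
    have h3 := VV_split hp f n (k / 2)
    set a := VV f (n + 1) (2 * (k / 2)) with ha
    set b := VV f (n + 1) (2 * (k / 2) + 1) with hb
    rw [h3] at h1
    have h4 := abs_le.mp h1
    have h5 := abs_le.mp h2
    have h6 := rr_two_thirds hp
    have h7 : 2 * S * rr p ^ n ≤ 3 * S * rr p ^ (n + 1) := by
      rw [pow_succ]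
      have : 0 ≤ S * rr p ^ n := by positivity
      nlinarith
    have h8 : |a| ≤ 2 * S * rr p ^ n := by
      rw [abs_le]; constructor <;> linarith [h4.1, h4.2, h5.1, h5.2]
    have h9 : |b| ≤ 2 * S * rr p ^ n := by
      rw [abs_le]; constructor <;> linarith [h4.1, h4.2, h5.1, h5.2]
    rcases Nat.mod_two_eq_zero_or_one k with h | h
    · have : k = 2 * (k / 2) := by omega
      rw [this]
      exact h8.trans h7
    · have : k = 2 * (k / 2) + 1 := by omega
      rw [this]
      exact h9.trans h7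

end

end Pool.Agent.H71.Haar
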