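import Pool.Agent.H71.Haar.Run

/-! The final induction. -/

open MeasureTheory Set
open scoped ENNReal

set_option linter.unusedSectionVars false

namespace Pool.Agent.H71.Haar

section
variable {p : ℝ} [Fact (1 ≤ ENNReal.ofReal p)]

/-- `GoodSplit` collects the hypotheses on a splitting of the sparse part at time `k`. -/
structure Split (A Γ R : Finset HaarIndex) (φ : ℕ → HaarIndex) (k : ℕ) : Prop where
  sub1 : Γ ⊆ A
  sub2 : R ⊆ A
  disj : Disjoint Γ R
  cov : ∀ i ∈ A, i ∉ Γ → i ∉ R → i ∈ Lam φ k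
  ne : Γ.Nonempty

/-- Halving lemma. -/
theorem halve (hp : 2 < p) {t : ℝ} (ht0 : 0 < t) (ht1 : t ≤ 1) :
    ∃ K : ℕ, 0 < K ∧ ∀ (f : LpUnit p) (φ : ℕ → HaarIndex) (r : ℕ → LpUnit p),
      IsWCGA (haar p) t f φ r → ∀ (A : Finset HaarIndex) (a : HaarIndex → ℝ) (γ : ℝ),
      ‖f - PS p a A‖ ≤ γ → ∀ (k k' : ℕ), k ≤ k' → ∀ Γ R : Finset HaarIndex, Split A Γ R φ k →
      ‖r (k' + K * Γ.card)‖ ≤ 2 * (‖PS p a R‖ + γ) ∨
        ‖r (k' + K * Γ.card)‖ ^ p ≤ (1 / 2) * ‖r k'‖ ^ p := by
  obtain ⟨C, hC, hcore⟩ := core_run (p := p) hp ht0 ht1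
  set Q : ℝ := (2 * (1 + 2 ^ (p + 1))) ^ p with hQ
  have hQpos : 0 < Q := by positivity
  obtain ⟨K, hK⟩ := exists_nat_gt (2 + 2 * C * Q)
  have hK0 : 0 < K := by
    have : (0:ℝ) < K := lt_trans (by positivity) hK
    exact_mod_cast this
  refine ⟨K, hK0, ?_⟩
  intro f φ r H A a γ hγ k k' hkk' Γ R hs
  by_contra hcon
  push Not at hcon
  obtain ⟨hc1, hc2⟩ := hcon
  set n := K * Γ.card with hn
  have hcard : (1:ℝ) ≤ Γ.card := by exact_mod_cast Finset.card_pos.mpr hs.ne
  have hanti := run_anti H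
  have hp0 : 0 < p := by linarith
  set Φ := ‖r k'‖ ^ p with hΦ
  have hΦ0 : 0 < Φ := by
    have h0 : 0 ≤ Φ := Real.rpow_nonneg (norm_nonneg _) _
    have h1 : ‖r (k' + n)‖ ^ p ≤ Φ :=
      Real.rpow_le_rpow (norm_nonneg _) (hanti (Nat.le_add_right _ _)) hp0.le
    by_contra h2
    have h3 : Φ = 0 := le_antisymm (not_lt.mp h2) h0
    rw [h3] at h1 hc2
    linarith
  set X := Φ / (2 * Q * Γ.card) with hX
  have hX0 : 0 < X := by positivity
  set σ0 := X ^ (p⁻¹) with hσ0
  have hσ0pos : 0 < σ0 := Real.rpow_pos_of_pos hX0 _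
  have hσ0p : σ0 ^ p = X := by
    rw [hσ0, ← Real.rpow_mul hX0.le, inv_mul_cancel₀ hp0.ne', Real.rpow_one]
  have hsig : ∀ j, k' ≤ j → j < k' + n → σ0 ≤ sig p t φ r j := by
    intro j hj1 hj2
    have h1 : ‖r (k' + n)‖ ≤ ‖r j‖ := hanti hj2.le
    have h2 : 2 * (‖PS p a R‖ + γ) ≤ ‖r j‖ := hc1.le.trans h1
    have h3 := signal_lower hp ht0 H A a hγ k j (by omega) Γ R hs.sub1 hs.sub2 hs.disj hs.cov
      hs.ne h2
    have h4 : ‖r (k' + n)‖ ^ p ≤ ‖r j‖ ^ p := Real.rpow_le_rpow (norm_nonneg _) h1 hp0.le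
    have h5 : (1 / 2) * Φ ≤ Q * Γ.card * (sig p t φ r j) ^ p := by
      refine le_trans hc2.le (le_trans h4 ?_)
      exact h3
    have h6 : σ0 ^ p ≤ (sig p t φ r j) ^ p := by
      rw [hσ0p, hX, div_le_iff₀ (by positivity)]
      linarith
    exact (Real.rpow_le_rpow_iff hσ0pos.le (sig_nonneg ht0 j) hp0).mp h6
  have h := hcore f φ r H k' n σ0 hσ0pos hsig
  rw [hσ0p, ← hΦ] at h
  -- n X ≤ 2 X + C Φ
  have h1 : Φ = 2 * Q * Γ.card * X := by rw [hX]; field_simp
  have h2 : (n : ℝ) * X ≤ (2 + 2 * C * Q * Γ.card) * X := by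
    calc (n : ℝ) * X ≤ 2 * X + C * Φ := h
      _ = (2 + 2 * C * Q * Γ.card) * X := by rw [h1]; ring
  have h3 : (n : ℝ) ≤ 2 + 2 * C * Q * Γ.card := le_of_mul_le_mul_right h2 hX0
  have h4 : (n : ℝ) = K * Γ.card := by rw [hn]; push_cast; ring
  rw [h4] at h3
  have h5 : (2 + 2 * C * Q) * Γ.card < K * (Γ.card : ℝ) :=
    mul_lt_mul_of_pos_right hK (by linarith)
  linarith

/-- Decay lemma: reduce the norm by a factor `μ`. -/
theorem decay (hp : 2 < p) {t : ℝ} (ht0 : 0 < t) (ht1 : t ≤ 1) {μ : ℝ} (hμ : 1 ≤ μ) :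
    ∃ K : ℕ, 0 < K ∧ ∀ (f : LpUnit p) (φ : ℕ → HaarIndex) (r : ℕ → LpUnit p),
      IsWCGA (haar p) t f φ r → ∀ (A : Finset HaarIndex) (a : HaarIndex → ℝ) (γ : ℝ),
      ‖f - PS p a A‖ ≤ γ → ∀ (k k' : ℕ), k ≤ k' → ∀ Γ R : Finset HaarIndex, Split A Γ R φ k →
      ‖r (k' + K * Γ.card)‖ ≤ 2 * (‖PS p a R‖ + γ) ∨
        ‖r (k' + K * Γ.card)‖ ≤ ‖r k'‖ / μ := by
  obtain ⟨K, hK0, hK⟩ := halve (p := p) hp ht0 ht1
  have hp0 : 0 < p := by linarith
  have hμ0 : 0 < μ := by linarith
  obtain ⟨J, hJ⟩ : ∃ J : ℕ, (1 / 2 : ℝ) ^ J ≤ μ⁻¹ ^ p := by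
    have h1 : 0 < μ⁻¹ ^ p := Real.rpow_pos_of_pos (inv_pos.mpr hμ0) _
    obtain ⟨J, hJ⟩ := exists_pow_lt_of_lt_one h1 (by norm_num : (1 / 2 : ℝ) < 1)
    exact ⟨J, hJ.le⟩
  refine ⟨(J + 1) * K, by positivity, ?_⟩
  intro f φ r H A a γ hγ k k' hkk' Γ R hs
  have hanti := run_anti H
  have key : ∀ j : ℕ, ‖r (k' + j * K * Γ.card)‖ ≤ 2 * (‖PS p a R‖ + γ) ∨
      ‖r (k' + j * K * Γ.card)‖ ^ p ≤ (1 / 2) ^ j * ‖r k'‖ ^ p := by
    intro j
    induction j with
    | zero => right; simp
    | succ j ih =>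
      have e : k' + (j + 1) * K * Γ.card = (k' + j * K * Γ.card) + K * Γ.card := by ring
      rcases ih with ih | ih
      · left
        rw [e]
        exact (hanti (Nat.le_add_right _ _)).trans ih
      · have h := hK f φ r H A a γ hγ k (k' + j * K * Γ.card) (by omega) Γ R hs
        rw [e]
        rcases h with h | h
        · left; exact h
        · right
          calc _ ≤ _ := h
            _ ≤ (1 / 2) * ((1 / 2) ^ j * ‖r k'‖ ^ p) :=
                mul_le_mul_of_nonneg_left ih (by norm_num)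
            _ = _ := by rw [pow_succ]; ring
  rcases key (J + 1) with h | h
  · left; exact h
  · right
    have h1 : ‖r (k' + (J + 1) * K * Γ.card)‖ ^ p ≤ (‖r k'‖ / μ) ^ p := by
      calc _ ≤ _ := h
        _ ≤ (1 / 2) ^ J * ‖r k'‖ ^ p := by
            apply mul_le_mul_of_nonneg_right _ (Real.rpow_nonneg (norm_nonneg _) _)
            exact pow_le_pow_of_le_one (by norm_num) (by norm_num) (Nat.le_succ J)
        _ ≤ μ⁻¹ ^ p * ‖r k'‖ ^ p :=
            mul_le_mul_of_nonneg_right hJ (Real.rpow_nonneg (norm_nonneg _) _)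
        _ = (‖r k'‖ / μ) ^ p := by
            rw [← Real.mul_rpow (inv_pos.mpr hμ0).le (norm_nonneg _)]
            congr 1
            rw [div_eq_inv_mul]
    exact (Real.rpow_le_rpow_iff (norm_nonneg _) (by positivity) hp0).mp h1

/-! ### Nested sets of large coefficients -/

lemma exists_top (B : Finset HaarIndex) (a : HaarIndex → ℝ) :
    ∃ top : ℕ → Finset HaarIndex, (∀ s, top s ⊆ B) ∧ (∀ s, (top s).card = min s B.card) ∧
      (∀ s s', s ≤ s' → top s ⊆ top s') ∧
      (∀ s, ∀ i ∈ top s, ∀ j ∈ B, j ∉ top s → |a j| ≤ |a i|) := by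
  classical
  -- step: add an element with maximal coefficient
  have hstep : ∀ S : Finset HaarIndex, ∃ S' : Finset HaarIndex, S ⊆ S' ∧
      (S ⊆ B → S' ⊆ B) ∧ (S ⊆ B → S'.card = min (S.card + 1) B.card) ∧
      (S ⊆ B → (∀ i ∈ S, ∀ j ∈ B, j ∉ S → |a j| ≤ |a i|) →
        (∀ i ∈ S', ∀ j ∈ B, j ∉ S' → |a j| ≤ |a i|)) := by
    intro S
    by_cases h : (B \ S).Nonempty
    · obtain ⟨x, hx, hmax⟩ := Finset.exists_max_image (B \ S) (fun i => |a i|) h
      rw [Finset.mem_sdiff] at hx
      refine ⟨insert x S, Finset.subset_insert _ _, ?_, ?_, ?_⟩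
      · intro hS
        exact Finset.insert_subset hx.1 hS
      · intro hS
        rw [Finset.card_insert_of_notMem hx.2]
        have : (insert x S).card ≤ B.card := Finset.card_le_card (Finset.insert_subset hx.1 hS)
        rw [Finset.card_insert_of_notMem hx.2] at this
        exact (min_eq_left this).symm
      · intro hS hS2 i hi j hj hj'
        rw [Finset.mem_insert, not_or] at hj'
        rw [Finset.mem_insert] at hi
        rcases hi with hi | hi
        · rw [hi]
          exact hmax j (Finset.mem_sdiff.mpr ⟨hj, hj'.2⟩)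
        · exact hS2 i hi j hj hj'.2
    · rw [Finset.not_nonempty_iff_eq_empty, Finset.sdiff_eq_empty_iff_subset] at h
      refine ⟨S, Finset.Subset.refl _, fun hS => hS, ?_, fun _ h => h⟩
      intro hS
      have : S = B := Finset.Subset.antisymm hS h
      rw [this]
      simp
  choose step h1 h2 h3 h4 using hstep
  set top : ℕ → Finset HaarIndex := fun s => step^[s] ∅ with htop
  have hsucc : ∀ s, top (s + 1) = step (top s) := by
    intro s
    simp only [htop, Function.iterate_succ_apply']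
  have hB : ∀ s, top s ⊆ B := by
    intro s
    induction s with
    | zero => simp [htop]
    | succ s ih => rw [hsucc]; exact h2 _ ih
  refine ⟨top, hB, ?_, ?_, ?_⟩
  · intro s
    induction s with
    | zero => simp [htop]
    | succ s ih =>
      rw [hsucc, h3 _ (hB s), ih]
      omega
  · intro s s' hss'
    induction s', hss' using Nat.le_induction with
    | base => exact Finset.Subset.refl _
    | succ n _ ih => rw [hsucc]; exact ih.trans (h1 _)
  · intro s
    induction s with
    | zero => intro i hi; simp [htop] at hi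
    | succ s ih =>
      rw [hsucc]
      exact h4 _ (hB s) ih

/-- The inductive statement. -/
theorem zhang (hp : 2 < p) {t : ℝ} (ht0 : 0 < t) (ht1 : t ≤ 1) :
    ∃ K : ℕ, 0 < K ∧ ∀ (f : LpUnit p) (φ : ℕ → HaarIndex) (r : ℕ → LpUnit p),
      IsWCGA (haar p) t f φ r → ∀ (A : Finset HaarIndex) (a : HaarIndex → ℝ) (γ : ℝ),
      ‖f - PS p a A‖ ≤ γ → ∀ (b k : ℕ) (B : Finset HaarIndex), B ⊆ A → B.card ≤ b →
      (∀ i ∈ A, i ∉ B → i ∈ Lam φ k) → (∀ i ∈ B, i ∉ Lam φ k) →
      ‖r (k + 8 * K * b)‖ ≤ 4 * γ := by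
  classical
  have hKd := Kd_gt hp
  set μ : ℝ := 128 * Kd p with hμ
  have hμ1 : 1 ≤ μ := by rw [hμ]; linarith
  have hμ128 : 128 ≤ μ := by rw [hμ]; linarith
  have hμ0 : 0 < μ := by linarith
  have hp0 : 0 < p := by linarith
  obtain ⟨K, hK0, hdecay⟩ := decay (p := p) hp ht0 ht1 hμ1
  refine ⟨K, hK0, ?_⟩
  intro f φ r H A a γ hγ
  have hγ0 : 0 ≤ γ := (norm_nonneg _).trans hγ
  have hanti := run_anti H
  intro b
  induction b using Nat.strong_induction_on with
  | _ b IH =>
  intro k B hBA hBcard hcov hBL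
  rcases Nat.eq_zero_or_pos B.card with hB0 | hBpos
  · -- everything picked
    rw [Finset.card_eq_zero] at hB0
    subst hB0
    have h1 : ‖r k‖ ≤ ‖f - PS p a A‖ := by
      apply run_best H
      apply PS_mem
      intro i hi
      exact hcov i hi (by simp)
    calc ‖r (k + 8 * K * b)‖ ≤ ‖r k‖ := hanti (Nat.le_add_right _ _)
      _ ≤ γ := h1.trans hγ
      _ ≤ 4 * γ := by linarith
  obtain ⟨top, htB, htcard, htmono, htmax⟩ := exists_top B a
  -- sizes
  set nn : ℕ → ℕ := fun l => if l = 0 then 0 else 2 ^ (l - 1) with hnn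
  have hnn0 : nn 0 = 0 := by simp [hnn]
  have hnns : ∀ l, nn (l + 1) = 2 ^ l := by intro l; simp [hnn]
  set τ : ℕ → ℝ := fun l => ‖PS p a (B \ top (nn l))‖ with hτ
  have hτ0 : ∀ l, 0 ≤ τ l := fun l => norm_nonneg _
  -- existence of L
  have hex : ∃ l, μ * τ (l + 1) ≤ τ l := by
    refine ⟨B.card, ?_⟩
    have h1 : top (nn (B.card + 1)) = B := by
      apply Finset.eq_of_subset_of_card_le (htB _)
      rw [htcard, hnns]
      have : B.card < 2 ^ B.card := Nat.lt_two_pow_self
      omega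
    have h2 : τ (B.card + 1) = 0 := by
      simp only [hτ, h1, Finset.sdiff_self]
      simp [PS]
    rw [h2, mul_zero]
    exact hτ0 _
  set l0 := Nat.find hex with hl0
  have hl0spec : μ * τ (l0 + 1) ≤ τ l0 := Nat.find_spec hex
  have hl0min : ∀ l < l0, τ l < μ * τ (l + 1) := by
    intro l hl
    have := Nat.find_min hex hl
    exact not_le.mp this
  -- splitting used at stage l
  have hsplit : ∀ s, 0 < s → Split A (top s) (B \ top s) φ k := by
    intro s hs
    refine ⟨(htB s).trans hBA, Finset.sdiff_subset.trans hBA, Finset.disjoint_sdiff, ?_, ?_⟩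
    · intro i hi h1 h2
      apply hcov i hi
      intro h3
      exact h2 (Finset.mem_sdiff.mpr ⟨h3, h1⟩)
    · rw [← Finset.card_pos, htcard]
      omega
  -- start: ‖r k‖ ≤ τ 0 + γ
  have hstart : ‖r k‖ ≤ τ 0 + γ := by
    have h1 : ‖r k‖ ≤ ‖f - PS p a (A \ B)‖ := by
      apply run_best H
      apply PS_mem
      intro i hi
      rw [Finset.mem_sdiff] at hi
      exact hcov i hi.1 hi.2
    have h2 : PS p a A = PS p a (A \ B) + PS p a B := by
      rw [← PS_union a (A \ B) B Finset.sdiff_disjoint, Finset.sdiff_union_of_subset hBA]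
    have h3 : f - PS p a (A \ B) = (f - PS p a A) + PS p a B := by rw [h2]; abel
    have h4 : top 0 = ∅ := by
      rw [← Finset.card_eq_zero, htcard]; simp
    have h5 : τ 0 = ‖PS p a B‖ := by
      simp only [hτ, hnn0, h4, Finset.sdiff_empty]
    rw [h3] at h1
    rw [h5]
    calc ‖r k‖ ≤ _ := h1
      _ ≤ ‖f - PS p a A‖ + ‖PS p a B‖ := norm_add_le _ _
      _ ≤ _ := by linarith
  -- phases
  have hphase : ∀ l, l ≤ l0 → ‖r (k + K * (2 ^ l - 1))‖ ≤ 2 * (τ l + γ) := by
    intro l
    induction l with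
    | zero =>
      intro _
      simp only [pow_zero, Nat.sub_self, mul_zero, add_zero]
      have := hτ0 0
      linarith
    | succ l ih =>
      intro hl
      have ih' := ih (by omega)
      have hlt := hl0min l (by omega)
      have h1 := hdecay f φ r H A a γ hγ k (k + K * (2 ^ l - 1)) (by omega) (top (2 ^ l))
        (B \ top (2 ^ l)) (hsplit (2 ^ l) (by positivity))
      have h2 : k + K * (2 ^ l - 1) + K * (top (2 ^ l)).card ≤ k + K * (2 ^ (l + 1) - 1) := by
        have hc : (top (2 ^ l)).card ≤ 2 ^ l := by rw [htcard]; exact min_le_left _ _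
        have h3 : (2:ℕ) ^ (l + 1) - 1 = (2 ^ l - 1) + 2 ^ l := by
          rw [pow_succ]
          have : 0 < 2 ^ l := by positivity
          omega
        rw [h3, mul_add]
        have := Nat.mul_le_mul_left K hc
        omega
      have h3 := hanti h2
      simp only at h3
      have h4 : ‖PS p a (B \ top (2 ^ l))‖ = τ (l + 1) := by simp only [hτ, hnns]
      rw [h4] at h1
      refine h3.trans ?_
      rcases h1 with h1 | h1
      · exact h1
      · refine h1.trans ?_
        rw [div_le_iff₀ hμ0]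
        refine ih'.trans ?_
        have h5 : γ ≤ γ * μ := by nlinarith
        have h6 : 2 * (τ (l + 1) + γ) * μ = 2 * (μ * τ (l + 1) + γ * μ) := by ring
        rw [h6]
        linarith
  have hph := hphase l0 le_rfl
  -- last phase
  have hlast : ‖r (k + K * (2 ^ (l0 + 1) - 1))‖ ≤ 2 * τ l0 / μ + 2 * γ := by
    have h1 := hdecay f φ r H A a γ hγ k (k + K * (2 ^ l0 - 1)) (by omega) (top (2 ^ l0))
      (B \ top (2 ^ l0)) (hsplit (2 ^ l0) (by positivity))
    have h2 : k + K * (2 ^ l0 - 1) + K * (top (2 ^ l0)).card ≤ k + K * (2 ^ (l0 + 1) - 1) := by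
      have hc : (top (2 ^ l0)).card ≤ 2 ^ l0 := by rw [htcard]; exact min_le_left _ _
      have h3 : (2:ℕ) ^ (l0 + 1) - 1 = (2 ^ l0 - 1) + 2 ^ l0 := by
        rw [pow_succ]
        have : 0 < 2 ^ l0 := by positivity
        omega
      rw [h3, mul_add]
      have := Nat.mul_le_mul_left K hc
      omega
    have h3 := hanti h2
    simp only at h3
    have h4 : ‖PS p a (B \ top (2 ^ l0))‖ = τ (l0 + 1) := by simp only [hτ, hnns]
    rw [h4] at h1
    have h5 : τ (l0 + 1) ≤ τ l0 / μ := by
      rw [le_div_iff₀ hμ0]; linarith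
    have h6 : 2 * τ l0 / μ = 2 * (τ l0 / μ) := by ring
    have h7 : 0 ≤ τ l0 / μ := div_nonneg (hτ0 _) hμ0.le
    rw [h6]
    refine h3.trans ?_
    rcases h1 with h1 | h1
    · linarith
    · refine h1.trans ?_
      calc ‖r (k + K * (2 ^ l0 - 1))‖ / μ ≤ (2 * (τ l0 + γ)) / μ :=
            div_le_div_of_nonneg_right hph hμ0.le
        _ = 2 * (τ l0 / μ) + 2 * γ / μ := by ring
        _ ≤ 2 * (τ l0 / μ) + 2 * γ := by
            have : 2 * γ / μ ≤ 2 * γ := div_le_self (by linarith) hμ1
            linarith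
  -- size q
  set q : ℕ := if l0 = 0 then 1 else 2 ^ (l0 - 1) with hq
  have hq1 : 1 ≤ q := by
    rw [hq]; split_ifs
    · exact le_rfl
    · exact Nat.one_le_two_pow
  have hqB : q ≤ B.card := by
    rw [hq]
    split_ifs with h
    · exact hBpos
    · obtain ⟨l, hl⟩ := Nat.exists_eq_succ_of_ne_zero h
      have h1 := hl0min l (by omega)
      have h2 : 0 < τ l0 := by
        rw [hl]
        have := hτ0 l
        by_contra h3
        have h4 : τ (Nat.succ l) = 0 := le_antisymm (not_lt.mp h3) (hτ0 _)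
        rw [Nat.succ_eq_add_one] at h4
        rw [h4, mul_zero] at h1
        linarith
      by_contra h3
      push Not at h3
      have h4 : top (nn l0) = B := by
        apply Finset.eq_of_subset_of_card_le (htB _)
        rw [htcard]
        have : nn l0 = 2 ^ (l0 - 1) := by simp [hnn, h]
        rw [this]
        omega
      have h5 : τ l0 = 0 := by
        simp only [hτ, h4, Finset.sdiff_self]
        simp [PS]
      linarith
  have hpow4 : 2 ^ (l0 + 1) - 1 ≤ 4 * q := by
    rw [hq]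
    split_ifs with h
    · rw [h]; norm_num
    · obtain ⟨l, hl⟩ := Nat.exists_eq_succ_of_ne_zero h
      rw [hl]
      simp only [Nat.succ_eq_add_one, Nat.add_sub_cancel]
      rw [pow_succ, pow_succ]
      omega
  rcases le_total (τ l0) (μ * γ) with hcase | hcase
  · -- case 1
    have h1 : ‖r (k + K * (2 ^ (l0 + 1) - 1))‖ ≤ 4 * γ := by
      refine hlast.trans ?_
      have : 2 * τ l0 / μ ≤ 2 * γ := by
        rw [div_le_iff₀ hμ0]; linarith
      linarith
    refine le_trans (hanti ?_) h1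
    have h2 : K * (2 ^ (l0 + 1) - 1) ≤ K * (4 * q) := Nat.mul_le_mul_left K hpow4
    have h3 : K * (4 * q) ≤ 8 * K * b := by
      have : q ≤ b := hqB.trans hBcard
      nlinarith
    omega
  · -- case 2
    rcases (hτ0 l0).eq_or_lt with hτz | hτpos
    · -- τ l0 = 0 : then γ-case
      have h1 : ‖r (k + K * (2 ^ (l0 + 1) - 1))‖ ≤ 4 * γ := by
        refine hlast.trans ?_
        rw [← hτz]
        simp only [mul_zero, zero_div, zero_add]
        linarith
      refine le_trans (hanti ?_) h1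
      have h2 : K * (2 ^ (l0 + 1) - 1) ≤ K * (4 * q) := Nat.mul_le_mul_left K hpow4
      have h3 : K * (4 * q) ≤ 8 * K * b := by
        have : q ≤ b := hqB.trans hBcard
        nlinarith
      omega
    set k'' := k + K * (2 ^ (l0 + 1) - 1) with hk''
    -- the difference set D
    set D := top (2 ^ l0) \ top (nn l0) with hD
    have hmono0 : top (nn l0) ⊆ top (2 ^ l0) := by
      apply htmono
      simp only [hnn]
      split_ifs
      · exact Nat.zero_le _
      · exact Nat.pow_le_pow_right (by norm_num) (by omega)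
    have hDsplit : PS p a (B \ top (nn l0)) = PS p a D + PS p a (B \ top (2 ^ l0)) := by
      rw [← PS_union]
      · congr 1
        ext i
        simp only [hD, Finset.mem_union, Finset.mem_sdiff]
        constructor
        · rintro ⟨h1, h2⟩
          by_cases h3 : i ∈ top (2 ^ l0)
          · exact Or.inl ⟨h3, h2⟩
          · exact Or.inr ⟨h1, h3⟩
        · rintro (⟨h1, h2⟩ | ⟨h1, h2⟩)
          · exact ⟨htB _ h1, h2⟩
          · exact ⟨h1, fun h => h2 (hmono0 h)⟩
      · rw [Finset.disjoint_left]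
        intro i hi hi'
        rw [hD, Finset.mem_sdiff] at hi
        rw [Finset.mem_sdiff] at hi'
        exact hi'.2 hi.1
    have hPD : τ l0 / 2 ≤ ‖PS p a D‖ := by
      have h1 : τ l0 ≤ ‖PS p a D‖ + τ (l0 + 1) := by
        have e1 : τ l0 = ‖PS p a (B \ top (nn l0))‖ := rfl
        have e2 : τ (l0 + 1) = ‖PS p a (B \ top (2 ^ l0))‖ := by simp only [hτ, hnns]
        rw [e1, e2, hDsplit]
        exact norm_add_le _ _
      have h2 : τ (l0 + 1) ≤ τ l0 / 2 := by
        have : 2 * τ (l0 + 1) ≤ μ * τ (l0 + 1) :=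
          mul_le_mul_of_nonneg_right (by linarith) (hτ0 _)
        linarith
      linarith
    have hDne : D.Nonempty := by
      by_contra h
      rw [Finset.not_nonempty_iff_eq_empty] at h
      rw [h] at hPD
      simp [PS] at hPD
      linarith
    have hDcard : D.card ≤ q := by
      have h1 : D.card = (top (2 ^ l0)).card - (top (nn l0)).card := by
        rw [hD, Finset.card_sdiff_of_subset hmono0]
      rw [h1, htcard, htcard, hq]
      simp only [hnn]
      split_ifs with h
      · rw [h]; simp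
      · obtain ⟨l, hl⟩ := Nat.exists_eq_succ_of_ne_zero h
        rw [hl]
        simp only [Nat.succ_eq_add_one, Nat.add_sub_cancel]
        rw [pow_succ]
        omega
    obtain ⟨x, hxD, hxmax⟩ := Finset.exists_max_image D (fun i => |a i|) hDne
    set α := |a x| with hα
    have hα0 : 0 ≤ α := abs_nonneg _
    -- Θ = top q
    have hΘcard : (top q).card = q := by rw [htcard]; exact min_eq_left hqB
    have hΘ : ∀ i ∈ top q, α ≤ |a i| := by
      intro i hi
      by_cases h : l0 = 0
      · -- D = top 1 is a singleton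
        have hq' : q = 1 := by rw [hq, if_pos h]
        have h1 : D ⊆ top q := by
          rw [hD, hq', h]
          simp only [pow_zero]
          exact Finset.sdiff_subset
        have h2 : (top q).card ≤ 1 := by rw [hΘcard, hq']
        have h3 : i = x := Finset.card_le_one.mp h2 i hi x (h1 hxD)
        rw [h3]
      · have hq' : top q = top (nn l0) := by
          rw [hq, if_neg h]; simp [hnn, h]
        rw [hq'] at hi
        apply htmax (nn l0) i hi x
        · exact htB _ (Finset.mem_sdiff.mp (hD ▸ hxD)).1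
        · exact (Finset.mem_sdiff.mp (hD ▸ hxD)).2
    -- unpicked part of Θ
    set Θ' := (top q).filter (fun i => i ∉ Lam φ k'') with hΘ'
    have hsumΘ : (Θ'.card : ℝ) * α ^ p ≤ 2 ^ p * (‖r k''‖ ^ p + γ ^ p) := by
      have h1 := coef_bound hp H A a hγ k'' Θ'
        ((Finset.filter_subset _ _).trans ((htB q).trans hBA))
        (fun i hi => by rw [hΘ', Finset.mem_filter] at hi; exact hi.2)
      refine le_trans ?_ h1
      calc (Θ'.card : ℝ) * α ^ p = ∑ i ∈ Θ', α ^ p := by rw [Finset.sum_const, nsmul_eq_mul]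
        _ ≤ ∑ i ∈ Θ', |a i| ^ p := by
            apply Finset.sum_le_sum
            intro i hi
            rw [hΘ', Finset.mem_filter] at hi
            exact Real.rpow_le_rpow hα0 (hΘ i hi.1) hp0.le
    have hν : ‖r k''‖ ≤ (4 / μ) * τ l0 := by
      refine hlast.trans ?_
      have h1 : γ ≤ τ l0 / μ := by rw [le_div_iff₀ hμ0]; linarith
      have h2 : (4 / μ) * τ l0 = 2 * τ l0 / μ + 2 * (τ l0 / μ) := by ring
      rw [h2]
      linarith
    have hγν : γ ≤ (4 / μ) * τ l0 := by
      have h1 : γ ≤ τ l0 / μ := by rw [le_div_iff₀ hμ0]; linarith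
      have h2 : (4 / μ) * τ l0 = 4 * (τ l0 / μ) := by ring
      have h3 : 0 ≤ τ l0 / μ := div_nonneg (hτ0 _) hμ0.le
      rw [h2]; linarith
    have hdem := democracy hp D a hα0 (fun i hi => hxmax i hi)
    have hPDp : (τ l0) ^ p ≤ 2 ^ p * ((2 * Kd p * α) ^ p * q) := by
      calc (τ l0) ^ p ≤ (2 * ‖PS p a D‖) ^ p :=
            Real.rpow_le_rpow (hτ0 _) (by linarith) hp0.le
        _ = 2 ^ p * ‖PS p a D‖ ^ p := Real.mul_rpow (by norm_num) (norm_nonneg _)
        _ ≤ 2 ^ p * ((2 * Kd p * α) ^ p * D.card) :=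
            mul_le_mul_of_nonneg_left hdem (by positivity)
        _ ≤ _ := by
            apply mul_le_mul_of_nonneg_left _ (by positivity)
            apply mul_le_mul_of_nonneg_left _ (by positivity)
            exact_mod_cast hDcard
    have hαpos : 0 < α := by
      rcases hα0.eq_or_lt with h | h
      · exfalso
        rw [← h, mul_zero, Real.zero_rpow hp0.ne', zero_mul, mul_zero] at hPDp
        have : 0 < (τ l0) ^ p := Real.rpow_pos_of_pos hτpos _
        linarith
      · exact h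
    have hαp : 0 < α ^ p := Real.rpow_pos_of_pos hαpos _
    -- main bound on Θ'
    have hΘ'card : (Θ'.card : ℝ) ≤ q / 8 := by
      have h1 : ‖r k''‖ ^ p + γ ^ p ≤ 2 * ((4 / μ) ^ p * (τ l0) ^ p) := by
        have e1 : ‖r k''‖ ^ p ≤ ((4 / μ) * τ l0) ^ p := Real.rpow_le_rpow (norm_nonneg _) hν hp0.le
        have e2 : γ ^ p ≤ ((4 / μ) * τ l0) ^ p := Real.rpow_le_rpow hγ0 hγν hp0.le
        rw [Real.mul_rpow (by positivity) (hτ0 _)] at e1 e2
        linarith
      have h2 : (Θ'.card : ℝ) * α ^ p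
          ≤ 2 ^ p * (2 * ((4 / μ) ^ p * (2 ^ p * ((2 * Kd p * α) ^ p * q)))) := by
        refine hsumΘ.trans ?_
        apply mul_le_mul_of_nonneg_left _ (by positivity)
        refine h1.trans ?_
        apply mul_le_mul_of_nonneg_left _ (by norm_num)
        exact mul_le_mul_of_nonneg_left hPDp (by positivity)
      have h3 : (2:ℝ) ^ p * (2 * ((4 / μ) ^ p * (2 ^ p * ((2 * Kd p * α) ^ p * q))))
          = 2 * ((1 / 4) ^ p) * q * α ^ p := by
        have e1 : (2 * Kd p * α) ^ p = (2 * Kd p) ^ p * α ^ p :=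
          Real.mul_rpow (by linarith) hα0
        have e2 : (2:ℝ) ^ p * ((4 / μ) ^ p * (2 ^ p * (2 * Kd p) ^ p)) = (1 / 4) ^ p := by
          rw [← Real.mul_rpow (by norm_num) (by linarith), ← Real.mul_rpow (by positivity)
            (by linarith), ← Real.mul_rpow (by norm_num) (by positivity)]
          congr 1
          rw [hμ]
          field_simp
          norm_num
        calc (2:ℝ) ^ p * (2 * ((4 / μ) ^ p * (2 ^ p * ((2 * Kd p * α) ^ p * q))))
            = 2 * ((2:ℝ) ^ p * ((4 / μ) ^ p * (2 ^ p * (2 * Kd p) ^ p))) * q * α ^ p := by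
              rw [e1]; ring
          _ = _ := by rw [e2]
      rw [h3] at h2
      have h4 : (Θ'.card : ℝ) ≤ 2 * ((1 / 4) ^ p) * q := le_of_mul_le_mul_right h2 hαp
      have h5 : (1 / 4 : ℝ) ^ p ≤ 1 / 16 := by
        calc (1 / 4 : ℝ) ^ p ≤ (1 / 4 : ℝ) ^ (2:ℝ) :=
              Real.rpow_le_rpow_of_exponent_ge (by norm_num) (by norm_num) hp.le
          _ = 1 / 16 := by norm_num
      have hq0 : (0:ℝ) ≤ q := by positivity
      calc (Θ'.card : ℝ) ≤ 2 * ((1 / 4) ^ p) * q := h4
        _ ≤ 2 * (1 / 16) * q := by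
            apply mul_le_mul_of_nonneg_right _ hq0
            linarith
        _ = q / 8 := by ring
    have hΘ'card' : 8 * Θ'.card ≤ q := by
      have : (8:ℝ) * Θ'.card ≤ q := by linarith
      exact_mod_cast this
    -- new unpicked set
    set B'' := B.filter (fun i => i ∉ Lam φ k'') with hB''
    have hB''card : B''.card + q ≤ B.card + Θ'.card := by
      -- B'' ⊆ (B \ top q) ∪ Θ'
      have h1 : B'' ⊆ (B \ top q) ∪ Θ' := by
        intro i hi
        rw [hB'', Finset.mem_filter] at hi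
        rw [Finset.mem_union, Finset.mem_sdiff]
        by_cases h : i ∈ top q
        · right; rw [hΘ', Finset.mem_filter]; exact ⟨h, hi.2⟩
        · left; exact ⟨hi.1, h⟩
      have h2 : B''.card ≤ (B \ top q).card + Θ'.card :=
        (Finset.card_le_card h1).trans (Finset.card_union_le _ _)
      have h3 : (B \ top q).card + (top q).card = B.card :=
        Finset.card_sdiff_add_card_eq_card (htB q)
      rw [hΘcard] at h3
      omega
    have hlt : B''.card < b := by omega
    have hIH := IH B''.card hlt k'' B'' ((Finset.filter_subset _ _).trans hBA) le_rfl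
      (by
        intro i hi hi'
        by_cases h : i ∈ B
        · by_contra h2
          exact hi' (by rw [hB'', Finset.mem_filter]; exact ⟨h, h2⟩)
        · exact Lam_mono (by omega) (hcov i hi h))
      (by
        intro i hi
        rw [hB'', Finset.mem_filter] at hi
        exact hi.2)
    refine le_trans (hanti ?_) hIH
    have h2 : K * (2 ^ (l0 + 1) - 1) ≤ K * (4 * q) := Nat.mul_le_mul_left K hpow4
    have h3 : K * (4 * q) + 8 * K * B''.card ≤ 8 * K * b := by
      have h4 : 4 * q + 8 * B''.card ≤ 8 * b := by omega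
      calc K * (4 * q) + 8 * K * B''.card = K * (4 * q + 8 * B''.card) := by ring
        _ ≤ K * (8 * b) := Nat.mul_le_mul_left K h4
        _ = 8 * K * b := by ring
    rw [hk'']
    omega

/-- The Haar system is almost greedy with respect to the WCGA in `L_p([0,1])`, `p > 2`. -/
theorem haar_almost_greedy (hp : 2 < p) : AlmostGreedyWCGA (haar p) := by
  classical
  intro t ht0 ht1
  obtain ⟨K, hK0, hK⟩ := zhang (p := p) hp ht0 ht1
  refine ⟨((8 * K : ℕ) : ℝ), 4, ?_, by norm_num, ?_⟩
  · have : 1 ≤ 8 * K := by omega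
    exact_mod_cast this
  intro f m hm φ r H
  have hceil : ⌈((8 * K : ℕ) : ℝ) * m⌉₊ = 0 + 8 * K * m := by
    rw [zero_add]
    have : ((8 * K : ℕ) : ℝ) * m = ((8 * K * m : ℕ) : ℝ) := by push_cast; ring
    rw [this, Nat.ceil_natCast]
  rw [hceil]
  have key : ‖r (0 + 8 * K * m)‖ / 4 ≤ sigma (haar p) m f := by
    unfold sigma
    apply le_csInf
    · exact ⟨_, ∅, fun _ => 0, by simp, rfl⟩
    · rintro e ⟨s, c, hs, rfl⟩
      have h := hK f φ r H s c ‖f - PS p c s‖ le_rfl m 0 s (Finset.Subset.refl _) hs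
        (fun i hi hi' => absurd hi hi')
        (fun i _ => by rintro ⟨j, hj, _⟩; omega)
      have e1 : PS p c s = ∑ i ∈ s, c i • haar p i := rfl
      rw [e1] at h
      linarith
  linarith

end

end Pool.Agent.H71.Haar
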