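import Mathlib

/-! Pointwise inequalities for `x ↦ |x|^p`, `p > 2`. -/

namespace Pool.Agent.H71.Haar

/-- The derivative (up to the factor `p`) of `|x|^p`. -/
noncomputable def U (p x : ℝ) : ℝ := |x| ^ (p - 2) * x

section
variable {p : ℝ}

lemma U_zero (p : ℝ) : U p 0 = 0 := by simp [U]

lemma U_neg (p x : ℝ) : U p (-x) = - U p x := by simp [U]

lemma U_of_nonneg (hp : 2 < p) {x : ℝ} (hx : 0 ≤ x) : U p x = x ^ (p - 1) := by
  unfold U
  rw [abs_of_nonneg hx]
  rcases hx.eq_or_lt with h | h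
  · subst h
    rw [mul_zero, Real.zero_rpow (by linarith)]
  · have : p - 1 = (p - 2) + 1 := by ring
    rw [this, Real.rpow_add h, Real.rpow_one]

lemma U_of_nonpos (hp : 2 < p) {x : ℝ} (hx : x ≤ 0) : U p x = - |x| ^ (p - 1) := by
  have := U_of_nonneg hp (x := -x) (by linarith)
  rw [U_neg] at this
  rw [abs_of_nonpos hx]
  linarith

lemma abs_U (hp : 2 < p) (x : ℝ) : |U p x| = |x| ^ (p - 1) := by
  rcases le_total 0 x with h | h
  · rw [U_of_nonneg hp h, abs_of_nonneg (Real.rpow_nonneg h _), abs_of_nonneg h]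
  · rw [U_of_nonpos hp h, abs_neg, abs_of_nonneg (Real.rpow_nonneg (abs_nonneg _) _)]

lemma U_mul_self (hp : 2 < p) (x : ℝ) : U p x * x = |x| ^ p := by
  unfold U
  rw [mul_assoc, ← sq, ← sq_abs]
  rcases (abs_nonneg x).eq_or_lt with h | h
  · rw [← h]
    rw [Real.zero_rpow (by linarith : p ≠ 0)]
    simp
  · have : p = (p - 2) + 2 := by ring
    conv_rhs => rw [this]
    rw [Real.rpow_add h]
    norm_num

lemma bernoulli_aux {r : ℝ} (hr : 1 < r) {x y : ℝ} (hx : 0 ≤ x) (hy : 0 ≤ y) :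
    x ^ r + r * x ^ (r - 1) * (y - x) ≤ y ^ r := by
  rcases hx.eq_or_lt with h | h
  · subst h
    rw [Real.zero_rpow (by linarith), Real.zero_rpow (by linarith)]
    simp
    exact Real.rpow_nonneg hy _
  · have h1 := one_add_mul_self_le_rpow_one_add (s := y / x - 1) (by
      have : 0 ≤ y / x := by positivity
      linarith) (p := r) hr.le
    have h2 : (1 + (y / x - 1)) ^ r = y ^ r / x ^ r := by
      rw [show 1 + (y / x - 1) = y / x by ring, Real.div_rpow hy hx]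
    rw [h2] at h1
    have hxr : 0 < x ^ r := Real.rpow_pos_of_pos h _
    rw [le_div_iff₀ hxr] at h1
    have h3 : x ^ r = x ^ (r - 1) * x := by
      conv_lhs => rw [show r = (r - 1) + 1 by ring]
      rw [Real.rpow_add h, Real.rpow_one]
    calc x ^ r + r * x ^ (r - 1) * (y - x) = (1 + r * (y / x - 1)) * x ^ r := by
          rw [h3]
          field_simp
      _ ≤ y ^ r := h1

/-- Gradient inequality. -/
lemma grad_ineq (hp : 2 < p) (x y : ℝ) : |x| ^ p + p * U p x * (y - x) ≤ |y| ^ p := by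
  have h1 := bernoulli_aux (r := p) (by linarith) (abs_nonneg x) (abs_nonneg y)
  have h2 : U p x * y ≤ |x| ^ (p - 1) * |y| := by
    calc U p x * y ≤ |U p x * y| := le_abs_self _
      _ = |x| ^ (p - 1) * |y| := by rw [abs_mul, abs_U hp]
  have h3 : |x| ^ (p - 1) * |x| = |x| ^ p := by
    rw [← abs_U hp, ← abs_mul, U_mul_self hp, abs_of_nonneg (Real.rpow_nonneg (abs_nonneg _) _)]
  have h4 := U_mul_self hp x
  have h5 : 0 < p := by linarith
  calc |x| ^ p + p * U p x * (y - x) = |x| ^ p + p * (U p x * y) - p * (U p x * x) := by ring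
    _ ≤ |x| ^ p + p * (|x| ^ (p - 1) * |y|) - p * (U p x * x) := by
        have := mul_le_mul_of_nonneg_left h2 h5.le
        linarith
    _ = |x| ^ p + p * |x| ^ (p - 1) * (|y| - |x|) := by
        rw [h4, ← h3]; ring
    _ ≤ |y| ^ p := h1

/-- Lipschitz bound for `U`, nonneg case. -/
lemma U_lip_aux (hp : 2 < p) {x y : ℝ} (hx : 0 ≤ x) (hy : 0 ≤ y) :
    |x ^ (p - 1) - y ^ (p - 1)| ≤ (p - 1) * |x - y| * (x + y) ^ (p - 2) := by
  wlog h : y ≤ x with H
  · have := H hp hy hx (by linarith)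
    rw [abs_sub_comm, abs_sub_comm x y, add_comm x y]
    exact this
  have h1 := bernoulli_aux (r := p - 1) (by linarith) hx hy
  rw [show p - 1 - 1 = p - 2 by ring] at h1
  have h2 : y ^ (p - 1) ≤ x ^ (p - 1) := Real.rpow_le_rpow hy h (by linarith)
  rw [abs_of_nonneg (by linarith), abs_of_nonneg (by linarith : 0 ≤ x - y)]
  have h3 : x ^ (p - 2) ≤ (x + y) ^ (p - 2) := Real.rpow_le_rpow hx (by linarith) (by linarith)
  have h4 : 0 ≤ (p - 1) * (x - y) := mul_nonneg (by linarith) (by linarith)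
  have h5 := mul_le_mul_of_nonneg_left h3 h4
  nlinarith

lemma U_lip (hp : 2 < p) (x y : ℝ) :
    |U p x - U p y| ≤ (p - 1) * |x - y| * (|x| + |y|) ^ (p - 2) := by
  rcases le_total 0 x with hx | hx <;> rcases le_total 0 y with hy | hy
  · rw [U_of_nonneg hp hx, U_of_nonneg hp hy, abs_of_nonneg hx, abs_of_nonneg hy]
    exact U_lip_aux hp hx hy
  · -- x ≥ 0 ≥ y
    have hy' : 0 ≤ -y := by linarith
    have e1 : |x - y| = x + -y := by rw [abs_of_nonneg (by linarith)]; ring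
    rw [U_of_nonneg hp hx, U_of_nonpos hp hy, e1, abs_of_nonneg hx, abs_of_nonpos hy]
    have h1 : 0 ≤ x ^ (p - 1) := Real.rpow_nonneg hx _
    have h2 : 0 ≤ (-y) ^ (p - 1) := Real.rpow_nonneg hy' _
    rw [show x ^ (p - 1) - -(-y) ^ (p - 1) = x ^ (p - 1) + (-y) ^ (p - 1) by ring,
      abs_of_nonneg (by linarith)]
    have e2 : ∀ z : ℝ, 0 ≤ z → z ^ (p - 1) = z ^ (p - 2) * z := by
      intro z hz
      rw [← U_of_nonneg hp hz, U, abs_of_nonneg hz]
    rw [e2 x hx, e2 (-y) hy']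
    have h3 : x ^ (p - 2) ≤ (x + -y) ^ (p - 2) := Real.rpow_le_rpow hx (by linarith) (by linarith)
    have h4 : (-y) ^ (p - 2) ≤ (x + -y) ^ (p - 2) :=
      Real.rpow_le_rpow hy' (by linarith) (by linarith)
    have h5 : 0 ≤ (x + -y) ^ (p - 2) := Real.rpow_nonneg (by linarith) _
    have h6 := mul_le_mul_of_nonneg_right h3 hx
    have h7 := mul_le_mul_of_nonneg_right h4 hy'
    have h8 : 0 ≤ (p - 2) * ((x + -y) * (x + -y) ^ (p - 2)) :=
      mul_nonneg (by linarith) (mul_nonneg (by linarith) h5)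
    nlinarith
  · have hx' : 0 ≤ -x := by linarith
    have e1 : |x - y| = -x + y := by rw [abs_of_nonpos (by linarith)]; ring
    rw [U_of_nonpos hp hx, U_of_nonneg hp hy, e1, abs_of_nonneg hy, abs_of_nonpos hx]
    have h1 : 0 ≤ y ^ (p - 1) := Real.rpow_nonneg hy _
    have h2 : 0 ≤ (-x) ^ (p - 1) := Real.rpow_nonneg hx' _
    rw [show -(-x) ^ (p - 1) - y ^ (p - 1) = -((-x) ^ (p - 1) + y ^ (p - 1)) by ring, abs_neg,
      abs_of_nonneg (by linarith)]
    have e2 : ∀ z : ℝ, 0 ≤ z → z ^ (p - 1) = z ^ (p - 2) * z := by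
      intro z hz
      rw [← U_of_nonneg hp hz, U, abs_of_nonneg hz]
    rw [e2 y hy, e2 (-x) hx']
    have h3 : y ^ (p - 2) ≤ (-x + y) ^ (p - 2) := Real.rpow_le_rpow hy (by linarith) (by linarith)
    have h4 : (-x) ^ (p - 2) ≤ (-x + y) ^ (p - 2) :=
      Real.rpow_le_rpow hx' (by linarith) (by linarith)
    have h5 : 0 ≤ (-x + y) ^ (p - 2) := Real.rpow_nonneg (by linarith) _
    have h6 := mul_le_mul_of_nonneg_right h3 hy
    have h7 := mul_le_mul_of_nonneg_right h4 hx'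
    have h8 : 0 ≤ (p - 2) * ((-x + y) * (-x + y) ^ (p - 2)) :=
      mul_nonneg (by linarith) (mul_nonneg (by linarith) h5)
    nlinarith
  · have hx' : 0 ≤ -x := by linarith
    have hy' : 0 ≤ -y := by linarith
    rw [U_of_nonpos hp hx, U_of_nonpos hp hy, abs_of_nonpos hx, abs_of_nonpos hy]
    have := U_lip_aux hp hx' hy'
    rw [show -(-x) ^ (p - 1) - -(-y) ^ (p - 1) = -((-x) ^ (p - 1) - (-y) ^ (p - 1)) by ring,
      abs_neg]
    rw [show -x - -y = -(x - y) by ring, abs_neg] at this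
    exact this

lemma rpow_add_le_aux {r : ℝ} (hr : 0 ≤ r) {x y : ℝ} (hx : 0 ≤ x) (hy : 0 ≤ y) :
    (x + y) ^ r ≤ 2 ^ r * (x ^ r + y ^ r) := by
  wlog h : y ≤ x with H
  · have := H hr hy hx (by linarith)
    rw [add_comm x y, add_comm (x ^ r)]
    exact this
  calc (x + y) ^ r ≤ (2 * x) ^ r := Real.rpow_le_rpow (by linarith) (by linarith) hr
    _ = 2 ^ r * x ^ r := Real.mul_rpow (by norm_num) hx
    _ ≤ 2 ^ r * (x ^ r + y ^ r) := by
        apply mul_le_mul_of_nonneg_left _ (by positivity)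
        have := Real.rpow_nonneg hy r
        linarith

/-- constant in the smoothness inequality -/
noncomputable def Csm (p : ℝ) : ℝ := p * (p - 1) * 4 ^ p

lemma Csm_pos (hp : 2 < p) : 0 < Csm p := by
  unfold Csm
  have : 0 < p * (p - 1) := mul_pos (by linarith) (by linarith)
  positivity

/-- Smoothness inequality. -/
lemma smooth_ineq (hp : 2 < p) (a b : ℝ) :
    |a - b| ^ p ≤ |a| ^ p - p * (U p a * b) + Csm p * (|a| ^ (p - 2) * b ^ 2 + |b| ^ p) := by
  have h1 := grad_ineq hp (a - b) a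
  have h2 := U_lip hp a (a - b)
  rw [show a - (a - b) = b by ring] at h1 h2
  -- |a-b|^p ≤ |a|^p - p U(a-b) b
  have h3 : (U p a - U p (a - b)) * b ≤ (p - 1) * b ^ 2 * (|a| + |a - b|) ^ (p - 2) := by
    calc (U p a - U p (a - b)) * b ≤ |(U p a - U p (a - b)) * b| := le_abs_self _
      _ = |U p a - U p (a - b)| * |b| := abs_mul _ _
      _ ≤ ((p - 1) * |b| * (|a| + |a - b|) ^ (p - 2)) * |b| :=
          mul_le_mul_of_nonneg_right h2 (abs_nonneg _)
      _ = (p - 1) * b ^ 2 * (|a| + |a - b|) ^ (p - 2) := by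
          rw [← sq_abs b]; ring
  have h4 : (|a| + |a - b|) ^ (p - 2) ≤ 4 ^ (p - 2) * (|a| ^ (p - 2) + |b| ^ (p - 2)) := by
    have e1 : |a - b| ≤ |a| + |b| := abs_sub a b
    have e2 : (|a| + |a - b|) ≤ 2 * (|a| + |b|) := by
      have := abs_nonneg b
      linarith
    calc (|a| + |a - b|) ^ (p - 2) ≤ (2 * (|a| + |b|)) ^ (p - 2) :=
          Real.rpow_le_rpow (by positivity) e2 (by linarith)
      _ = 2 ^ (p - 2) * (|a| + |b|) ^ (p - 2) := Real.mul_rpow (by norm_num) (by positivity)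
      _ ≤ 2 ^ (p - 2) * (2 ^ (p - 2) * (|a| ^ (p - 2) + |b| ^ (p - 2))) :=
          mul_le_mul_of_nonneg_left
            (rpow_add_le_aux (by linarith) (abs_nonneg _) (abs_nonneg _)) (by positivity)
      _ = 4 ^ (p - 2) * (|a| ^ (p - 2) + |b| ^ (p - 2)) := by
          rw [← mul_assoc, ← Real.mul_rpow (by norm_num) (by norm_num)]
          norm_num
  have h5 : b ^ 2 * |b| ^ (p - 2) = |b| ^ p := by
    rw [← U_mul_self hp b, U]; ring
  have h6 : (4:ℝ) ^ (p - 2) ≤ 4 ^ p := Real.rpow_le_rpow_of_exponent_le (by norm_num) (by linarith)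
  have h7 : 0 ≤ |a| ^ (p - 2) * b ^ 2 + |b| ^ p := by positivity
  have h8 : p * ((p - 1) * b ^ 2 * (|a| + |a - b|) ^ (p - 2))
      ≤ Csm p * (|a| ^ (p - 2) * b ^ 2 + |b| ^ p) := by
    have hp1 : 0 ≤ p * (p - 1) * b ^ 2 :=
      mul_nonneg (mul_nonneg (by linarith) (by linarith)) (sq_nonneg _)
    calc p * ((p - 1) * b ^ 2 * (|a| + |a - b|) ^ (p - 2))
        = p * (p - 1) * b ^ 2 * (|a| + |a - b|) ^ (p - 2) := by ring
      _ ≤ p * (p - 1) * b ^ 2 * (4 ^ (p - 2) * (|a| ^ (p - 2) + |b| ^ (p - 2))) :=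
          mul_le_mul_of_nonneg_left h4 hp1
      _ = p * (p - 1) * 4 ^ (p - 2) * (|a| ^ (p - 2) * b ^ 2 + b ^ 2 * |b| ^ (p - 2)) := by ring
      _ = p * (p - 1) * 4 ^ (p - 2) * (|a| ^ (p - 2) * b ^ 2 + |b| ^ p) := by rw [h5]
      _ ≤ p * (p - 1) * 4 ^ p * (|a| ^ (p - 2) * b ^ 2 + |b| ^ p) := by
          apply mul_le_mul_of_nonneg_right _ h7
          exact mul_le_mul_of_nonneg_left h6 (mul_nonneg (by linarith) (by linarith))
      _ = Csm p * (|a| ^ (p - 2) * b ^ 2 + |b| ^ p) := rfl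
  have h9 := mul_le_mul_of_nonneg_left h3 (by linarith : (0:ℝ) ≤ p)
  nlinarith

/-- Monotonicity inequality. -/
lemma mono_ineq (hp : 2 < p) (a b : ℝ) :
    2 ^ (2 - p) * |a - b| ^ p ≤ (U p a - U p b) * (a - b) := by
  wlog h : b ≤ a with H
  · have := H hp b a (by linarith)
    rw [abs_sub_comm] at this
    linarith
  have hab : 0 ≤ a - b := by linarith
  have e2 : ∀ z : ℝ, 0 ≤ z → z ^ p = z ^ (p - 1) * z := by
    intro z hz
    have := U_mul_self hp z
    rw [U_of_nonneg hp hz, abs_of_nonneg hz] at this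
    exact this.symm
  rw [abs_of_nonneg hab, e2 _ hab, ← mul_assoc]
  apply mul_le_mul_of_nonneg_right _ hab
  have hc : (2:ℝ) ^ (2 - p) ≤ 1 := Real.rpow_le_one_of_one_le_of_nonpos (by norm_num) (by linarith)
  have super : ∀ x y : ℝ, 0 ≤ x → 0 ≤ y → x ^ (p - 1) + y ^ (p - 1) ≤ (x + y) ^ (p - 1) := by
    intro x y hx hy
    have := NNReal.add_rpow_le_rpow_add (p := p - 1) ⟨x, hx⟩ ⟨y, hy⟩ (by linarith)
    exact_mod_cast this
  rcases le_total 0 b with hb | hb
  · have ha : 0 ≤ a := by linarith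
    rw [U_of_nonneg hp ha, U_of_nonneg hp hb]
    have h1 := super (a - b) b hab hb
    rw [show a - b + b = a by ring] at h1
    have h2 : 0 ≤ (a - b) ^ (p - 1) := Real.rpow_nonneg hab _
    nlinarith
  · rcases le_total 0 a with ha | ha
    · rw [U_of_nonneg hp ha, U_of_nonpos hp hb]
      have h1 := NNReal.rpow_add_le_mul_rpow_add_rpow ⟨a, ha⟩ ⟨-b, by linarith⟩ (p := p - 1)
        (by linarith)
      have h2 : (a + -b) ^ (p - 1) ≤ 2 ^ (p - 1 - 1) * (a ^ (p - 1) + (-b) ^ (p - 1)) := by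
        exact_mod_cast h1
      rw [abs_of_nonpos hb]
      rw [show p - 1 - 1 = p - 2 by ring] at h2
      have h3 : (2:ℝ) ^ (2 - p) * 2 ^ (p - 2) = 1 := by
        rw [← Real.rpow_add (by norm_num)]; norm_num
      have h4 := mul_le_mul_of_nonneg_left h2 (by positivity : (0:ℝ) ≤ 2 ^ (2 - p))
      rw [← mul_assoc, h3, one_mul] at h4
      rw [show a - b = a + -b by ring]
      linarith
    · rw [U_of_nonpos hp ha, U_of_nonpos hp hb, abs_of_nonpos ha, abs_of_nonpos hb]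
      have h1 := super (a - b) (-a) hab (by linarith)
      rw [show a - b + -a = -b by ring] at h1
      have h2 : 0 ≤ (a - b) ^ (p - 1) := Real.rpow_nonneg hab _
      nlinarith

/-- Clarkson type inequality. -/
lemma clarkson_ineq (hp : 2 < p) (a b : ℝ) :
    2 * (|a| ^ p + |b| ^ p) ≤ |a + b| ^ p + |a - b| ^ p := by
  have conv : ∀ x y : ℝ, 0 ≤ x → 0 ≤ y →
      (x + y) ^ (p / 2) ≤ 2 ^ (p / 2 - 1) * (x ^ (p / 2) + y ^ (p / 2)) := by
    intro x y hx hy
    have := NNReal.rpow_add_le_mul_rpow_add_rpow ⟨x, hx⟩ ⟨y, hy⟩ (p := p / 2) (by linarith)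
    exact_mod_cast this
  have super : ∀ x y : ℝ, 0 ≤ x → 0 ≤ y → x ^ (p / 2) + y ^ (p / 2) ≤ (x + y) ^ (p / 2) := by
    intro x y hx hy
    have := NNReal.add_rpow_le_rpow_add (p := p / 2) ⟨x, hx⟩ ⟨y, hy⟩ (by linarith)
    exact_mod_cast this
  have e : ∀ x : ℝ, (x ^ 2) ^ (p / 2) = |x| ^ p := by
    intro x
    rw [← sq_abs, ← Real.rpow_natCast, ← Real.rpow_mul (abs_nonneg _)]
    congr 1
    push_cast
    ring
  have h1 := conv ((a + b) ^ 2) ((a - b) ^ 2) (sq_nonneg _) (sq_nonneg _)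
  have h2 := super (a ^ 2) (b ^ 2) (sq_nonneg _) (sq_nonneg _)
  rw [e, e] at h1 h2
  have h3 : ((a + b) ^ 2 + (a - b) ^ 2) ^ (p / 2) = 2 ^ (p / 2) * (a ^ 2 + b ^ 2) ^ (p / 2) := by
    rw [← Real.mul_rpow (by norm_num) (by positivity)]
    congr 1; ring
  rw [h3] at h1
  have h4 : (2:ℝ) ^ (p / 2) = 2 ^ (p / 2 - 1) * 2 := by
    conv_lhs => rw [show p / 2 = (p / 2 - 1) + 1 by ring]
    rw [Real.rpow_add (by norm_num), Real.rpow_one]
  have h5 : (0:ℝ) < 2 ^ (p / 2 - 1) := by positivity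
  rw [h4, mul_assoc] at h1
  have h6 := le_of_mul_le_mul_left h1 h5
  linarith

end

end Pool.Agent.H71.Haar
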