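import Pool.Agent.H71.Haar.Dyadic
import Pool.Agent.H71.Haar.Comb

/-! Analytic ingredients: weak type count, displacement estimate. -/

open MeasureTheory Set
open scoped ENNReal

set_option linter.unusedSectionVars false

namespace Pool.Agent.H71.Haar

lemma rr_pow_pos (p : ℝ) (n : ℕ) : 0 < rr p ^ n := pow_pos (rr_pos p) n

lemma two_pow_rr {p : ℝ} (hp : 2 < p) (n : ℕ) : (2:ℝ) ^ n * (rr p ^ n) ^ p = 1 := by
  rw [rr_pow_rpow hp, ← mul_pow]; norm_num

section
variable {p : ℝ} [Fact (1 ≤ ENNReal.ofReal p)]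

/-- constant in the weak type estimate -/
noncomputable def Kw (p : ℝ) : ℝ := ((rr p)⁻¹ ^ 2) / ((rr p)⁻¹ ^ 2 - 1)

lemma rinv_gt {p : ℝ} (hp : 2 < p) : 1 < (rr p)⁻¹ ^ 2 := by
  have h1 := rr_lt_one hp
  have h0 := rr_pos p
  have : 1 < (rr p)⁻¹ := (one_lt_inv₀ h0).mpr h1
  nlinarith

lemma Kw_pos (hp : 2 < p) : 0 < Kw p := by
  have := rinv_gt hp
  unfold Kw
  exact div_pos (by linarith) (by linarith)

lemma geom_pointwise (hp : 2 < p) {σ : ℝ} (hσ : 0 < σ) (𝒥 : Finset (ℕ × ℕ)) (x a : ℝ) :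
    ∑ q ∈ 𝒥, ((rr p ^ q.1)⁻¹) ^ 2 * (dyadic q.1 q.2).indicator
      (fun _ => if σ * (rr p ^ q.1)⁻¹ < |a| then |a| ^ (p - 2) else 0) x
      ≤ Kw p * (σ ^ 2)⁻¹ * |a| ^ p := by
  classical
  have hr := rr_pos p
  -- restrict to the relevant set
  set T := 𝒥.filter (fun q => x ∈ dyadic q.1 q.2 ∧ σ * (rr p ^ q.1)⁻¹ < |a|) with hT
  have h1 : ∑ q ∈ 𝒥, ((rr p ^ q.1)⁻¹) ^ 2 * (dyadic q.1 q.2).indicator
      (fun _ => if σ * (rr p ^ q.1)⁻¹ < |a| then |a| ^ (p - 2) else 0) x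
      = ∑ q ∈ T, ((rr p ^ q.1)⁻¹) ^ 2 * |a| ^ (p - 2) := by
    rw [hT, Finset.sum_filter]
    apply Finset.sum_congr rfl
    intro q _
    by_cases hx : x ∈ dyadic q.1 q.2
    · by_cases ha : σ * (rr p ^ q.1)⁻¹ < |a|
      · simp [Set.indicator, hx, ha]
      · simp [Set.indicator, hx, ha]
    · simp [Set.indicator, hx]
  rw [h1, ← Finset.sum_mul]
  have hinj : Set.InjOn (fun q : ℕ × ℕ => q.1) T := by
    intro q hq q' hq' h
    simp only [hT, Finset.coe_filter, Set.mem_ofPred_eq] at hq hq'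
    simp only at h
    have := dyadic_unique (h ▸ hq.2.1) hq'.2.1
    exact Prod.ext h this
  have h2 : ∑ q ∈ T, ((rr p ^ q.1)⁻¹) ^ 2 = ∑ n ∈ T.image (fun q => q.1), ((rr p)⁻¹ ^ 2) ^ n := by
    rw [Finset.sum_image hinj]
    apply Finset.sum_congr rfl
    intro q _
    rw [← inv_pow, ← pow_mul, ← pow_mul, mul_comm]
  rw [h2]
  have h3 : ∑ n ∈ T.image (fun q => q.1), ((rr p)⁻¹ ^ 2) ^ n ≤ Kw p * ((|a| / σ) ^ 2) := by
    unfold Kw
    apply geom_dom (rinv_gt hp) _ (by positivity)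
    intro n hn
    rw [Finset.mem_image] at hn
    obtain ⟨q, hq, rfl⟩ := hn
    simp only [hT, Finset.mem_filter] at hq
    have h4 : (rr p ^ q.1)⁻¹ ≤ |a| / σ := by
      rw [le_div_iff₀ hσ]; linarith [hq.2.2]
    rw [← pow_mul, mul_comm 2, pow_mul, inv_pow]
    exact pow_le_pow_left₀ (by positivity) h4 2
  have h5 : 0 ≤ |a| ^ (p - 2) := Real.rpow_nonneg (abs_nonneg _) _
  have h6 : |a| ^ p = |a| ^ 2 * |a| ^ (p - 2) := by
    rw [← U_mul_self hp a, U, sq_abs]; ring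
  calc _ ≤ Kw p * ((|a| / σ) ^ 2) * |a| ^ (p - 2) := mul_le_mul_of_nonneg_right h3 h5
    _ = Kw p * (σ ^ 2)⁻¹ * |a| ^ p := by rw [h6]; field_simp

/-- B1: weak type count of the dyadic intervals with large weight. -/
lemma weak_count (hp : 2 < p) (f : LpUnit p) {σ : ℝ} (hσ : 0 < σ) (𝒥 : Finset (ℕ × ℕ))
    (hJ : ∀ q ∈ 𝒥, q.2 < 2 ^ q.1)
    (hbad : ∀ q ∈ 𝒥, 2 * σ ^ (p - 2) * (rr p ^ q.1) ^ 2 ≤ WW f q.1 q.2) :
    (𝒥.card : ℝ) * σ ^ p ≤ Kw p * ‖f‖ ^ p := by
  have hr := rr_pos p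
  -- the truncated integrals
  have meas : ∀ q : ℕ × ℕ, Integrable (fun x => (dyadic q.1 q.2).indicator
      (fun _ => if σ * (rr p ^ q.1)⁻¹ < |f x| then |f x| ^ (p - 2) else 0) x) unitMeasure := by
    intro q
    refine Integrable.mono' (int_pm2 hp f) ?_ ?_
    · have h1 : AEMeasurable (fun x => |f x| ^ (p - 2)) unitMeasure := by
        have := aem f
        fun_prop
      have h2 : NullMeasurableSet {x | σ * (rr p ^ q.1)⁻¹ < |f x|} unitMeasure := by
        have := aem f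
        exact nullMeasurableSet_lt aemeasurable_const (by fun_prop)
      have h3 : (fun x => (dyadic q.1 q.2).indicator
        (fun _ => if σ * (rr p ^ q.1)⁻¹ < |f x| then |f x| ^ (p - 2) else 0) x)
        = (dyadic q.1 q.2).indicator ({x | σ * (rr p ^ q.1)⁻¹ < |f x|}.indicator
          (fun x => |f x| ^ (p - 2))) := by
        ext x
        by_cases hx : x ∈ dyadic q.1 q.2
        · simp only [Set.indicator, hx, if_true, Set.mem_ofPred_eq]
        · simp only [Set.indicator, hx, if_false]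
      rw [h3]
      exact ((h1.indicator₀ h2).indicator (measurableSet_dyadic _ _)).aestronglyMeasurable
    · refine Filter.Eventually.of_forall (fun x => ?_)
      have h5 : 0 ≤ |f x| ^ (p - 2) := Real.rpow_nonneg (abs_nonneg _) _
      by_cases hx : x ∈ dyadic q.1 q.2
      · by_cases ha : σ * (rr p ^ q.1)⁻¹ < |f x|
        · simp [Set.indicator, hx, ha, abs_of_nonneg h5]
        · simp [Set.indicator, hx, ha, h5]
      · simp [Set.indicator, hx, h5]
  have key : ∀ q ∈ 𝒥, σ ^ (p - 2) ≤ ∫ x, ((rr p ^ q.1)⁻¹) ^ 2 * (dyadic q.1 q.2).indicator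
      (fun _ => if σ * (rr p ^ q.1)⁻¹ < |f x| then |f x| ^ (p - 2) else 0) x ∂unitMeasure := by
    intro q hq
    rw [integral_const_mul]
    have h1 := hbad q hq
    have hrn := rr_pow_pos p q.1
    have h2 : WW f q.1 q.2 ≤ ∫ x, ((dyadic q.1 q.2).indicator
        (fun _ => (σ * (rr p ^ q.1)⁻¹) ^ (p - 2)) x + (dyadic q.1 q.2).indicator
        (fun _ => if σ * (rr p ^ q.1)⁻¹ < |f x| then |f x| ^ (p - 2) else 0) x) ∂unitMeasure := by
      unfold WW
      rw [← integral_indicator (measurableSet_dyadic _ _)]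
      apply integral_mono ((int_pm2 hp f).indicator (measurableSet_dyadic _ _))
      · exact ((integrable_const _).indicator (measurableSet_dyadic _ _)).add (meas q)
      · intro x
        have h5 : 0 ≤ |f x| ^ (p - 2) := Real.rpow_nonneg (abs_nonneg _) _
        have h6 : 0 ≤ (σ * (rr p ^ q.1)⁻¹) ^ (p - 2) := by positivity
        by_cases hx : x ∈ dyadic q.1 q.2
        · by_cases ha : σ * (rr p ^ q.1)⁻¹ < |f x|
          · simp [Set.indicator, hx, ha]; exact h6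
          · simp only [Set.indicator, hx, if_true, ha, if_false, add_zero]
            exact Real.rpow_le_rpow (abs_nonneg _) (not_lt.mp ha) (by linarith)
        · simp [Set.indicator, hx]
    rw [integral_add ((integrable_const _).indicator (measurableSet_dyadic _ _)) (meas q),
      integral_indicator (measurableSet_dyadic _ _), setIntegral_const,
      measure_dyadic (hJ q hq), smul_eq_mul] at h2
    have h3 : (1 / 2 : ℝ) ^ q.1 * (σ * (rr p ^ q.1)⁻¹) ^ (p - 2)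
        = σ ^ (p - 2) * (rr p ^ q.1) ^ 2 := by
      rw [Real.mul_rpow hσ.le (by positivity), Real.inv_rpow hrn.le, ← rr_pow_rpow hp q.1]
      have : (rr p ^ q.1) ^ p = (rr p ^ q.1) ^ (p - 2) * (rr p ^ q.1) ^ 2 := by
        rw [← Real.rpow_natCast (rr p ^ q.1) 2, ← Real.rpow_add hrn]
        norm_num
      rw [this]
      have h7 : 0 < (rr p ^ q.1) ^ (p - 2) := Real.rpow_pos_of_pos hrn _
      field_simp
    rw [h3] at h2
    have h4 : σ ^ (p - 2) * (rr p ^ q.1) ^ 2 ≤ ∫ x, (dyadic q.1 q.2).indicator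
        (fun _ => if σ * (rr p ^ q.1)⁻¹ < |f x| then |f x| ^ (p - 2) else 0) x ∂unitMeasure := by
      linarith
    have h8 : 0 < ((rr p ^ q.1)⁻¹) ^ 2 := by positivity
    calc σ ^ (p - 2) = ((rr p ^ q.1)⁻¹) ^ 2 * (σ ^ (p - 2) * (rr p ^ q.1) ^ 2) := by
          field_simp
      _ ≤ _ := mul_le_mul_of_nonneg_left h4 h8.le
  have h1 : (𝒥.card : ℝ) * σ ^ (p - 2) ≤ Kw p * (σ ^ 2)⁻¹ * ‖f‖ ^ p := by
    calc (𝒥.card : ℝ) * σ ^ (p - 2) = ∑ q ∈ 𝒥, σ ^ (p - 2) := by
          rw [Finset.sum_const, nsmul_eq_mul]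
      _ ≤ ∑ q ∈ 𝒥, ∫ x, ((rr p ^ q.1)⁻¹) ^ 2 * (dyadic q.1 q.2).indicator
          (fun _ => if σ * (rr p ^ q.1)⁻¹ < |f x| then |f x| ^ (p - 2) else 0) x ∂unitMeasure :=
          Finset.sum_le_sum key
      _ = ∫ x, ∑ q ∈ 𝒥, ((rr p ^ q.1)⁻¹) ^ 2 * (dyadic q.1 q.2).indicator
          (fun _ => if σ * (rr p ^ q.1)⁻¹ < |f x| then |f x| ^ (p - 2) else 0) x ∂unitMeasure := by
          rw [integral_finsetSum]
          intro q _
          exact (meas q).const_mul _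
      _ ≤ ∫ x, Kw p * (σ ^ 2)⁻¹ * |f x| ^ p ∂unitMeasure := by
          apply integral_mono
          · exact integrable_finsetSum _ (fun q _ => (meas q).const_mul _)
          · exact (int_rpow hp f).const_mul _
          · intro x
            exact geom_pointwise hp hσ 𝒥 x (f x)
      _ = Kw p * (σ ^ 2)⁻¹ * ‖f‖ ^ p := by rw [integral_const_mul, norm_rpow hp]
  have h2 : σ ^ p = σ ^ (p - 2) * σ ^ 2 := by
    rw [← Real.rpow_natCast σ 2, ← Real.rpow_add hσ]; norm_num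
  calc (𝒥.card : ℝ) * σ ^ p = (𝒥.card : ℝ) * σ ^ (p - 2) * σ ^ 2 := by rw [h2]; ring
    _ ≤ Kw p * (σ ^ 2)⁻¹ * ‖f‖ ^ p * σ ^ 2 := mul_le_mul_of_nonneg_right h1 (by positivity)
    _ = Kw p * ‖f‖ ^ p := by field_simp

/-- displacement energy on a dyadic interval -/
noncomputable def EE (f g : LpUnit p) (n k : ℕ) : ℝ :=
  ∫ x in dyadic n k, |f x - g x| ^ p ∂unitMeasure

/-- displacement weight on a dyadic interval -/
noncomputable def DW (f g : LpUnit p) (n k : ℕ) : ℝ :=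
  ∫ x in dyadic n k, |f x - g x| ^ (p - 2) ∂unitMeasure

lemma int_diff_rpow (hp : 2 < p) (f g : LpUnit p) :
    Integrable (fun x => |f x - g x| ^ p) unitMeasure := by
  refine (int_rpow hp (f - g)).congr ?_
  filter_upwards [Lp.coeFn_sub f g] with x hx
  rw [hx, Pi.sub_apply]

lemma int_diff_pm2 (hp : 2 < p) (f g : LpUnit p) :
    Integrable (fun x => |f x - g x| ^ (p - 2)) unitMeasure := by
  refine (int_pm2 hp (f - g)).congr ?_
  filter_upwards [Lp.coeFn_sub f g] with x hx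
  rw [hx, Pi.sub_apply]

lemma int_diff (hp : 2 < p) (f g : LpUnit p) :
    Integrable (fun x => f x - g x) unitMeasure :=
  (int_self hp f).sub (int_self hp g)

lemma EE_nonneg (f g : LpUnit p) (n k : ℕ) : 0 ≤ EE f g n k :=
  integral_nonneg (fun x => by positivity)

lemma DW_split (hp : 2 < p) (f g : LpUnit p) (n k : ℕ) :
    DW f g n k = DW f g (n + 1) (2 * k) + DW f g (n + 1) (2 * k + 1) :=
  int_split (int_diff_pm2 hp f g) n k

lemma young_aux (hp : 2 < p) {T : ℝ} (hT : 0 < T) (a : ℝ) :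
    |a| ≤ T + T ^ (1 - p) * |a| ^ p := by
  have h0 : 0 ≤ T ^ (1 - p) * |a| ^ p := by positivity
  rcases le_total |a| T with h | h
  · linarith
  · have h1 : T ^ (p - 1) ≤ |a| ^ (p - 1) := Real.rpow_le_rpow hT.le h (by linarith)
    have ha : 0 < |a| := lt_of_lt_of_le hT h
    have h2 : |a| ^ p = |a| ^ (p - 1) * |a| := by
      rw [← Real.rpow_add_one ha.ne']; ring_nf
    have h3 : T ^ (1 - p) * T ^ (p - 1) = 1 := by
      rw [← Real.rpow_add hT]; simp
    have h4 : 1 ≤ T ^ (1 - p) * |a| ^ (p - 1) := by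
      have h5 : T ^ (1 - p) * T ^ (p - 1) ≤ T ^ (1 - p) * |a| ^ (p - 1) :=
        mul_le_mul_of_nonneg_left h1 (by positivity)
      linarith
    rw [h2, ← mul_assoc]
    nlinarith

lemma young_aux2 (hp : 2 < p) {T : ℝ} (hT : 0 < T) (a : ℝ) :
    |a| ^ (p - 2) ≤ T ^ (p - 2) + (T ^ 2)⁻¹ * |a| ^ p := by
  have h0 : 0 ≤ (T ^ 2)⁻¹ * |a| ^ p := by positivity
  rcases le_total |a| T with h | h
  · have := Real.rpow_le_rpow (abs_nonneg a) h (by linarith : 0 ≤ p - 2)
    linarith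
  · have ha : 0 < |a| := lt_of_lt_of_le hT h
    have h2 : |a| ^ p = |a| ^ 2 * |a| ^ (p - 2) := by
      rw [← U_mul_self hp a, U, sq_abs]; ring
    have h3 : T ^ 2 ≤ |a| ^ 2 := pow_le_pow_left₀ hT.le h 2
    have h4 : 1 ≤ (T ^ 2)⁻¹ * |a| ^ 2 := by
      rw [inv_mul_eq_div, one_le_div (by positivity)]
      exact h3
    have h5 : 0 ≤ |a| ^ (p - 2) := by positivity
    have h6 : 0 ≤ T ^ (p - 2) := by positivity
    rw [h2, ← mul_assoc]
    nlinarith

/-- T3: displacement estimate on a pick-free interval. -/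
lemma displacement (hp : 2 < p) (f g : LpUnit p) {n k : ℕ} (hk : k < 2 ^ n) {σ β : ℝ}
    (hσ : 0 < σ) (hβ : 1 ≤ β)
    (hV : |VV f n k - VV g n k| ≤ β * σ ^ (p - 1) * rr p ^ n)
    (hid : (∫ x in dyadic n k, (U p (f x) - U p (g x)) * (f x - g x) ∂unitMeasure) * (1 / 2) ^ n
      = (∫ x in dyadic n k, (f x - g x) ∂unitMeasure) * (VV f n k - VV g n k)) :
    EE f g n k ≤ 2 ^ p * β ^ 2 * σ ^ p := by
  have hrn := rr_pow_pos p n
  have hE0 := EE_nonneg f g n k
  -- lower bound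
  have h1 : 2 ^ (2 - p) * EE f g n k
      ≤ ∫ x in dyadic n k, (U p (f x) - U p (g x)) * (f x - g x) ∂unitMeasure := by
    unfold EE
    rw [← integral_const_mul]
    apply setIntegral_mono
    · exact ((int_diff_rpow hp f g).const_mul _).integrableOn
    · have e : (fun x => (U p (f x) - U p (g x)) * (f x - g x))
          = fun x => (U p (f x) * f x - U p (f x) * g x) - (U p (g x) * f x - U p (g x) * g x) := by
        ext x; ring
      rw [e]
      exact (((int_U_mul hp f f).sub (int_U_mul hp f g)).sub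
        ((int_U_mul hp g f).sub (int_U_mul hp g g))).integrableOn
    · intro x
      exact mono_ineq hp _ _
  set T := 2 * β * σ * (rr p ^ n)⁻¹ with hT
  have hTpos : 0 < T := by positivity
  have h2 : |∫ x in dyadic n k, (f x - g x) ∂unitMeasure|
      ≤ T * (1 / 2) ^ n + T ^ (1 - p) * EE f g n k := by
    calc |∫ x in dyadic n k, (f x - g x) ∂unitMeasure|
        ≤ ∫ x in dyadic n k, |f x - g x| ∂unitMeasure := abs_integral_le_integral_abs
      _ ≤ ∫ x in dyadic n k, (T + T ^ (1 - p) * |f x - g x| ^ p) ∂unitMeasure := by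
          apply setIntegral_mono
          · exact (int_diff hp f g).abs.integrableOn
          · exact ((integrable_const _).add ((int_diff_rpow hp f g).const_mul _)).integrableOn
          · intro x; exact young_aux hp hTpos _
      _ = T * (1 / 2) ^ n + T ^ (1 - p) * EE f g n k := by
          rw [integral_add (integrable_const _).integrableOn
            ((int_diff_rpow hp f g).const_mul _).integrableOn, setIntegral_const,
            measure_dyadic hk, integral_const_mul, smul_eq_mul, mul_comm ((1/2:ℝ)^n)]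
          rfl
  have h3 : ∫ x in dyadic n k, (U p (f x) - U p (g x)) * (f x - g x) ∂unitMeasure
      ≤ 2 ^ n * ((T * (1 / 2) ^ n + T ^ (1 - p) * EE f g n k) * (β * σ ^ (p - 1) * rr p ^ n)) := by
    have e : ∫ x in dyadic n k, (U p (f x) - U p (g x)) * (f x - g x) ∂unitMeasure
        = 2 ^ n * ((∫ x in dyadic n k, (f x - g x) ∂unitMeasure) * (VV f n k - VV g n k)) := by
      rw [← hid]
      have : (2:ℝ) ^ n * (1 / 2) ^ n = 1 := by rw [← mul_pow]; norm_num
      calc _ = (∫ x in dyadic n k, (U p (f x) - U p (g x)) * (f x - g x) ∂unitMeasure)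
            * ((2:ℝ) ^ n * (1 / 2) ^ n) := by rw [this, mul_one]
        _ = _ := by ring
    rw [e]
    apply mul_le_mul_of_nonneg_left _ (by positivity)
    calc (∫ x in dyadic n k, (f x - g x) ∂unitMeasure) * (VV f n k - VV g n k)
        ≤ |(∫ x in dyadic n k, (f x - g x) ∂unitMeasure) * (VV f n k - VV g n k)| := le_abs_self _
      _ = |∫ x in dyadic n k, (f x - g x) ∂unitMeasure| * |VV f n k - VV g n k| := abs_mul _ _
      _ ≤ _ := mul_le_mul h2 hV (abs_nonneg _) (by positivity)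
  -- simplify the constants
  have e1 : (2:ℝ) ^ n * (T * (1 / 2) ^ n * (β * σ ^ (p - 1) * rr p ^ n)) = 2 * β ^ 2 * σ ^ p := by
    have h5 : (2:ℝ) ^ n * (1 / 2) ^ n = 1 := by rw [← mul_pow]; norm_num
    have h6 : σ ^ (p - 1) * σ = σ ^ p := by rw [← Real.rpow_add_one hσ.ne']; ring_nf
    calc (2:ℝ) ^ n * (T * (1 / 2) ^ n * (β * σ ^ (p - 1) * rr p ^ n))
        = ((2:ℝ) ^ n * (1 / 2) ^ n) * (2 * β ^ 2 * (σ ^ (p - 1) * σ)) * ((rr p ^ n)⁻¹ * rr p ^ n) := by
          rw [hT]; ring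
      _ = 2 * β ^ 2 * σ ^ p := by rw [h5, h6, inv_mul_cancel₀ hrn.ne']; ring
  have e2 : (2:ℝ) ^ n * (T ^ (1 - p) * (β * σ ^ (p - 1) * rr p ^ n)) ≤ 2 ^ (1 - p) := by
    have h6 : T ^ (1 - p) = (T ^ (p - 1))⁻¹ := by
      rw [← Real.rpow_neg hTpos.le]; congr 1; ring
    have h7 : T ^ (p - 1) = 2 ^ (p - 1) * β ^ (p - 1) * σ ^ (p - 1) * ((rr p ^ n) ^ (p - 1))⁻¹ := by
      rw [hT, Real.mul_rpow (by positivity) (by positivity), Real.mul_rpow (by positivity) hσ.le,
        Real.mul_rpow (by norm_num) (by linarith), Real.inv_rpow hrn.le]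
    have h8 : (2:ℝ) ^ n * ((rr p ^ n) ^ (p - 1) * rr p ^ n) = 1 := by
      rw [← Real.rpow_add_one hrn.ne']
      have := two_pow_rr hp n
      rw [show p - 1 + 1 = p by ring]
      exact this
    have h9 : β ≤ β ^ (p - 1) := by
      conv_lhs => rw [← Real.rpow_one β]
      exact Real.rpow_le_rpow_of_exponent_le hβ (by linarith)
    have h10 : (2:ℝ) ^ (1 - p) = (2 ^ (p - 1))⁻¹ := by
      rw [← Real.rpow_neg (by norm_num)]; congr 1; ring
    have hs : 0 < σ ^ (p - 1) := Real.rpow_pos_of_pos hσ _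
    have hb : 0 < β ^ (p - 1) := Real.rpow_pos_of_pos (by linarith) _
    have h2p : (0:ℝ) < 2 ^ (p - 1) := Real.rpow_pos_of_pos (by norm_num) _
    have hrp : 0 < (rr p ^ n) ^ (p - 1) := Real.rpow_pos_of_pos hrn _
    calc (2:ℝ) ^ n * (T ^ (1 - p) * (β * σ ^ (p - 1) * rr p ^ n))
        = ((2:ℝ) ^ n * ((rr p ^ n) ^ (p - 1) * rr p ^ n)) * (β / β ^ (p - 1)) * (2 ^ (p - 1))⁻¹ := by
          rw [h6, h7]; field_simp
      _ = (β / β ^ (p - 1)) * (2 ^ (p - 1))⁻¹ := by rw [h8, one_mul]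
      _ ≤ 1 * (2 ^ (p - 1))⁻¹ := by
          apply mul_le_mul_of_nonneg_right _ (by positivity)
          rw [div_le_one hb]; exact h9
      _ = 2 ^ (1 - p) := by rw [h10, one_mul]
  have h4 : 2 ^ (2 - p) * EE f g n k ≤ 2 * β ^ 2 * σ ^ p + 2 ^ (1 - p) * EE f g n k := by
    calc 2 ^ (2 - p) * EE f g n k ≤ _ := h1
      _ ≤ _ := h3
      _ = (2:ℝ) ^ n * (T * (1 / 2) ^ n * (β * σ ^ (p - 1) * rr p ^ n))
          + ((2:ℝ) ^ n * (T ^ (1 - p) * (β * σ ^ (p - 1) * rr p ^ n))) * EE f g n k := by ring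
      _ ≤ 2 * β ^ 2 * σ ^ p + 2 ^ (1 - p) * EE f g n k := by
          rw [e1]
          have := mul_le_mul_of_nonneg_right e2 hE0
          linarith
  have h5 : (2:ℝ) ^ (2 - p) = 2 * 2 ^ (1 - p) := by
    rw [show (2:ℝ) - p = (1 - p) + 1 by ring, Real.rpow_add_one (by norm_num)]; ring
  rw [h5] at h4
  have h6 : 2 ^ (1 - p) * EE f g n k ≤ 2 * β ^ 2 * σ ^ p := by linarith
  have h7 : (2:ℝ) ^ p * 2 ^ (1 - p) = 2 := by
    rw [← Real.rpow_add (by norm_num)]; simp
  have h8 := mul_le_mul_of_nonneg_left h6 (by positivity : (0:ℝ) ≤ 2 ^ p)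
  rw [← mul_assoc, h7] at h8
  linarith

lemma displacement_weight (hp : 2 < p) (f g : LpUnit p) {n k : ℕ} (hk : k < 2 ^ n) {σ C : ℝ}
    (hσ : 0 < σ) (hE : EE f g n k ≤ C * σ ^ p) :
    DW f g n k ≤ (1 + C) * σ ^ (p - 2) * (rr p ^ 2) ^ n := by
  have hrn := rr_pow_pos p n
  set T := σ * (rr p ^ n)⁻¹ with hT
  have hTpos : 0 < T := by positivity
  have h1 : DW f g n k ≤ T ^ (p - 2) * (1 / 2) ^ n + (T ^ 2)⁻¹ * EE f g n k := by
    unfold DW
    calc ∫ x in dyadic n k, |f x - g x| ^ (p - 2) ∂unitMeasure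
        ≤ ∫ x in dyadic n k, (T ^ (p - 2) + (T ^ 2)⁻¹ * |f x - g x| ^ p) ∂unitMeasure := by
          apply setIntegral_mono
          · exact (int_diff_pm2 hp f g).integrableOn
          · exact ((integrable_const _).add ((int_diff_rpow hp f g).const_mul _)).integrableOn
          · intro x; exact young_aux2 hp hTpos _
      _ = T ^ (p - 2) * (1 / 2) ^ n + (T ^ 2)⁻¹ * EE f g n k := by
          rw [integral_add (integrable_const _).integrableOn
            ((int_diff_rpow hp f g).const_mul _).integrableOn, setIntegral_const,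
            measure_dyadic hk, integral_const_mul, smul_eq_mul, mul_comm ((1/2:ℝ)^n)]
          rfl
  have h2 : T ^ (p - 2) * (1 / 2) ^ n = σ ^ (p - 2) * (rr p ^ 2) ^ n := by
    rw [hT, Real.mul_rpow hσ.le (by positivity), Real.inv_rpow hrn.le, ← rr_pow_rpow hp n]
    have : (rr p ^ n) ^ p = (rr p ^ n) ^ (p - 2) * (rr p ^ n) ^ 2 := by
      rw [← Real.rpow_natCast (rr p ^ n) 2, ← Real.rpow_add hrn]
      norm_num
    rw [this]
    have h7 : 0 < (rr p ^ n) ^ (p - 2) := Real.rpow_pos_of_pos hrn _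
    have h8 : (rr p ^ 2) ^ n = (rr p ^ n) ^ 2 := by rw [← pow_mul, ← pow_mul, mul_comm]
    rw [h8]
    field_simp
  have h3 : (T ^ 2)⁻¹ * EE f g n k ≤ C * σ ^ (p - 2) * (rr p ^ 2) ^ n := by
    have h8 : (rr p ^ 2) ^ n = (rr p ^ n) ^ 2 := by rw [← pow_mul, ← pow_mul, mul_comm]
    have h9 : σ ^ p = σ ^ (p - 2) * σ ^ 2 := by
      rw [← Real.rpow_natCast σ 2, ← Real.rpow_add hσ]; norm_num
    calc (T ^ 2)⁻¹ * EE f g n k ≤ (T ^ 2)⁻¹ * (C * σ ^ p) :=
          mul_le_mul_of_nonneg_left hE (by positivity)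
      _ = C * σ ^ (p - 2) * (rr p ^ 2) ^ n := by
          rw [h8, h9, hT]; field_simp
  calc DW f g n k ≤ _ := h1
    _ ≤ σ ^ (p - 2) * (rr p ^ 2) ^ n + C * σ ^ (p - 2) * (rr p ^ 2) ^ n := by
        rw [h2]; linarith
    _ = _ := by ring

end

end Pool.Agent.H71.Haar
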