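import Pool.Agent.H71.Haar.Core

/-! Properties of a run of the WCGA. -/

open MeasureTheory Set
open scoped ENNReal

set_option linter.unusedSectionVars false

namespace Pool.Agent.H71.Haar

section
variable {p : ℝ} [Fact (1 ≤ ENNReal.ofReal p)]

lemma pair_le (hp : 2 < p) (f h : LpUnit p) : |pair f h| ≤ ‖f‖ ^ (p - 1) * ‖h‖ := by
  by_cases hf : ‖f‖ = 0
  · have h0 : f = 0 := norm_eq_zero.mp hf
    have h1 : pair f h = 0 := by
      apply pair_eq_zero_of_best hp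
      intro c
      rw [hf]
      exact norm_nonneg _
    rw [h1, abs_zero]
    positivity
  · obtain ⟨F, hF1, hF2⟩ := exists_dual_vector ℝ f hf
    have h1 := norming_repr hp f F hF1 hF2 h
    rw [← h1, abs_mul, abs_of_nonneg (Real.rpow_nonneg (norm_nonneg _) _)]
    apply mul_le_mul_of_nonneg_left _ (Real.rpow_nonneg (norm_nonneg _) _)
    have := F.le_opNorm h
    rw [hF1, one_mul] at this
    exact this

variable {t : ℝ} {f : LpUnit p} {φ : ℕ → HaarIndex} {r : ℕ → LpUnit p}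

/-- indices chosen before time `k` -/
def Lam (φ : ℕ → HaarIndex) (k : ℕ) : Set HaarIndex := {i | ∃ j < k, φ j = i}

lemma Lam_mono {k k' : ℕ} (h : k ≤ k') : Lam φ k ⊆ Lam φ k' := by
  rintro i ⟨j, hj, rfl⟩
  exact ⟨j, by omega, rfl⟩

lemma range_eq (m : ℕ) :
    {y : LpUnit p | ∃ j ≤ m, y = haar p (φ j)} = haar p '' (Lam φ (m + 1)) := by
  ext y
  constructor
  · rintro ⟨j, hj, rfl⟩
    exact ⟨φ j, ⟨j, by omega, rfl⟩, rfl⟩
  · rintro ⟨_, ⟨j, hj, rfl⟩, rfl⟩
    exact ⟨j, by omega, rfl⟩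

lemma run_span (H : IsWCGA (haar p) t f φ r) (k : ℕ) :
    f - r k ∈ Submodule.span ℝ (haar p '' (Lam φ k)) := by
  induction k with
  | zero => rw [H.init, sub_self]; exact Submodule.zero_mem _
  | succ k ih =>
    by_cases h : r k = 0
    · rw [H.stop k h, ← h]
      exact Submodule.span_mono (Set.image_mono (Lam_mono (Nat.le_succ k))) ih
    · have := H.mem_span k h
      rwa [range_eq] at this

lemma run_best (H : IsWCGA (haar p) t f φ r) (k : ℕ) (y : LpUnit p)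
    (hy : y ∈ Submodule.span ℝ (haar p '' (Lam φ k))) : ‖r k‖ ≤ ‖f - y‖ := by
  cases k with
  | zero =>
    have h0 : Lam φ 0 = ∅ := by
      ext i; simp [Lam]
    rw [h0, Set.image_empty, Submodule.span_empty, Submodule.mem_bot] at hy
    rw [hy, sub_zero, H.init]
  | succ k =>
    by_cases h : r k = 0
    · rw [H.stop k h, norm_zero]
      exact norm_nonneg _
    · apply H.best k h
      rwa [range_eq]

lemma haar_mem_span {i : HaarIndex} {s : Set HaarIndex} (hi : i ∈ s) :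
    haar p i ∈ Submodule.span ℝ (haar p '' s) :=
  Submodule.subset_span ⟨i, hi, rfl⟩

lemma run_orth (hp : 2 < p) (H : IsWCGA (haar p) t f φ r) (k : ℕ) (h : LpUnit p)
    (hh : h ∈ Submodule.span ℝ (haar p '' (Lam φ k))) : pair (r k) h = 0 := by
  apply pair_eq_zero_of_best hp
  intro c
  have h1 : r k - c • h = f - ((f - r k) + c • h) := by abel
  rw [h1]
  apply run_best H
  exact Submodule.add_mem _ (run_span H k) (Submodule.smul_mem _ _ hh)

lemma run_dec (H : IsWCGA (haar p) t f φ r) (k : ℕ) (c : ℝ) :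
    ‖r (k + 1)‖ ≤ ‖r k - c • haar p (φ k)‖ := by
  have h1 : r k - c • haar p (φ k) = f - ((f - r k) + c • haar p (φ k)) := by abel
  rw [h1]
  apply run_best H
  apply Submodule.add_mem
  · exact Submodule.span_mono (Set.image_mono (Lam_mono (Nat.le_succ k))) (run_span H k)
  · apply Submodule.smul_mem
    exact haar_mem_span ⟨k, Nat.lt_succ_self k, rfl⟩

lemma run_anti_step (H : IsWCGA (haar p) t f φ r) (k : ℕ) : ‖r (k + 1)‖ ≤ ‖r k‖ := by
  have := run_dec H k 0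
  simpa using this

lemma run_anti (H : IsWCGA (haar p) t f φ r) : Antitone (fun k => ‖r k‖) :=
  antitone_nat_of_succ_le (run_anti_step H)

lemma run_greedy (hp : 2 < p) (ht : 0 < t) (H : IsWCGA (haar p) t f φ r) (k : ℕ) (g : HaarIndex) :
    t * |pair (r k) (haar p g)| ≤ |pair (r k) (haar p (φ k))| := by
  by_cases h : r k = 0
  · have h1 := pair_le hp (r k) (haar p g)
    rw [h, norm_zero, Real.zero_rpow (by linarith), zero_mul, ← h] at h1
    have h2 : |pair (r k) (haar p g)| = 0 := le_antisymm h1 (abs_nonneg _)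
    rw [h2, mul_zero]
    exact abs_nonneg _
  · obtain ⟨F, hF1, hF2, hF3⟩ := H.greedy k h
    have e1 := norming_repr hp (r k) F hF1 hF2 (haar p g)
    have e2 := norming_repr hp (r k) F hF1 hF2 (haar p (φ k))
    have hn : 0 ≤ ‖r k‖ ^ (p - 1) := Real.rpow_nonneg (norm_nonneg _) _
    rw [← e1, ← e2, abs_mul, abs_mul, abs_of_nonneg hn]
    have hbdd : BddAbove (Set.range fun g : HaarIndex => |F (haar p g)|) := by
      refine ⟨1, ?_⟩
      rintro _ ⟨i, rfl⟩
      have := F.le_opNorm (haar p i)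
      rw [hF1, one_mul, norm_haar hp] at this
      exact this
    have h2 : |F (haar p g)| ≤ ⨆ g : HaarIndex, |F (haar p g)| := le_ciSup hbdd g
    have h3 : t * |F (haar p g)| ≤ |F (haar p (φ k))| :=
      (mul_le_mul_of_nonneg_left h2 ht.le).trans hF3
    calc t * (‖r k‖ ^ (p - 1) * |F (haar p g)|) = ‖r k‖ ^ (p - 1) * (t * |F (haar p g)|) := by ring
      _ ≤ _ := mul_le_mul_of_nonneg_left h3 hn

/-- amplitude of the signals at time `k` -/
noncomputable def sig (p t : ℝ) [Fact (1 ≤ ENNReal.ofReal p)] (φ : ℕ → HaarIndex)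
    (r : ℕ → LpUnit p) (k : ℕ) : ℝ :=
  (|pair (r k) (haar p (φ k))| / t) ^ (p - 1)⁻¹

lemma sig_nonneg (ht : 0 < t) (k : ℕ) : 0 ≤ sig p t φ r k := by
  unfold sig; positivity

lemma sig_rpow (hp : 2 < p) (ht : 0 < t) (k : ℕ) :
    (sig p t φ r k) ^ (p - 1) = |pair (r k) (haar p (φ k))| / t := by
  unfold sig
  rw [← Real.rpow_mul (by positivity), inv_mul_cancel₀ (by linarith), Real.rpow_one]

lemma sig_bound (hp : 2 < p) (ht : 0 < t) (H : IsWCGA (haar p) t f φ r) (k : ℕ) (g : HaarIndex) :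
    |pair (r k) (haar p g)| ≤ (sig p t φ r k) ^ (p - 1) := by
  rw [sig_rpow hp ht, le_div_iff₀ ht, mul_comm]
  exact run_greedy hp ht H k g

/-- The core lemma for runs. -/
theorem core_run (hp : 2 < p) {t : ℝ} (ht0 : 0 < t) (ht1 : t ≤ 1) :
    ∃ C : ℝ, 0 < C ∧ ∀ (f : LpUnit p) (φ : ℕ → HaarIndex) (r : ℕ → LpUnit p),
      IsWCGA (haar p) t f φ r → ∀ (k0 n : ℕ) (σ0 : ℝ), 0 < σ0 →
      (∀ k, k0 ≤ k → k < k0 + n → σ0 ≤ sig p t φ r k) →
      (n : ℝ) * σ0 ^ p ≤ 2 * σ0 ^ p + C * ‖r k0‖ ^ p := by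
  obtain ⟨C, hC, hcore⟩ := core (p := p) hp ht0 ht1
  refine ⟨C, hC, ?_⟩
  intro f φ r H k0 n σ0 hσ0 hσ
  have h := hcore r φ (sig p t φ r) k0 (k0 + n) σ0 (by omega) hσ0 hσ
    (fun k _ _ i => sig_bound hp ht0 H k i)
    (fun k _ _ => by rw [sig_rpow hp ht0, mul_div_cancel₀ _ ht0.ne'])
    (fun k _ _ c => Real.rpow_le_rpow (norm_nonneg _) (run_dec H k c) (by linarith))
    (fun k _ _ j hj => run_orth hp H k _ (haar_mem_span ⟨j, hj, rfl⟩))
    (fun k k' _ hk _ hk' => by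
      have h1 := run_span H k
      have h2 := run_span H k'
      have h3 : r k - r k' = (f - r k') - (f - r k) := by abel
      rw [h3]
      apply Submodule.sub_mem
      · exact Submodule.span_mono (Set.image_mono (Lam_mono hk'.le)) h2
      · exact Submodule.span_mono (Set.image_mono (Lam_mono hk.le)) h1)
  simpa using h

/-! ### The sparse part -/

/-- partial sums of the sparse part -/
noncomputable def PS (p : ℝ) [Fact (1 ≤ ENNReal.ofReal p)] (a : HaarIndex → ℝ)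
    (s : Finset HaarIndex) : LpUnit p := ∑ i ∈ s, a i • haar p i

lemma PS_mem (a : HaarIndex → ℝ) (s : Finset HaarIndex) (S : Set HaarIndex)
    (h : ∀ i ∈ s, i ∈ S) : PS p a s ∈ Submodule.span ℝ (haar p '' S) := by
  unfold PS
  apply Submodule.sum_mem
  intro i hi
  exact Submodule.smul_mem _ _ (haar_mem_span (h i hi))

lemma PS_union (a : HaarIndex → ℝ) (s s' : Finset HaarIndex) (h : Disjoint s s') :
    PS p a (s ∪ s') = PS p a s + PS p a s' := by
  unfold PS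
  exact Finset.sum_union h

/-- unchosen part of the coefficients is controlled by the residual -/
lemma coef_bound (hp : 2 < p) (H : IsWCGA (haar p) t f φ r) (A : Finset HaarIndex) (a : HaarIndex → ℝ)
    {γ : ℝ} (hγ : ‖f - PS p a A‖ ≤ γ) (k : ℕ) (s : Finset HaarIndex) (hs : s ⊆ A)
    (hk : ∀ i ∈ s, i ∉ Lam φ k) :
    ∑ i ∈ s, |a i| ^ p ≤ 2 ^ p * (‖r k‖ ^ p + γ ^ p) := by
  have h1 : ∀ i ∈ s, |a i| ^ p ≤ 2 ^ p * (|cf (r k) i| ^ p + |cf (f - PS p a A) i| ^ p) := by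
    intro i hi
    have e1 : cf (f - r k) i = 0 := cf_span hp (Lam φ k) i (hk i hi) _ (run_span H k)
    have e2 : cf (PS p a A) i = a i := by
      unfold PS
      rw [cf_sum_smul hp A a i, if_pos (hs hi)]
    have e3 : a i = cf (r k) i - cf (f - PS p a A) i := by
      rw [cf_sub hp] at e1
      rw [cf_sub hp, e2]
      linarith
    calc |a i| ^ p = |cf (r k) i - cf (f - PS p a A) i| ^ p := by rw [← e3]
      _ ≤ (|cf (r k) i| + |cf (f - PS p a A) i|) ^ p :=
          Real.rpow_le_rpow (abs_nonneg _) (abs_sub _ _) (by linarith)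
      _ ≤ _ := rpow_add_le_aux (by linarith) (abs_nonneg _) (abs_nonneg _)
  calc ∑ i ∈ s, |a i| ^ p
      ≤ ∑ i ∈ s, 2 ^ p * (|cf (r k) i| ^ p + |cf (f - PS p a A) i| ^ p) := Finset.sum_le_sum h1
    _ = 2 ^ p * (∑ i ∈ s, |cf (r k) i| ^ p + ∑ i ∈ s, |cf (f - PS p a A) i| ^ p) := by
        rw [← Finset.mul_sum, Finset.sum_add_distrib]
    _ ≤ 2 ^ p * (‖r k‖ ^ p + γ ^ p) := by
        apply mul_le_mul_of_nonneg_left _ (by positivity)
        apply add_le_add (cotype hp _ _)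
        exact (cotype hp _ _).trans (Real.rpow_le_rpow (norm_nonneg _) hγ (by linarith))

/-- lower bound for the signals -/
lemma signal_lower (hp : 2 < p) (ht : 0 < t) (H : IsWCGA (haar p) t f φ r) (A : Finset HaarIndex)
    (a : HaarIndex → ℝ) {γ : ℝ} (hγ : ‖f - PS p a A‖ ≤ γ) (k k' : ℕ) (hkk' : k ≤ k')
    (Γ R : Finset HaarIndex) (hΓ : Γ ⊆ A) (hR : R ⊆ A) (hΓR : Disjoint Γ R)
    (hcov : ∀ i ∈ A, i ∉ Γ → i ∉ R → i ∈ Lam φ k) (hne : Γ.Nonempty)
    (hbig : 2 * (‖PS p a R‖ + γ) ≤ ‖r k'‖) :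
    ‖r k'‖ ^ p ≤ (2 * (1 + 2 ^ (p + 1))) ^ p * (Γ.card : ℝ) * (sig p t φ r k') ^ p := by
  classical
  set ρ := ‖r k'‖ with hρ
  have hρ0 : 0 ≤ ρ := norm_nonneg _
  have hγ0 : 0 ≤ γ := (norm_nonneg _).trans hγ
  rcases hρ0.eq_or_lt with h | hρpos
  · rw [← h, Real.zero_rpow (by linarith)]
    have := sig_nonneg (p := p) (φ := φ) (r := r) ht k'
    positivity
  set s := sig p t φ r k' with hs
  have hs0 : 0 ≤ s := sig_nonneg ht k'
  set Γ' := Γ.filter (fun i => i ∉ Lam φ k') with hΓ'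
  -- Φ = pair (r k') f
  have h1 : pair (r k') (r k') = pair (r k') f := by
    have := run_orth hp H k' _ (run_span H k')
    rw [pair_sub hp] at this
    linarith
  have h2 : PS p a A = PS p a Γ + PS p a R + PS p a (A \ (Γ ∪ R)) := by
    rw [← PS_union a Γ R hΓR, ← PS_union a (Γ ∪ R) (A \ (Γ ∪ R)) Finset.disjoint_sdiff]
    congr 1
    rw [Finset.union_sdiff_of_subset (Finset.union_subset hΓ hR)]
  have h3 : pair (r k') (PS p a (A \ (Γ ∪ R))) = 0 := by
    apply run_orth hp H k'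
    apply PS_mem
    intro i hi
    rw [Finset.mem_sdiff, Finset.mem_union, not_or] at hi
    exact Lam_mono hkk' (hcov i hi.1 hi.2.1 hi.2.2)
  have h4 : pair (r k') (PS p a Γ) = ∑ i ∈ Γ', a i * pair (r k') (haar p i) := by
    unfold PS
    rw [pair_sum hp, hΓ', Finset.sum_filter]
    apply Finset.sum_congr rfl
    intro i _
    rw [pair_smul]
    by_cases hi : i ∈ Lam φ k'
    · rw [if_neg (by simpa using hi), run_orth hp H k' _ (haar_mem_span hi), mul_zero]
    · rw [if_pos hi]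
  have h5 : pair (r k') f = pair (r k') ((f - PS p a A) + PS p a R)
      + ∑ i ∈ Γ', a i * pair (r k') (haar p i) := by
    have e : f = ((f - PS p a A) + PS p a R) + PS p a Γ + PS p a (A \ (Γ ∪ R)) := by
      conv_lhs => rw [show f = (f - PS p a A) + PS p a A by abel, h2]
      rw [h2]
      abel
    conv_lhs => rw [e]
    rw [pair_add hp (r k') _ (PS p a (A \ (Γ ∪ R))), pair_add hp (r k') _ (PS p a Γ), h3, h4,
      add_zero]
  have h6 : pair (r k') ((f - PS p a A) + PS p a R) ≤ ρ ^ (p - 1) * (ρ / 2) := by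
    refine (le_abs_self _).trans ((pair_le hp _ _).trans ?_)
    apply mul_le_mul_of_nonneg_left _ (by positivity)
    calc ‖(f - PS p a A) + PS p a R‖ ≤ ‖f - PS p a A‖ + ‖PS p a R‖ := norm_add_le _ _
      _ ≤ ρ / 2 := by linarith
  have h7 : ∑ i ∈ Γ', a i * pair (r k') (haar p i) ≤ s ^ (p - 1) * ∑ i ∈ Γ', |a i| := by
    rw [Finset.mul_sum]
    apply Finset.sum_le_sum
    intro i _
    calc a i * pair (r k') (haar p i) ≤ |a i * pair (r k') (haar p i)| := le_abs_self _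
      _ = |a i| * |pair (r k') (haar p i)| := abs_mul _ _
      _ ≤ |a i| * s ^ (p - 1) :=
          mul_le_mul_of_nonneg_left (sig_bound hp ht H k' i) (abs_nonneg _)
      _ = s ^ (p - 1) * |a i| := mul_comm _ _
  have hρp : ρ ^ (p - 1) * ρ = ρ ^ p := by rw [← Real.rpow_add_one hρpos.ne']; ring_nf
  have h8 : ρ ^ p / 2 ≤ s ^ (p - 1) * ∑ i ∈ Γ', |a i| := by
    have e := pair_self hp (r k')
    rw [h1, h5] at e
    have e2 : ρ ^ (p - 1) * (ρ / 2) = ρ ^ p / 2 := by rw [← hρp]; ring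
    rw [e2] at h6
    rw [← hρ] at e
    linarith
  -- bound the ℓ1 norm
  have hcard : (0:ℝ) < Γ.card := by exact_mod_cast Finset.card_pos.mpr hne
  have hcard' : (Γ'.card : ℝ) ≤ Γ.card := by exact_mod_cast Finset.card_filter_le _ _
  set c := (Γ.card : ℝ) with hc
  set T := ρ * (c ^ (p⁻¹))⁻¹ with hT
  have hcp : 0 < c ^ (p⁻¹) := Real.rpow_pos_of_pos hcard _
  have hTpos : 0 < T := by positivity
  have h9 : ∑ i ∈ Γ', |a i| ^ p ≤ 2 ^ (p + 1) * ρ ^ p := by
    have e1 := coef_bound hp H A a hγ k' Γ' ((Finset.filter_subset _ _).trans hΓ)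
      (fun i hi => by rw [hΓ', Finset.mem_filter] at hi; exact hi.2)
    have e2 : γ ^ p ≤ ρ ^ p := Real.rpow_le_rpow hγ0
      (by have := norm_nonneg (PS p a R); linarith) (by linarith)
    calc ∑ i ∈ Γ', |a i| ^ p ≤ _ := e1
      _ ≤ 2 ^ p * (ρ ^ p + ρ ^ p) := by
          apply mul_le_mul_of_nonneg_left _ (by positivity)
          rw [← hρ]
          linarith
      _ = 2 ^ (p + 1) * ρ ^ p := by rw [Real.rpow_add_one (by norm_num)]; ring
  have h10 : ∑ i ∈ Γ', |a i| ≤ c * T + T ^ (1 - p) * (2 ^ (p + 1) * ρ ^ p) := by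
    calc ∑ i ∈ Γ', |a i| ≤ ∑ i ∈ Γ', (T + T ^ (1 - p) * |a i| ^ p) :=
          Finset.sum_le_sum (fun i _ => young_aux hp hTpos (a i))
      _ = Γ'.card * T + T ^ (1 - p) * ∑ i ∈ Γ', |a i| ^ p := by
          rw [Finset.sum_add_distrib, Finset.sum_const, nsmul_eq_mul, Finset.mul_sum]
      _ ≤ _ := add_le_add (mul_le_mul_of_nonneg_right hcard' hTpos.le)
          (mul_le_mul_of_nonneg_left h9 (by positivity))
  -- c * T = ρ c^{(p-1)/p}
  set z := c ^ (p⁻¹) with hz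
  have hzp : z ^ p = c := by
    rw [hz, ← Real.rpow_mul hcard.le, inv_mul_cancel₀ (by linarith), Real.rpow_one]
  have hz1 : z ^ p = z ^ (p - 1) * z := by rw [← Real.rpow_add_one hcp.ne']; ring_nf
  have h11 : c * T = ρ * z ^ (p - 1) := by
    rw [← hzp, hz1, hT]; field_simp
  have h12 : T ^ (1 - p) * ρ ^ p = ρ * z ^ (p - 1) := by
    have e1 : T ^ (1 - p) = (T ^ (p - 1))⁻¹ := by
      rw [← Real.rpow_neg hTpos.le]; congr 1; ring
    have e2 : T ^ (p - 1) = ρ ^ (p - 1) * (z ^ (p - 1))⁻¹ := by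
      rw [hT, Real.mul_rpow hρ0 (inv_pos.mpr hcp).le, Real.inv_rpow hcp.le]
    have e3 : 0 < ρ ^ (p - 1) := Real.rpow_pos_of_pos hρpos _
    have e4 : 0 < z ^ (p - 1) := Real.rpow_pos_of_pos hcp _
    rw [e1, e2, ← hρp]
    field_simp
  have h13 : ∑ i ∈ Γ', |a i| ≤ (1 + 2 ^ (p + 1)) * (ρ * z ^ (p - 1)) := by
    calc ∑ i ∈ Γ', |a i| ≤ _ := h10
      _ = c * T + 2 ^ (p + 1) * (T ^ (1 - p) * ρ ^ p) := by ring
      _ = _ := by rw [h11, h12]; ring
  set K : ℝ := 2 * (1 + 2 ^ (p + 1)) with hK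
  have hK1 : 1 ≤ K := by
    have : (0:ℝ) < 2 ^ (p + 1) := by positivity
    rw [hK]; linarith
  have hsp0 : 0 ≤ s ^ (p - 1) := Real.rpow_nonneg hs0 _
  have h14 : ρ ^ (p - 1) * ρ ≤ (K * (s ^ (p - 1) * z ^ (p - 1))) * ρ := by
    have e1 := mul_le_mul_of_nonneg_left h13 hsp0
    rw [hρp]
    calc ρ ^ p = 2 * (ρ ^ p / 2) := by ring
      _ ≤ 2 * (s ^ (p - 1) * ∑ i ∈ Γ', |a i|) := by linarith
      _ ≤ 2 * (s ^ (p - 1) * ((1 + 2 ^ (p + 1)) * (ρ * z ^ (p - 1)))) := by linarith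
      _ = _ := by rw [hK]; ring
  have h15 : ρ ^ (p - 1) ≤ K * (s ^ (p - 1) * z ^ (p - 1)) := le_of_mul_le_mul_right h14 hρpos
  have h16 : ρ ^ (p - 1) ≤ (K * (s * z)) ^ (p - 1) := by
    rw [Real.mul_rpow (by linarith) (mul_nonneg hs0 hcp.le), Real.mul_rpow hs0 hcp.le]
    refine h15.trans ?_
    apply mul_le_mul_of_nonneg_right _ (mul_nonneg hsp0 (Real.rpow_nonneg hcp.le _))
    conv_lhs => rw [← Real.rpow_one K]
    exact Real.rpow_le_rpow_of_exponent_le hK1 (by linarith)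
  have h17 : ρ ≤ K * (s * z) :=
    (Real.rpow_le_rpow_iff hρ0 (mul_nonneg (by linarith) (mul_nonneg hs0 hcp.le))
      (by linarith)).mp h16
  calc ρ ^ p ≤ (K * (s * z)) ^ p := Real.rpow_le_rpow hρ0 h17 (by linarith)
    _ = K ^ p * c * s ^ p := by
        rw [Real.mul_rpow (by linarith) (mul_nonneg hs0 hcp.le), Real.mul_rpow hs0 hcp.le, hzp]
        ring

end

end Pool.Agent.H71.Haar
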